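import Pool.Agent.FSQ.Defs

/-!
# FSQ-Coll: the set `TT` and its collisions

The first coordinates of the elements of `TT` lie in `[W - E0, W + H)`; the number of the
collisions of `w² + P(u)` in terms of `diag` and `offd`; the congruence for the values; a lower
bound for the number of the elements of `TT`.
-/

namespace FSQ

open Finset

private theorem mem_TT {Q : ℕ} {ws xs as bs X D A W H : ℤ} {t : ℤ × Tr} :
    t ∈ TT Q ws xs as bs X D A W H ↔ (((1 ≤ t.1 ∧ t.1 < W + H) ∧ t.1 ≡ ws [ZMOD Q]) ∧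
      t.2 ∈ box Q xs as bs X D A) ∧
      (W ^ 2 ≤ t.1 ^ 2 + PP t.2 ∧ t.1 ^ 2 + PP t.2 < (W + H) ^ 2) := by
  unfold TT
  rw [mem_filter, mem_product, mem_res]

theorem TT_range {Q : ℕ} {ws xs as bs X D A W H E0 : ℤ} (hE : 0 ≤ E0) (hEW : E0 ≤ W)
    (hM : ∀ u ∈ box Q xs as bs X D A, PP u ≤ E0 * W) {t : ℤ × Tr}
    (ht : t ∈ TT Q ws xs as bs X D A W H) : W - E0 ≤ t.1 ∧ t.1 < W + H ∧ 0 < t.1 := by
  rw [mem_TT] at ht
  obtain ⟨⟨⟨⟨h1, h2⟩, _⟩, h3⟩, h4, _⟩ := ht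
  have h5 := hM _ h3
  refine ⟨?_, h2, by omega⟩
  have h6 : (W - E0) ^ 2 ≤ t.1 ^ 2 := by nlinarith [mul_nonneg hE (sub_nonneg.2 hEW)]
  exact le_of_sq_le_sq h6 (by omega)

theorem coll_le {Q : ℕ} (hQ : 0 < Q) {ws xs as bs X D A W H E0 : ℤ} (hE : 0 ≤ E0) (hEW : E0 ≤ W)
    (hH : 0 ≤ H) (hM : ∀ u ∈ box Q xs as bs X D A, PP u ≤ E0 * W) :
    (coll Q ws xs as bs X D A W H).card ≤
      (H + E0).toNat * (diag Q xs as bs X D A).card +
      2 * ∑ ι ∈ Icc 1 (H + E0).toNat,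
        (offd Q ws xs as bs X D A (2 * (W - E0)) (2 * (H + E0)) (Q * ι)).card := by
  classical
  have hmem : ∀ p ∈ coll Q ws xs as bs X D A W H, p.1 ∈ TT Q ws xs as bs X D A W H ∧
      p.2 ∈ TT Q ws xs as bs X D A W H ∧ p.1.1 ^ 2 + PP p.1.2 = p.2.1 ^ 2 + PP p.2.2 := by
    intro p hp
    unfold coll at hp
    rw [mem_filter, mem_product] at hp
    exact ⟨hp.1.1, hp.1.2, hp.2⟩
  have hsym : ∀ p ∈ coll Q ws xs as bs X D A W H, (p.2, p.1) ∈ coll Q ws xs as bs X D A W H := by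
    intro p hp
    unfold coll at hp ⊢
    rw [mem_filter, mem_product] at hp ⊢
    exact ⟨⟨hp.1.2, hp.1.1⟩, hp.2.symm⟩
  -- equal first coordinates
  have hEq : ((coll Q ws xs as bs X D A W H).filter fun p => p.1.1 = p.2.1).card ≤
      (H + E0).toNat * (diag Q xs as bs X D A).card := by
    have h1 : (Ico (W - E0) (W + H)).card = (H + E0).toNat := by
      rw [Int.card_Ico]
      congr 1
      ring
    rw [← h1, ← card_product]
    refine card_le_card_of_injOn (fun p => (p.1.1, (p.1.2, p.2.2))) ?_ ?_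
    · intro p hp
      rw [mem_coe, mem_filter] at hp
      obtain ⟨hp1, hp2⟩ := hp
      obtain ⟨h2, h3, h4⟩ := hmem p hp1
      have h5 := TT_range hE hEW hM h2
      rw [mem_coe, mem_product, mem_Ico]
      refine ⟨⟨h5.1, h5.2.1⟩, ?_⟩
      unfold diag
      rw [mem_filter, mem_product]
      refine ⟨⟨(mem_TT.1 h2).1.2, (mem_TT.1 h3).1.2⟩, ?_⟩
      rw [hp2] at h4
      exact add_left_cancel h4
    · intro p hp q hq hpq
      rw [mem_coe, mem_filter] at hp hq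
      simp only [Prod.mk.injEq] at hpq
      obtain ⟨h2, h3, h4⟩ := hpq
      refine Prod.ext (Prod.ext h2 h3) (Prod.ext ?_ h4)
      rw [← hp.2, ← hq.2, h2]
  -- bigger first coordinate
  have hGt : ((coll Q ws xs as bs X D A W H).filter fun p => p.2.1 < p.1.1).card ≤
      ∑ ι ∈ Icc 1 (H + E0).toNat,
        (offd Q ws xs as bs X D A (2 * (W - E0)) (2 * (H + E0)) (Q * ι)).card := by
    rw [← card_sigma]
    have hQ0 : (0 : ℤ) < Q := by exact_mod_cast hQ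
    have key : ∀ p ∈ (coll Q ws xs as bs X D A W H).filter (fun p => p.2.1 < p.1.1),
        ∃ ι : ℕ, 1 ≤ ι ∧ ι ≤ (H + E0).toNat ∧ p.1.1 - p.2.1 = Q * ι := by
      intro p hp
      rw [mem_filter] at hp
      obtain ⟨hp1, hp2⟩ := hp
      obtain ⟨h2, h3, h4⟩ := hmem p hp1
      have h5 := TT_range hE hEW hM h2
      have h6 := TT_range hE hEW hM h3
      have h7 : p.2.1 ≡ p.1.1 [ZMOD Q] := (mem_TT.1 h3).1.1.2.trans (mem_TT.1 h2).1.1.2.symm
      obtain ⟨k, hk⟩ := h7.dvd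
      have hk0 : 0 < k := by
        by_contra hneg
        push Not at hneg
        have : (Q : ℤ) * k ≤ 0 := mul_nonpos_of_nonneg_of_nonpos hQ0.le hneg
        omega
      refine ⟨k.toNat, by omega, ?_, ?_⟩
      · have h8 : k ≤ Q * k := by nlinarith
        have h9 : k ≤ H + E0 := by omega
        omega
      · rw [hk, Int.toNat_of_nonneg hk0.le]
    choose! ι hι1 hι2 hι3 using key
    refine card_le_card_of_injOn (fun p => ⟨ι p, (p.1.2, p.2.2)⟩) ?_ ?_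
    · intro p hp
      have hp' := hp
      rw [mem_coe] at hp'
      rw [mem_coe, mem_filter] at hp
      obtain ⟨hp1, hp2⟩ := hp
      obtain ⟨h2, h3, h4⟩ := hmem p hp1
      have h5 := TT_range hE hEW hM h2
      have h6 := TT_range hE hEW hM h3
      rw [mem_coe, mem_sigma, mem_Icc]
      refine ⟨⟨hι1 p hp', hι2 p hp'⟩, ?_⟩
      unfold offd
      rw [mem_filter, mem_product]
      refine ⟨⟨(mem_TT.1 h2).1.2, (mem_TT.1 h3).1.2⟩, p.1.1 + p.2.1, by omega, by omega, ?_, ?_⟩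
      · rw [← hι3 p hp']
        have h8 : (2 * p.2.1) ≡ 2 * ws [ZMOD 2 * Q] :=
          Int.ModEq.mul_left' (c := 2) (mem_TT.1 h3).1.1.2
        have h9 := h8.add_right (p.1.1 - p.2.1)
        have e1 : 2 * p.2.1 + (p.1.1 - p.2.1) = p.1.1 + p.2.1 := by ring
        rw [e1] at h9
        exact_mod_cast h9
      · dsimp only
        rw [← hι3 p hp']
        linear_combination -h4
    · intro p hp q hq hpq
      have hp' := hp
      have hq' := hq
      rw [mem_coe] at hp' hq'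
      rw [mem_coe, mem_filter] at hp hq
      simp only [Sigma.mk.injEq, heq_eq_eq, Prod.mk.injEq] at hpq
      obtain ⟨h1, h2, h3⟩ := hpq
      have e1 := hι3 p hp'
      have e2 := hι3 q hq'
      rw [h1, ← e2] at e1
      have e3 := (hmem p hp.1).2.2
      have e4 := (hmem q hq.1).2.2
      rw [h2, h3] at e3
      have e5 : (p.1.1 - p.2.1) * (p.1.1 + p.2.1) = (p.1.1 - p.2.1) * (q.1.1 + q.2.1) := by
        have e6 : (p.1.1 - p.2.1) * (p.1.1 + p.2.1) = (q.1.1 - q.2.1) * (q.1.1 + q.2.1) := by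
          linear_combination e3 - e4
        rw [e6, e1]
      have e7 : p.1.1 - p.2.1 ≠ 0 := by
        have := hp.2
        omega
      have e8 := mul_left_cancel₀ e7 e5
      exact Prod.ext (Prod.ext (by omega) h2) (Prod.ext (by omega) h3)
  have hLt : ((coll Q ws xs as bs X D A W H).filter fun p => p.1.1 < p.2.1).card ≤
      ((coll Q ws xs as bs X D A W H).filter fun p => p.2.1 < p.1.1).card := by
    refine card_le_card_of_injOn (fun p => (p.2, p.1)) ?_ ?_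
    · intro p hp
      rw [mem_coe, mem_filter] at hp ⊢
      exact ⟨hsym p hp.1, hp.2⟩
    · intro p _ q _ hpq
      simp only [Prod.mk.injEq] at hpq
      exact Prod.ext hpq.2 hpq.1
  have hsub : coll Q ws xs as bs X D A W H ⊆
      ((coll Q ws xs as bs X D A W H).filter fun p => p.1.1 = p.2.1) ∪
      (((coll Q ws xs as bs X D A W H).filter fun p => p.2.1 < p.1.1) ∪
      ((coll Q ws xs as bs X D A W H).filter fun p => p.1.1 < p.2.1)) := by
    intro p hp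
    rw [mem_union, mem_union, mem_filter, mem_filter, mem_filter]
    rcases lt_trichotomy p.1.1 p.2.1 with h | h | h
    · exact Or.inr (Or.inr ⟨hp, h⟩)
    · exact Or.inl ⟨hp, h⟩
    · exact Or.inr (Or.inl ⟨hp, h⟩)
  refine (card_le_card hsub).trans ((card_union_le _ _).trans ?_)
  have h9 := card_union_le ((coll Q ws xs as bs X D A W H).filter fun p => p.2.1 < p.1.1)
    ((coll Q ws xs as bs X D A W H).filter fun p => p.1.1 < p.2.1)
  omega

theorem val_modEq {Q g : ℕ} {ws xs as bs : ℤ} (c : Cls Q g ws xs as bs) {w x a b : ℤ}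
    (hw : w ≡ ws [ZMOD Q]) (hx : x ≡ xs [ZMOD Q]) (ha : a ≡ as [ZMOD Q]) (hb : b ≡ bs [ZMOD Q]) :
    w ^ 2 + P x a b ≡ ws ^ 2 + P xs as bs [ZMOD (2 * g * Q : ℕ)] := by
  obtain ⟨q, hq⟩ := c.Q120
  obtain ⟨t, ht⟩ := hw.symm.dvd
  obtain ⟨r, hr⟩ := hx.symm.dvd
  obtain ⟨m, hm⟩ := ha.symm.dvd
  obtain ⟨n, hn⟩ := hb.symm.dvd
  have hQ : (Q : ℤ) = 120 * q := by rw [hq]; push_cast; ring
  obtain rfl : w = ws + Q * t := by linarith
  obtain rfl : x = xs + Q * r := by linarith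
  obtain rfl : a = as + Q * m := by linarith
  obtain rfl : b = bs + Q * n := by linarith
  apply Int.ModEq.symm
  rw [Int.modEq_iff_dvd]
  rcases c.hg with h | h
  · subst h
    refine ⟨(t * ws + 60 * q * t ^ 2) + 9 * (r * xs + 60 * q * r ^ 2) -
      2 * (((as + Q * m) ^ 2 + (bs + Q * n) ^ 2) * r +
        (m * (as + Q * m + as) + n * (bs + Q * n + bs)) * xs) +
      2 * m * (as + 60 * q * m) * (as ^ 2 + as * Q * m + 60 * q * Q * m ^ 2) +
      2 * n * (bs + 60 * q * n) * (bs ^ 2 + bs * Q * n + 60 * q * Q * n ^ 2), ?_⟩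
    unfold P
    push_cast
    rw [hQ]
    ring
  · subst h
    obtain ⟨ws', hws⟩ := c.gw
    obtain ⟨xs', hxs⟩ := c.gx
    refine ⟨(t * ws' + 30 * q * t ^ 2) + 9 * (r * xs' + 30 * q * r ^ 2) -
      (((as + Q * m) ^ 2 + (bs + Q * n) ^ 2) * r +
        (m * (as + Q * m + as) + n * (bs + Q * n + bs)) * xs) +
      m * (as + 60 * q * m) * (as ^ 2 + as * Q * m + 60 * q * Q * m ^ 2) +
      n * (bs + 60 * q * n) * (bs ^ 2 + bs * Q * n + 60 * q * Q * n ^ 2), ?_⟩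
    push_cast at hws hxs
    unfold P
    push_cast
    rw [hQ, hws, hxs]
    ring

theorem TT_ge {Q : ℕ} (hQ : 0 < Q) {ws xs as bs X D A W H E0 : ℤ} (hE : 0 ≤ E0) (hEW : E0 ≤ W)
    (hW : 0 < W) (hH : E0 ≤ H) (hM : ∀ u ∈ box Q xs as bs X D A, PP u ≤ E0 * W) :
    (((H - E0 : ℤ) : ℝ) / Q - 1) * (box Q xs as bs X D A).card ≤
      (TT Q ws xs as bs X D A W H).card := by
  classical
  have h1 : res Q ws W (W + H - E0) ×ˢ box Q xs as bs X D A ⊆ TT Q ws xs as bs X D A W H := by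
    intro t ht
    rw [mem_product, mem_res] at ht
    obtain ⟨⟨⟨h2, h3⟩, h4⟩, h5⟩ := ht
    rw [mem_TT]
    have h6 := hM _ h5
    have h7 := PP_nonneg t.2
    refine ⟨⟨⟨⟨by omega, by omega⟩, h4⟩, h5⟩, ?_, ?_⟩
    · nlinarith
    · have h8 : t.1 ^ 2 < (W + H - E0) ^ 2 := by
        apply pow_lt_pow_left₀ h3 (by omega) (by norm_num)
      have h9 : 0 ≤ E0 * (W + 2 * H - E0) := mul_nonneg hE (by omega)
      nlinarith
  have h2 : ((H - E0 : ℤ) : ℝ) / Q - 1 ≤ ((res Q ws W (W + H - E0)).card : ℝ) := by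
    have hQ0 : (0 : ℤ) < Q := by exact_mod_cast hQ
    have h3 := Int.Ico_filter_modEq_card W (W + H - E0) hQ0 ws
    have h4 : ((res Q ws W (W + H - E0)).card : ℤ) ≥
        ⌈((W + H - E0 : ℤ) - (ws : ℤ) : ℚ) / ((Q : ℤ) : ℚ)⌉ -
        ⌈((W : ℤ) - (ws : ℤ) : ℚ) / ((Q : ℤ) : ℚ)⌉ := by
      unfold res
      rw [h3]
      exact le_max_left _ _
    have h5 := Int.le_ceil (((W + H - E0 : ℤ) - (ws : ℤ) : ℚ) / ((Q : ℤ) : ℚ))
    have h6 := Int.ceil_lt_add_one (((W : ℤ) - (ws : ℤ) : ℚ) / ((Q : ℤ) : ℚ))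
    have h7 : ((H - E0 : ℤ) : ℚ) / ((Q : ℤ) : ℚ) =
        ((W + H - E0 : ℤ) - (ws : ℤ) : ℚ) / ((Q : ℤ) : ℚ) -
        ((W : ℤ) - (ws : ℤ) : ℚ) / ((Q : ℤ) : ℚ) := by
      push_cast
      ring
    have h8 : (((res Q ws W (W + H - E0)).card : ℤ) : ℚ) ≥
        (⌈((W + H - E0 : ℤ) - (ws : ℤ) : ℚ) / ((Q : ℤ) : ℚ)⌉ : ℚ) -
        (⌈((W : ℤ) - (ws : ℤ) : ℚ) / ((Q : ℤ) : ℚ)⌉ : ℚ) := by exact_mod_cast h4
    have h9 : ((H - E0 : ℤ) : ℚ) / ((Q : ℤ) : ℚ) - 1 ≤
        (((res Q ws W (W + H - E0)).card : ℤ) : ℚ) := by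
      rw [h7]
      linarith
    have h10 : ((((H - E0 : ℤ) : ℚ) / ((Q : ℤ) : ℚ) - 1 : ℚ) : ℝ) ≤
        (((((res Q ws W (W + H - E0)).card : ℤ) : ℚ)) : ℝ) := by exact_mod_cast h9
    push_cast at h10 ⊢
    exact h10
  calc (((H - E0 : ℤ) : ℝ) / Q - 1) * (box Q xs as bs X D A).card
      ≤ ((res Q ws W (W + H - E0)).card : ℝ) * (box Q xs as bs X D A).card :=
        mul_le_mul_of_nonneg_right h2 (Nat.cast_nonneg _)
    _ = ((res Q ws W (W + H - E0) ×ˢ box Q xs as bs X D A).card : ℝ) := by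
        rw [card_product]
        push_cast
        ring
    _ ≤ _ := by exact_mod_cast card_le_card h1

end FSQ
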