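import Pool.Agent.FSQ.Defs
import Pool.Agent.Helper27.DivBound

/-!
# FSQ-Diag: the diagonal

The number of pairs of triples of the box at which `P` takes the same value is `≤ C Z ^ 39`. With
`9 P = U² + F`, the pairs are split into those with `F ≠ F'` (then `U - U'` divides `F' - F ≠ 0`), those with
`F = F'` and `a ≠ a'` (then `5b² - 4a² - 5b'² + 4a'²` divides `9 a'⁴ - 9 a⁴ ≠ 0`), and those with `F = F'` and
`a = a'` (at most four for given `x, a, b`); the number of divisors is bounded by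
`Pool.Agent.Helper27.card_divisors_pow_le'` with exponent `12`.
-/

namespace FSQ

open Finset

/-- divisor bound -/
private theorem tau_bd : ∃ C1 : ℕ, ∀ (Z h : ℕ), 1 ≤ Z → 0 < h → h ≤ 100 * Z ^ 36 →
    h.divisors.card ≤ C1 * Z ^ 3 := by
  obtain ⟨K, hK⟩ : ∃ K : ℕ, K = (2 * 12 ^ 12) ^ (2 ^ 12) := ⟨_, rfl⟩
  refine ⟨K * 100, ?_⟩
  intro Z h hZ h0 hle
  have h1 : h.divisors.card ^ 12 ≤ K * h := by
    rw [hK]
    exact Pool.Agent.Helper27.card_divisors_pow_le' 12 (by norm_num) h h0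
  have h2 : h.divisors.card ^ 12 ≤ (K * 100 * Z ^ 3) ^ 12 := by
    refine h1.trans ?_
    have h3 : K * h ≤ K * (100 * Z ^ 36) := Nat.mul_le_mul_left K hle
    refine h3.trans ?_
    have h4 : (K * 100 * Z ^ 3) ^ 12 = (K * 100) ^ 12 * Z ^ 36 := by
      rw [mul_pow, ← pow_mul]
    rw [h4]
    have h5 : K * 100 ≤ (K * 100) ^ 12 := Nat.le_self_pow (by norm_num) _
    calc K * (100 * Z ^ 36) = (K * 100) * Z ^ 36 := by ring
      _ ≤ (K * 100) ^ 12 * Z ^ 36 := Nat.mul_le_mul_right _ h5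
  exact (Nat.pow_le_pow_iff_left (by norm_num)).1 h2

/-- the integers which divide `h` -/
private noncomputable def dvs (h : ℤ) : Finset ℤ := (Icc (-|h|) |h|).filter (fun d => d ∣ h)

private theorem mem_dvs {h d : ℤ} (hne : h ≠ 0) (hd : d ∣ h) : d ∈ dvs h := by
  unfold dvs
  rw [mem_filter, mem_Icc]
  have h1 : |d| ≤ |h| := by
    have := Int.natAbs_le_of_dvd_ne_zero hd hne
    rw [Int.abs_eq_natAbs, Int.abs_eq_natAbs]
    exact_mod_cast this
  exact ⟨⟨(abs_le.mp h1).1, (abs_le.mp h1).2⟩, hd⟩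

private theorem fact_card (h : ℤ) (hne : h ≠ 0) :
    (dvs h).card ≤ 2 * h.natAbs.divisors.card := by
  classical
  have hsub : dvs h ⊆ (h.natAbs.divisors.image (fun n : ℕ => (n : ℤ))) ∪
      (h.natAbs.divisors.image (fun n : ℕ => -(n : ℤ))) := by
    intro d hd
    unfold dvs at hd
    rw [mem_filter] at hd
    have h1 : d.natAbs ∈ h.natAbs.divisors :=
      Nat.mem_divisors.mpr ⟨Int.natAbs_dvd_natAbs.mpr hd.2, Int.natAbs_ne_zero.mpr hne⟩
    rw [mem_union, mem_image, mem_image]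
    rcases Int.natAbs_eq d with e | e
    · exact Or.inl ⟨d.natAbs, h1, e.symm⟩
    · exact Or.inr ⟨d.natAbs, h1, e.symm⟩
  calc (dvs h).card ≤ _ := card_le_card hsub
    _ ≤ _ := card_union_le _ _
    _ ≤ h.natAbs.divisors.card + h.natAbs.divisors.card :=
        Nat.add_le_add card_image_le card_image_le
    _ = 2 * h.natAbs.divisors.card := by ring

private theorem mem_diag' {Q : ℕ} {xs as bs X D A : ℤ} {v : Tr × Tr}
    (hv : v ∈ diag Q xs as bs X D A) :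
    (X ≤ v.1.1 ∧ v.1.1 < X + D) ∧ (0 ≤ v.1.2.1 ∧ v.1.2.1 < A) ∧ (0 ≤ v.1.2.2 ∧ v.1.2.2 < A) ∧
    (0 ≤ v.2.2.1 ∧ v.2.2.1 < A) ∧ (0 ≤ v.2.2.2 ∧ v.2.2.2 < A) ∧
    U v.1.1 v.1.2.1 v.1.2.2 ^ 2 + F v.1.2.1 v.1.2.2 =
      U v.2.1 v.2.2.1 v.2.2.2 ^ 2 + F v.2.2.1 v.2.2.2 := by
  unfold diag at hv
  rw [mem_filter, mem_product, mem_box, mem_box] at hv
  obtain ⟨⟨⟨h1, h2, h3⟩, ⟨h4, h5, h6⟩⟩, h7⟩ := hv
  refine ⟨h1.1, h2.1, h3.1, h5.1, h6.1, ?_⟩
  rw [← nine_P, ← nine_P]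
  unfold PP at h7
  rw [h7]

private theorem pow4_le {a A : ℤ} (h : 0 ≤ a ∧ a < A) : 0 ≤ a ^ 4 ∧ a ^ 4 ≤ A ^ 4 :=
  ⟨by positivity, pow_le_pow_left₀ h.1 h.2.le 4⟩

private theorem F_bd {a b A : ℤ} (ha : 0 ≤ a ∧ a < A) (hb : 0 ≤ b ∧ b < A) :
    0 ≤ F a b ∧ F a b ≤ 10 * A ^ 4 := by
  have h1 := pow4_le ha
  have h2 := pow4_le hb
  unfold F
  constructor
  · nlinarith [sq_nonneg (a ^ 2 - b ^ 2), h1.1, h2.1]
  · have : 0 ≤ a ^ 2 * b ^ 2 := by positivity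
    linarith [h1.2, h2.2]

private theorem x_eq {x1 x2 a b : ℤ} (h : U x1 a b = U x2 a b) : x1 = x2 := by
  unfold U at h
  linarith

private theorem sq_inj {a b : ℤ} (ha : 0 ≤ a) (hb : 0 ≤ b) (h : a ^ 2 = b ^ 2) : a = b :=
  (pow_left_inj₀ ha hb (by norm_num)).1 h

private theorem case1 (Q : ℕ) (xs as bs X D A : ℤ) (M : ℕ)
    (hM : ∀ h : ℤ, h ≠ 0 → |h| ≤ 10 * A ^ 4 → (dvs h).card ≤ M) :
    ((diag Q xs as bs X D A).filter (fun v => F v.1.2.1 v.1.2.2 ≠ F v.2.2.1 v.2.2.2)).card ≤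
      M * ((Ico (0 : ℤ) A).card ^ 4) := by
  classical
  have key := Finset.card_le_mul_card_image_of_maps_to
    (s := (diag Q xs as bs X D A).filter (fun v => F v.1.2.1 v.1.2.2 ≠ F v.2.2.1 v.2.2.2))
    (t := (Ico (0 : ℤ) A ×ˢ Ico (0 : ℤ) A) ×ˢ (Ico (0 : ℤ) A ×ˢ Ico (0 : ℤ) A))
    (f := fun v => ((v.1.2.1, v.1.2.2), (v.2.2.1, v.2.2.2))) ?_ M ?_
  · refine key.trans (le_of_eq ?_)
    rw [card_product, card_product]
    ring
  · intro v hv
    rw [mem_filter] at hv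
    obtain ⟨h1, h2, h3, h4, h5, h6⟩ := mem_diag' hv.1
    simp only [mem_product, mem_Ico]
    exact ⟨⟨h2, h3⟩, ⟨h4, h5⟩⟩
  · rintro ⟨⟨a, b⟩, ⟨a', b'⟩⟩ hm
    simp only [mem_product, mem_Ico] at hm
    obtain ⟨⟨ha, hb⟩, ⟨ha', hb'⟩⟩ := hm
    by_cases hF : F a b = F a' b'
    · rw [Finset.card_eq_zero.mpr]
      · exact Nat.zero_le _
      · rw [Finset.filter_eq_empty_iff]
        intro v hv he
        rw [mem_filter] at hv
        simp only [Prod.mk.injEq] at he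
        obtain ⟨⟨e1, e2⟩, ⟨e3, e4⟩⟩ := he
        apply hv.2
        rw [e1, e2, e3, e4]
        exact hF
    · have hne : F a' b' - F a b ≠ 0 := by
        intro h0
        apply hF
        linarith
      have hle : |F a' b' - F a b| ≤ 10 * A ^ 4 := by
        have g1 := F_bd ha hb
        have g2 := F_bd ha' hb'
        rw [abs_le]
        constructor <;> linarith [g1.1, g1.2, g2.1, g2.2]
      refine le_trans (Finset.card_le_card_of_injOn
        (fun v => U v.1.1 v.1.2.1 v.1.2.2 - U v.2.1 v.2.2.1 v.2.2.2) ?_ ?_) (hM _ hne hle)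
      · intro v hv
        rw [mem_coe, mem_filter, mem_filter] at hv
        obtain ⟨⟨hv1, hv2⟩, he⟩ := hv
        simp only [Prod.mk.injEq] at he
        obtain ⟨⟨e1, e2⟩, ⟨e3, e4⟩⟩ := he
        obtain ⟨h1, h2, h3, h4, h5, h6⟩ := mem_diag' hv1
        refine mem_coe.mpr (mem_dvs hne ?_)
        refine ⟨U v.1.1 v.1.2.1 v.1.2.2 + U v.2.1 v.2.2.1 v.2.2.2, ?_⟩
        rw [e1, e2, e3, e4] at h6
        simp only [e1, e2, e3, e4]
        linear_combination (-1 : ℤ) * h6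
      · intro v hv w hw hvw
        rw [mem_coe, mem_filter, mem_filter] at hv hw
        obtain ⟨⟨hv1, hv2⟩, he⟩ := hv
        obtain ⟨⟨hw1, hw2⟩, hf⟩ := hw
        simp only [Prod.mk.injEq] at he hf
        obtain ⟨⟨e1, e2⟩, ⟨e3, e4⟩⟩ := he
        obtain ⟨⟨f1, f2⟩, ⟨f3, f4⟩⟩ := hf
        obtain ⟨-, -, -, -, -, h6⟩ := mem_diag' hv1
        obtain ⟨-, -, -, -, -, g6⟩ := mem_diag' hw1
        simp only at hvw
        rw [e1, e2, e3, e4] at h6 hvw
        rw [f1, f2, f3, f4] at g6 hvw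
        have k1 : (U v.1.1 a b - U v.2.1 a' b') * (U v.1.1 a b + U v.2.1 a' b') =
            F a' b' - F a b := by
          linear_combination h6
        have k2 : (U w.1.1 a b - U w.2.1 a' b') * (U w.1.1 a b + U w.2.1 a' b') =
            F a' b' - F a b := by
          linear_combination g6
        have k3 : U v.1.1 a b - U v.2.1 a' b' ≠ 0 := by
          intro h0
          rw [h0, zero_mul] at k1
          exact hne k1.symm
        have k4 : U v.1.1 a b + U v.2.1 a' b' = U w.1.1 a b + U w.2.1 a' b' := by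
          apply mul_left_cancel₀ k3
          rw [k1, hvw, k2]
        have k5 : v.1.1 = w.1.1 := by
          apply x_eq (a := a) (b := b)
          linarith
        have k6 : v.2.1 = w.2.1 := by
          apply x_eq (a := a') (b := b')
          linarith
        refine Prod.ext (Prod.ext k5 (Prod.ext ?_ ?_)) (Prod.ext k6 (Prod.ext ?_ ?_))
        · rw [e1, f1]
        · rw [e2, f2]
        · rw [e3, f3]
        · rw [e4, f4]

private theorem u_cases {u u' : ℤ} (h : u ^ 2 = u' ^ 2) : u' = u ∨ u' = -u := by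
  rcases sq_eq_sq_iff_eq_or_eq_neg.mp h.symm with h | h
  · exact Or.inl h
  · exact Or.inr h

private theorem case2 (Q : ℕ) (xs as bs X D A : ℤ) (M : ℕ)
    (hM : ∀ h : ℤ, h ≠ 0 → |h| ≤ 10 * A ^ 4 → (dvs h).card ≤ M) :
    ((diag Q xs as bs X D A).filter (fun v => F v.1.2.1 v.1.2.2 = F v.2.2.1 v.2.2.2 ∧
        v.1.2.1 ≠ v.2.2.1)).card ≤
      (M * 2) * ((Ico (0 : ℤ) A).card ^ 2 * (Ico X (X + D)).card) := by
  classical
  have key := Finset.card_le_mul_card_image_of_maps_to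
    (s := (diag Q xs as bs X D A).filter (fun v => F v.1.2.1 v.1.2.2 = F v.2.2.1 v.2.2.2 ∧
        v.1.2.1 ≠ v.2.2.1))
    (t := (Ico (0 : ℤ) A ×ˢ Ico (0 : ℤ) A) ×ˢ Ico X (X + D))
    (f := fun v => ((v.1.2.1, v.2.2.1), v.1.1)) ?_ (M * 2) ?_
  · refine key.trans (le_of_eq ?_)
    rw [card_product, card_product]
    ring
  · intro v hv
    rw [mem_filter] at hv
    obtain ⟨h1, h2, h3, h4, h5, h6⟩ := mem_diag' hv.1
    simp only [mem_product, mem_Ico]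
    exact ⟨⟨h2, h4⟩, h1⟩
  · rintro ⟨⟨a, a'⟩, x⟩ hm
    simp only [mem_product, mem_Ico] at hm
    obtain ⟨⟨ha, ha'⟩, hx⟩ := hm
    by_cases haa : a = a'
    · rw [Finset.card_eq_zero.mpr]
      · exact Nat.zero_le _
      · rw [Finset.filter_eq_empty_iff]
        intro v hv he
        rw [mem_filter] at hv
        simp only [Prod.mk.injEq] at he
        obtain ⟨⟨e1, e2⟩, e3⟩ := he
        apply hv.2.2
        rw [e1, e2]
        exact haa
    · have hne : 9 * a' ^ 4 - 9 * a ^ 4 ≠ 0 := by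
        intro h0
        apply haa
        have h1 : a ^ 4 = a' ^ 4 := by linarith
        exact (pow_left_inj₀ ha.1 ha'.1 (by norm_num)).1 h1
      have hle : |9 * a' ^ 4 - 9 * a ^ 4| ≤ 10 * A ^ 4 := by
        have g1 := pow4_le ha
        have g2 := pow4_le ha'
        rw [abs_le]
        constructor <;> linarith [g1.1, g1.2, g2.1, g2.2]
      have hcard : (dvs (9 * a' ^ 4 - 9 * a ^ 4) ×ˢ (univ : Finset Bool)).card ≤ M * 2 := by
        rw [card_product]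
        exact Nat.mul_le_mul (hM _ hne hle) (by simp)
      refine le_trans (Finset.card_le_card_of_injOn
        (fun v => ((5 * v.1.2.2 ^ 2 - 4 * v.1.2.1 ^ 2 - 5 * v.2.2.2 ^ 2 + 4 * v.2.2.1 ^ 2),
          decide (U v.2.1 v.2.2.1 v.2.2.2 = U v.1.1 v.1.2.1 v.1.2.2))) ?_ ?_) hcard
      · intro v hv
        rw [mem_coe, mem_filter, mem_filter] at hv
        obtain ⟨⟨hv1, hv2, hv3⟩, he⟩ := hv
        simp only [Prod.mk.injEq] at he
        obtain ⟨⟨e1, e2⟩, e3⟩ := he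
        refine mem_coe.mpr (mem_product.mpr ⟨mem_dvs hne ?_, mem_univ _⟩)
        rw [e1, e2] at hv2
        simp only [e1, e2]
        refine ⟨5 * v.1.2.2 ^ 2 - 4 * a ^ 2 + 5 * v.2.2.2 ^ 2 - 4 * a' ^ 2, ?_⟩
        unfold F at hv2
        linear_combination (-5 : ℤ) * hv2
      · intro v hv w hw hvw
        rw [mem_coe, mem_filter, mem_filter] at hv hw
        obtain ⟨⟨hv1, hv2, hv3⟩, he⟩ := hv
        obtain ⟨⟨hw1, hw2, hw3⟩, hf⟩ := hw
        simp only [Prod.mk.injEq] at he hf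
        obtain ⟨⟨e1, e2⟩, e3⟩ := he
        obtain ⟨⟨f1, f2⟩, f3⟩ := hf
        obtain ⟨-, -, hb, -, hb', h6⟩ := mem_diag' hv1
        obtain ⟨-, -, gb, -, gb', g6⟩ := mem_diag' hw1
        simp only [Prod.mk.injEq] at hvw
        obtain ⟨hk, hd⟩ := hvw
        rw [hv2] at h6
        rw [hw2] at g6
        rw [e1, e2] at hv2
        rw [f1, f2] at hw2
        rw [e1, e2, f1, f2] at hk
        have k1 : (5 * v.1.2.2 ^ 2 - 4 * a ^ 2 - 5 * v.2.2.2 ^ 2 + 4 * a' ^ 2) *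
            (5 * v.1.2.2 ^ 2 - 4 * a ^ 2 + 5 * v.2.2.2 ^ 2 - 4 * a' ^ 2) =
            9 * a' ^ 4 - 9 * a ^ 4 := by
          unfold F at hv2
          linear_combination (5 : ℤ) * hv2
        have k2 : (5 * w.1.2.2 ^ 2 - 4 * a ^ 2 - 5 * w.2.2.2 ^ 2 + 4 * a' ^ 2) *
            (5 * w.1.2.2 ^ 2 - 4 * a ^ 2 + 5 * w.2.2.2 ^ 2 - 4 * a' ^ 2) =
            9 * a' ^ 4 - 9 * a ^ 4 := by
          unfold F at hw2
          linear_combination (5 : ℤ) * hw2
        have k3 : (5 * v.1.2.2 ^ 2 - 4 * a ^ 2 - 5 * v.2.2.2 ^ 2 + 4 * a' ^ 2) ≠ 0 := by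
          intro h0
          rw [h0, zero_mul] at k1
          exact hne k1.symm
        have k4 : 5 * v.1.2.2 ^ 2 - 4 * a ^ 2 + 5 * v.2.2.2 ^ 2 - 4 * a' ^ 2 =
            5 * w.1.2.2 ^ 2 - 4 * a ^ 2 + 5 * w.2.2.2 ^ 2 - 4 * a' ^ 2 := by
          apply mul_left_cancel₀ k3
          rw [k1, hk, k2]
        have k5 : v.1.2.2 = w.1.2.2 := sq_inj hb.1 gb.1 (by linarith)
        have k6 : v.2.2.2 = w.2.2.2 := sq_inj hb'.1 gb'.1 (by linarith)
        have h7 : U v.1.1 v.1.2.1 v.1.2.2 ^ 2 = U v.2.1 v.2.2.1 v.2.2.2 ^ 2 := by linarith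
        have g7 : U w.1.1 w.1.2.1 w.1.2.2 ^ 2 = U w.2.1 w.2.2.1 w.2.2.2 ^ 2 := by linarith
        have hu : U v.1.1 v.1.2.1 v.1.2.2 = U w.1.1 w.1.2.1 w.1.2.2 := by
          rw [e1, e3, f1, f3, k5]
        have k7 : v.2.1 = w.2.1 := by
          have hd' : (U v.2.1 v.2.2.1 v.2.2.2 = U v.1.1 v.1.2.1 v.1.2.2) ↔
              (U w.2.1 w.2.2.1 w.2.2.2 = U w.1.1 w.1.2.1 w.1.2.2) := by
            simpa using hd
          have hx' : U v.2.1 v.2.2.1 v.2.2.2 = U w.2.1 w.2.2.1 w.2.2.2 := by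
            by_cases c : U v.2.1 v.2.2.1 v.2.2.2 = U v.1.1 v.1.2.1 v.1.2.2
            · rw [hd'.mp c, c, hu]
            · have c' : ¬ (U w.2.1 w.2.2.1 w.2.2.2 = U w.1.1 w.1.2.1 w.1.2.2) :=
                fun h => c (hd'.mpr h)
              rcases u_cases h7 with h | h
              · exact absurd h c
              · rcases u_cases g7 with g | g
                · exact absurd g c'
                · rw [h, g, hu]
          rw [e2, f2, k6] at hx'
          exact x_eq hx'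
        refine Prod.ext (Prod.ext ?_ (Prod.ext ?_ k5)) (Prod.ext k7 (Prod.ext ?_ k6))
        · rw [e3, f3]
        · rw [e1, f1]
        · rw [e2, f2]

private theorem case3 (Q : ℕ) (xs as bs X D A : ℤ) :
    ((diag Q xs as bs X D A).filter (fun v => F v.1.2.1 v.1.2.2 = F v.2.2.1 v.2.2.2 ∧
        v.1.2.1 = v.2.2.1)).card ≤
      4 * ((Ico (0 : ℤ) A).card ^ 2 * (Ico X (X + D)).card) := by
  classical
  have key := Finset.card_le_mul_card_image_of_maps_to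
    (s := (diag Q xs as bs X D A).filter (fun v => F v.1.2.1 v.1.2.2 = F v.2.2.1 v.2.2.2 ∧
        v.1.2.1 = v.2.2.1))
    (t := (Ico (0 : ℤ) A ×ˢ Ico (0 : ℤ) A) ×ˢ Ico X (X + D))
    (f := fun v => ((v.1.2.1, v.1.2.2), v.1.1)) ?_ 4 ?_
  · refine key.trans (le_of_eq ?_)
    rw [card_product, card_product]
    ring
  · intro v hv
    rw [mem_filter] at hv
    obtain ⟨h1, h2, h3, h4, h5, h6⟩ := mem_diag' hv.1
    simp only [mem_product, mem_Ico]
    exact ⟨⟨h2, h3⟩, h1⟩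
  · rintro ⟨⟨a, b⟩, x⟩ hm
    have hcard : ((univ : Finset Bool) ×ˢ (univ : Finset Bool)).card ≤ 4 := by
      rw [card_product]
      simp
    refine le_trans (Finset.card_le_card_of_injOn
      (fun v => (decide (5 * v.2.2.2 ^ 2 - 4 * v.1.2.1 ^ 2 = 5 * v.1.2.2 ^ 2 - 4 * v.1.2.1 ^ 2),
        decide (U v.2.1 v.2.2.1 v.2.2.2 = U v.1.1 v.1.2.1 v.1.2.2))) ?_ ?_) hcard
    · intro v hv
      exact mem_coe.mpr (mem_product.mpr ⟨mem_univ _, mem_univ _⟩)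
    · intro v hv w hw hvw
      rw [mem_coe, mem_filter, mem_filter] at hv hw
      obtain ⟨⟨hv1, hv2, hv3⟩, he⟩ := hv
      obtain ⟨⟨hw1, hw2, hw3⟩, hf⟩ := hw
      simp only [Prod.mk.injEq] at he hf
      obtain ⟨⟨e1, e2⟩, e3⟩ := he
      obtain ⟨⟨f1, f2⟩, f3⟩ := hf
      obtain ⟨-, -, hb, -, hb', h6⟩ := mem_diag' hv1
      obtain ⟨-, -, gb, -, gb', g6⟩ := mem_diag' hw1
      simp only [Prod.mk.injEq] at hvw
      obtain ⟨hk, hd⟩ := hvw
      rw [hv2] at h6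
      rw [hw2] at g6
      rw [← hv3, e1, e2] at hv2
      rw [← hw3, f1, f2] at hw2
      rw [e1, e2, f1, f2] at hk
      have k1 : (5 * b ^ 2 - 4 * a ^ 2) ^ 2 = (5 * v.2.2.2 ^ 2 - 4 * a ^ 2) ^ 2 := by
        unfold F at hv2
        linear_combination (5 : ℤ) * hv2
      have k2 : (5 * b ^ 2 - 4 * a ^ 2) ^ 2 = (5 * w.2.2.2 ^ 2 - 4 * a ^ 2) ^ 2 := by
        unfold F at hw2
        linear_combination (5 : ℤ) * hw2
      have hk' : (5 * v.2.2.2 ^ 2 - 4 * a ^ 2 = 5 * b ^ 2 - 4 * a ^ 2) ↔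
          (5 * w.2.2.2 ^ 2 - 4 * a ^ 2 = 5 * b ^ 2 - 4 * a ^ 2) := by
        rw [decide_eq_decide] at hk
        exact hk
      have k6 : v.2.2.2 = w.2.2.2 := by
        have hx' : 5 * v.2.2.2 ^ 2 - 4 * a ^ 2 = 5 * w.2.2.2 ^ 2 - 4 * a ^ 2 := by
          by_cases c : 5 * v.2.2.2 ^ 2 - 4 * a ^ 2 = 5 * b ^ 2 - 4 * a ^ 2
          · rw [hk'.mp c, c]
          · have c' : ¬ (5 * w.2.2.2 ^ 2 - 4 * a ^ 2 = 5 * b ^ 2 - 4 * a ^ 2) :=
              fun h => c (hk'.mpr h)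
            rcases u_cases k1 with h | h
            · exact absurd h c
            · rcases u_cases k2 with g | g
              · exact absurd g c'
              · rw [h, g]
        exact sq_inj hb'.1 gb'.1 (by linarith)
      have h7 : U v.1.1 v.1.2.1 v.1.2.2 ^ 2 = U v.2.1 v.2.2.1 v.2.2.2 ^ 2 := by linarith
      have g7 : U w.1.1 w.1.2.1 w.1.2.2 ^ 2 = U w.2.1 w.2.2.1 w.2.2.2 ^ 2 := by linarith
      have hu : U v.1.1 v.1.2.1 v.1.2.2 = U w.1.1 w.1.2.1 w.1.2.2 := by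
        rw [e1, e2, e3, f1, f2, f3]
      have k7 : v.2.1 = w.2.1 := by
        have hd' : (U v.2.1 v.2.2.1 v.2.2.2 = U v.1.1 v.1.2.1 v.1.2.2) ↔
            (U w.2.1 w.2.2.1 w.2.2.2 = U w.1.1 w.1.2.1 w.1.2.2) := by
          rw [decide_eq_decide] at hd
          exact hd
        have hx' : U v.2.1 v.2.2.1 v.2.2.2 = U w.2.1 w.2.2.1 w.2.2.2 := by
          by_cases c : U v.2.1 v.2.2.1 v.2.2.2 = U v.1.1 v.1.2.1 v.1.2.2
          · rw [hd'.mp c, c, hu]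
          · have c' : ¬ (U w.2.1 w.2.2.1 w.2.2.2 = U w.1.1 w.1.2.1 w.1.2.2) :=
              fun h => c (hd'.mpr h)
            rcases u_cases h7 with h | h
            · exact absurd h c
            · rcases u_cases g7 with g | g
              · exact absurd g c'
              · rw [h, g, hu]
        rw [← hv3, ← hw3, e1, f1, k6] at hx'
        exact x_eq hx'
      refine Prod.ext (Prod.ext ?_ (Prod.ext ?_ ?_)) (Prod.ext k7 (Prod.ext ?_ k6))
      · rw [e3, f3]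
      · rw [e1, f1]
      · rw [e2, f2]
      · rw [← hv3, ← hw3, e1, f1]

theorem diag_le : ∃ C : ℕ, ∀ (Q : ℕ) (xs as bs X D A : ℤ) (Z : ℕ), 1 ≤ Z → 0 ≤ D → 0 ≤ A →
    D ≤ (Z : ℤ) ^ 18 → A ≤ (Z : ℤ) ^ 9 → (diag Q xs as bs X D A).card ≤ C * Z ^ 39 := by
  obtain ⟨C1, hC1⟩ := tau_bd
  refine ⟨6 * C1 + 4, ?_⟩
  intro Q xs as bs X D A Z hZ hD hA hDZ hAZ
  classical
  have hA4 : A ^ 4 ≤ (Z : ℤ) ^ 36 := by
    calc A ^ 4 ≤ ((Z : ℤ) ^ 9) ^ 4 := pow_le_pow_left₀ hA hAZ 4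
      _ = (Z : ℤ) ^ 36 := by ring
  have hdv : ∀ h : ℤ, h ≠ 0 → |h| ≤ 10 * A ^ 4 → (dvs h).card ≤ 2 * (C1 * Z ^ 3) := by
    intro h hne hle
    refine (fact_card h hne).trans ?_
    refine Nat.mul_le_mul_left 2 (hC1 Z h.natAbs hZ (Int.natAbs_pos.mpr hne) ?_)
    have h1 : ((h.natAbs : ℕ) : ℤ) ≤ 100 * (Z : ℤ) ^ 36 := by
      rw [Int.natCast_natAbs]
      have : (0 : ℤ) ≤ (Z : ℤ) ^ 36 := by positivity
      linarith
    exact_mod_cast h1
  -- the numbers of values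
  have hAc : (Ico (0 : ℤ) A).card ≤ Z ^ 9 := by
    rw [Int.card_Ico]
    have : (A - 0).toNat ≤ Z ^ 9 := by
      rw [Int.toNat_le]
      push_cast
      linarith
    exact this
  have hDc : (Ico X (X + D)).card ≤ Z ^ 18 := by
    rw [Int.card_Ico]
    have : (X + D - X).toNat ≤ Z ^ 18 := by
      rw [Int.toNat_le]
      push_cast
      linarith
    exact this
  have h1 := case1 Q xs as bs X D A (2 * (C1 * Z ^ 3)) hdv
  have h2 := case2 Q xs as bs X D A (2 * (C1 * Z ^ 3)) hdv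
  have h3 := case3 Q xs as bs X D A
  have hsplit : (diag Q xs as bs X D A).card ≤
      ((diag Q xs as bs X D A).filter (fun v => F v.1.2.1 v.1.2.2 ≠ F v.2.2.1 v.2.2.2)).card +
      (((diag Q xs as bs X D A).filter (fun v => F v.1.2.1 v.1.2.2 = F v.2.2.1 v.2.2.2 ∧
        v.1.2.1 ≠ v.2.2.1)).card +
      ((diag Q xs as bs X D A).filter (fun v => F v.1.2.1 v.1.2.2 = F v.2.2.1 v.2.2.2 ∧
        v.1.2.1 = v.2.2.1)).card) := by
    refine le_trans (card_le_card ?_) ((card_union_le _ _).trans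
      (Nat.add_le_add_left (card_union_le _ _) _))
    intro v hv
    simp only [mem_union, mem_filter]
    by_cases e1 : F v.1.2.1 v.1.2.2 = F v.2.2.1 v.2.2.2
    · by_cases e2 : v.1.2.1 = v.2.2.1
      · exact Or.inr (Or.inr ⟨hv, e1, e2⟩)
      · exact Or.inr (Or.inl ⟨hv, e1, e2⟩)
    · exact Or.inl ⟨hv, e1⟩
  have k1 : (2 * (C1 * Z ^ 3)) * ((Ico (0 : ℤ) A).card ^ 4) ≤ 2 * C1 * Z ^ 39 := by
    calc (2 * (C1 * Z ^ 3)) * ((Ico (0 : ℤ) A).card ^ 4)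
        ≤ (2 * (C1 * Z ^ 3)) * ((Z ^ 9) ^ 4) := by gcongr
      _ = 2 * C1 * Z ^ 39 := by ring
  have k2 : (2 * (C1 * Z ^ 3) * 2) * ((Ico (0 : ℤ) A).card ^ 2 * (Ico X (X + D)).card) ≤
      4 * C1 * Z ^ 39 := by
    calc (2 * (C1 * Z ^ 3) * 2) * ((Ico (0 : ℤ) A).card ^ 2 * (Ico X (X + D)).card)
        ≤ (2 * (C1 * Z ^ 3) * 2) * ((Z ^ 9) ^ 2 * Z ^ 18) := by gcongr
      _ = 4 * C1 * Z ^ 39 := by ring
  have k3 : 4 * ((Ico (0 : ℤ) A).card ^ 2 * (Ico X (X + D)).card) ≤ 4 * Z ^ 39 := by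
    calc 4 * ((Ico (0 : ℤ) A).card ^ 2 * (Ico X (X + D)).card)
        ≤ 4 * ((Z ^ 9) ^ 2 * Z ^ 18) := by gcongr
      _ = 4 * Z ^ 36 := by ring
      _ ≤ 4 * Z ^ 39 := Nat.mul_le_mul_left 4 (Nat.pow_le_pow_right hZ (by norm_num))
  calc (diag Q xs as bs X D A).card ≤ 2 * C1 * Z ^ 39 + (4 * C1 * Z ^ 39 + 4 * Z ^ 39) :=
        hsplit.trans (Nat.add_le_add (h1.trans k1) (Nat.add_le_add (h2.trans k2) (h3.trans k3)))
    _ = (6 * C1 + 4) * Z ^ 39 := by ring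

end FSQ
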