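import Pool.Agent.FSQ.Off
import Pool.Agent.FSQ.Coll
import Pool.Agent.FSQ.Diag

/-!
# FSQ-Asm: the number of collisions for large parameters
-/

namespace FSQ

open Finset

/-- the constant of the second moment -/
noncomputable def Gam (k L : ℕ) : ℝ :=
  1 / (k : ℝ) + (1 + 1 / (k : ℝ)) ^ 10 / (1 - 1 / (k : ℝ)) * Real.exp (8 / L)

theorem PP_le_box {Q : ℕ} {xs as bs X D A : ℤ} (hX : 0 ≤ X) {u : Tr}
    (hu : u ∈ box Q xs as bs X D A) : PP u ≤ 9 * (X + D) ^ 2 + 2 * A ^ 4 := by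
  rw [mem_box] at hu
  obtain ⟨⟨⟨h1, h2⟩, -⟩, ⟨⟨h3, h4⟩, -⟩, ⟨⟨h5, h6⟩, -⟩⟩ := hu
  obtain ⟨x, a, b⟩ := u
  simp only at h1 h2 h3 h4 h5 h6
  simp only [PP, P]
  have hx : 0 ≤ x := hX.trans h1
  have ha : a ^ 4 ≤ A ^ 4 := pow_le_pow_left₀ h3 h4.le 4
  have hb : b ^ 4 ≤ A ^ 4 := pow_le_pow_left₀ h5 h6.le 4
  have hx2 : x ^ 2 ≤ (X + D) ^ 2 := pow_le_pow_left₀ hx h2.le 2
  have h7 : 0 ≤ (a ^ 2 + b ^ 2) * x := by positivity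
  nlinarith

/-- the size of the scale from which on the estimates hold -/
def zz (C k Q : ℕ) : ℕ := 160 * k ^ 4 + 54 * Q * k ^ 3 + 4 * C * k ^ 5 * Q ^ 7 + 1

theorem coll_asym : ∃ C : ℕ, ∀ {Q g : ℕ} {ws xs as bs : ℤ} (_ : Cls Q g ws xs as bs) {L : ℕ}
    (_ : 0 < L) (_ : ∀ p : ℕ, p.Prime → p ≤ L → p ∣ Q) {k : ℕ} (_ : 2 ≤ k)
    (Z W : ℕ), zz C k Q ≤ Z → k * Q ∣ Z → Z ^ 32 ≤ W → W ≤ 2 * Z ^ 32 →
      ∃ X D A E0 : ℤ, Par Q k X D A W (W / k : ℕ) E0 ∧ (Q : ℤ) ∣ D ∧ (Q : ℤ) ∣ A ∧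
        ((coll Q ws xs as bs X D A W (W / k : ℕ)).card : ℝ) ≤
          Gam k L * (g * (W / k : ℕ) * (D : ℝ) ^ 2 * (A : ℝ) ^ 4 / ((Q : ℝ) ^ 7 * W)) := by
  obtain ⟨C, hC⟩ := diag_le
  refine ⟨C, fun {Q g ws xs as bs} c {L} hL hQL {k} hk Z W hZ hdvd hW1 hW2 => ?_⟩
  rw [zz] at hZ
  obtain ⟨m, hm⟩ := hdvd
  have hQ0 := c.Q0
  have hk0 : 0 < k := by omega
  have hZ1 : 160 * k ^ 4 ≤ Z := by omega
  have hZ2 : 54 * Q * k ^ 3 ≤ Z := by omega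
  have hZ3 : 4 * C * k ^ 5 * Q ^ 7 ≤ Z := by omega
  have hZ0 : 1 ≤ Z := by omega
  obtain ⟨H, hH⟩ : ∃ H, H = W / k := ⟨_, rfl⟩
  rw [← hH]
  have hkH : k * H ≤ W := by
    rw [hH]
    exact Nat.mul_div_le W k
  have hkH' : W < k * (H + 1) := by
    rw [hH]
    exact Nat.lt_mul_div_succ W hk0
  have hZp : ∀ i : ℕ, i ≤ 31 → Z ^ i * Z ≤ Z ^ 32 := by
    intro i hi
    rw [← pow_succ]
    exact Nat.pow_le_pow_right hZ0 (by omega)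
  have hkZ : k ≤ Z := by
    have h1 : k ≤ 160 * k ^ 4 := by
      have : k ≤ k ^ 4 := Nat.le_self_pow (by norm_num) k
      omega
    omega
  have hH0 : 0 < H := by
    by_contra h0
    have h1 : H = 0 := by omega
    rw [h1] at hkH'
    have h2 := hZp 0 (by norm_num)
    rw [pow_zero, one_mul] at h2
    omega
  have h2kH : W ≤ 2 * k * H := by
    have h1 : k * (H + 1) ≤ k * (2 * H) := Nat.mul_le_mul_left k (by omega)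
    have h2 : k * (2 * H) = 2 * k * H := by ring
    omega
  obtain ⟨A, hA⟩ : ∃ A : ℕ, A = Q * m * Z ^ 8 := ⟨_, rfl⟩
  have hkA : k * A = Z ^ 9 := by
    calc k * A = (k * Q * m) * Z ^ 8 := by rw [hA]; ring
      _ = Z * Z ^ 8 := by rw [← hm]
      _ = Z ^ 9 := by ring
  have hA0 : 0 < A := by
    rcases Nat.eq_zero_or_pos A with h0 | h0
    · rw [h0, mul_zero] at hkA
      have := Nat.pos_of_ne_zero (pow_ne_zero 9 (by omega : Z ≠ 0))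
      omega
    · exact h0
  have hAZ : A ≤ Z ^ 9 := by
    rw [← hkA]
    exact Nat.le_mul_of_pos_left A hk0
  have hQZ : Q ∣ Z := ⟨k * m, by rw [hm]; ring⟩
  -- natural number inequalities
  have n1 : 2 * (40 * k ^ 2 * Z ^ 4) * k ≤ H := by
    have h1 : 2 * k * (2 * (40 * k ^ 2 * Z ^ 4) * k) ≤ 2 * k * H := by
      calc 2 * k * (2 * (40 * k ^ 2 * Z ^ 4) * k) = 160 * k ^ 4 * Z ^ 4 := by ring
        _ ≤ Z * Z ^ 4 := Nat.mul_le_mul_right _ hZ1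
        _ = Z ^ 4 * Z := by ring
        _ ≤ Z ^ 32 := hZp 4 (by norm_num)
        _ ≤ W := hW1
        _ ≤ 2 * k * H := h2kH
    exact Nat.le_of_mul_le_mul_left h1 (by positivity)
  have n2 : 2 * Q * k ≤ H := by
    have h1 : 2 * k * (2 * Q * k) ≤ 2 * k * H := by
      calc 2 * k * (2 * Q * k) = 4 * Q * k ^ 2 := by ring
        _ ≤ 54 * Q * k ^ 3 := by
          have h2 : k ^ 2 ≤ k ^ 3 := Nat.pow_le_pow_right hk0 (by norm_num)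
          calc 4 * Q * k ^ 2 ≤ 54 * Q * k ^ 2 := by gcongr; norm_num
            _ ≤ 54 * Q * k ^ 3 := by gcongr
        _ ≤ Z := hZ2
        _ = Z ^ 0 * Z := by ring
        _ ≤ Z ^ 32 := hZp 0 (by norm_num)
        _ ≤ W := hW1
        _ ≤ 2 * k * H := h2kH
    exact Nat.le_of_mul_le_mul_left h1 (by positivity)
  have n3 : 9 * (k * Z ^ 18 + Z ^ 18) ^ 2 + 2 * A ^ 4 ≤ 40 * k ^ 2 * Z ^ 4 * W := by
    have h1 : A ^ 4 ≤ Z ^ 36 := by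
      calc A ^ 4 ≤ (Z ^ 9) ^ 4 := Nat.pow_le_pow_left hAZ 4
        _ = Z ^ 36 := by ring
    have h2 : 9 * (k + 1) ^ 2 + 2 ≤ 40 * k ^ 2 := by nlinarith
    calc 9 * (k * Z ^ 18 + Z ^ 18) ^ 2 + 2 * A ^ 4 = 9 * (k + 1) ^ 2 * Z ^ 36 + 2 * A ^ 4 := by ring
      _ ≤ 9 * (k + 1) ^ 2 * Z ^ 36 + 2 * Z ^ 36 := by omega
      _ = (9 * (k + 1) ^ 2 + 2) * Z ^ 36 := by ring
      _ ≤ 40 * k ^ 2 * Z ^ 36 := Nat.mul_le_mul_right _ h2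
      _ = 40 * k ^ 2 * Z ^ 4 * Z ^ 32 := by ring
      _ ≤ 40 * k ^ 2 * Z ^ 4 * W := Nat.mul_le_mul_left _ hW1
  have n4 : 2 * Q * (18 * (k + 1) * (Z ^ 18) ^ 2) * k ≤ A * W := by
    have h1 : k * (2 * Q * (18 * (k + 1) * (Z ^ 18) ^ 2) * k) ≤ k * (A * W) := by
      calc k * (2 * Q * (18 * (k + 1) * (Z ^ 18) ^ 2) * k) =
          36 * Q * k ^ 2 * (k + 1) * Z ^ 36 := by ring
        _ ≤ 36 * Q * k ^ 2 * (3 * k) * Z ^ 36 := by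
          gcongr
          omega
        _ = 2 * (54 * Q * k ^ 3) * Z ^ 36 := by ring
        _ ≤ 2 * Z * Z ^ 36 := by gcongr
        _ ≤ Z * Z * Z ^ 36 := by
          have : 2 ≤ Z := by omega
          gcongr
        _ = Z ^ 38 := by ring
        _ ≤ Z ^ 41 := Nat.pow_le_pow_right hZ0 (by norm_num)
        _ = Z ^ 9 * Z ^ 32 := by ring
        _ ≤ Z ^ 9 * W := Nat.mul_le_mul_left _ hW1
        _ = k * (A * W) := by rw [← hkA]; ring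
    exact Nat.le_of_mul_le_mul_left h1 hk0
  have n5 : 18 * (k * Z ^ 18) * (2 * Q) * k ≤ 2 * H := by
    have h1 : k * (18 * (k * Z ^ 18) * (2 * Q) * k) ≤ k * (2 * H) := by
      calc k * (18 * (k * Z ^ 18) * (2 * Q) * k) = 36 * Q * k ^ 3 * Z ^ 18 := by ring
        _ ≤ 54 * Q * k ^ 3 * Z ^ 18 := by gcongr; norm_num
        _ ≤ Z * Z ^ 18 := Nat.mul_le_mul_right _ hZ2
        _ = Z ^ 18 * Z := by ring
        _ ≤ Z ^ 32 := hZp 18 (by norm_num)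
        _ ≤ W := hW1
        _ ≤ k * (2 * H) := by
          calc W ≤ 2 * k * H := h2kH
            _ = k * (2 * H) := by ring
    exact Nat.le_of_mul_le_mul_left h1 hk0
  have n6 : 2 * (40 * k ^ 2 * Z ^ 4) ≤ W := by
    calc 2 * (40 * k ^ 2 * Z ^ 4) ≤ 2 * (40 * k ^ 2 * Z ^ 4) * k := Nat.le_mul_of_pos_right _ hk0
      _ ≤ H := n1
      _ ≤ k * H := Nat.le_mul_of_pos_left _ hk0
      _ ≤ W := hkH
  have hD : ((Z ^ 18 : ℕ) : ℤ) = ((k : ℤ) * (A : ℤ)) ^ 2 := by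
    have : ((k : ℤ) * (A : ℤ)) = (Z : ℤ) ^ 9 := by exact_mod_cast hkA
    rw [this]
    push_cast
    ring
  have hAz : (0 : ℤ) < (A : ℤ) := by exact_mod_cast hA0
  have hX : ((k * Z ^ 18 : ℕ) : ℤ) = k * ((Z ^ 18 : ℕ) : ℤ) := by push_cast; ring
  have hcc := cc_le_aux hk hX hD hAz
  have hpar : Par Q k ((k * Z ^ 18 : ℕ) : ℤ) ((Z ^ 18 : ℕ) : ℤ) (A : ℤ) (W : ℤ) (H : ℤ)
      ((40 * k ^ 2 * Z ^ 4 : ℕ) : ℤ) := by
    refine ⟨hk, hX, hD, hAz, ?_, by exact_mod_cast hH0, by positivity, by exact_mod_cast hkH,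
      by exact_mod_cast n1, by exact_mod_cast n2, by exact_mod_cast n3, ?_, ?_⟩
    · have : 0 < Z ^ 32 := by positivity
      exact_mod_cast lt_of_lt_of_le this hW1
    · have h1 : 2 * (Q : ℤ) * (18 * (k + 1) * ((Z ^ 18 : ℕ) : ℤ) ^ 2) * k ≤ A * W := by
        exact_mod_cast n4
      have h2 : 2 * (Q : ℤ) * cc ((k * Z ^ 18 : ℕ) : ℤ) ((Z ^ 18 : ℕ) : ℤ) (A : ℤ) * k ≤
          2 * (Q : ℤ) * (18 * (k + 1) * ((Z ^ 18 : ℕ) : ℤ) ^ 2) * k := by gcongr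
      have h3 : (W : ℤ) ≤ 2 * ((W : ℤ) - ((40 * k ^ 2 * Z ^ 4 : ℕ) : ℤ)) := by
        have : ((2 * (40 * k ^ 2 * Z ^ 4) : ℕ) : ℤ) ≤ W := by exact_mod_cast n6
        push_cast at this ⊢
        linarith
      exact h2.trans (h1.trans (mul_le_mul_of_nonneg_left h3 hAz.le))
    · have h1 : 18 * ((k * Z ^ 18 : ℕ) : ℤ) * (2 * Q) * k ≤ 2 * H := by exact_mod_cast n5
      have h2 : (0 : ℤ) ≤ ((40 * k ^ 2 * Z ^ 4 : ℕ) : ℤ) := by positivity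
      linarith
  refine ⟨_, _, _, _, hpar, ?_, ?_, ?_⟩
  · have : Q ∣ Z ^ 18 := hQZ.trans (dvd_pow_self Z (by norm_num))
    exact_mod_cast this
  · have : Q ∣ A := by
      rw [hA]
      exact ⟨m * Z ^ 8, by ring⟩
    exact_mod_cast this
  · have hEH := hpar.four
    have hH2 := hpar.two
    have hMb : ∀ u ∈ box Q xs as bs ((k * Z ^ 18 : ℕ) : ℤ) ((Z ^ 18 : ℕ) : ℤ) (A : ℤ),
        PP u ≤ ((40 * k ^ 2 * Z ^ 4 : ℕ) : ℤ) * W := fun u hu =>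
      (PP_le_box (by positivity) hu).trans hpar.hM
    have h1 := coll_le (ws := ws) hQ0 hpar.hE (by linarith [hpar.hH]) hpar.hH.le hMb
    have h2 := off_sum c hL hQL hpar ((H : ℤ) + ((40 * k ^ 2 * Z ^ 4 : ℕ) : ℤ)).toNat
    have h3 := hC Q xs as bs ((k * Z ^ 18 : ℕ) : ℤ) ((Z ^ 18 : ℕ) : ℤ) (A : ℤ) Z hZ0
      (by positivity) hAz.le (by push_cast; exact le_refl _) (by exact_mod_cast hAZ)
    have hto : ((H : ℤ) + ((40 * k ^ 2 * Z ^ 4 : ℕ) : ℤ)).toNat ≤ 2 * H := by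
      have : ((H : ℤ) + ((40 * k ^ 2 * Z ^ 4 : ℕ) : ℤ)) ≤ ((2 * H : ℕ) : ℤ) := by
        push_cast at hEH ⊢
        linarith
      exact Int.toNat_le.2 this
    have h4 : ((coll Q ws xs as bs ((k * Z ^ 18 : ℕ) : ℤ) ((Z ^ 18 : ℕ) : ℤ) (A : ℤ) W
        (H : ℤ)).card : ℝ) ≤ ((2 * H * (C * Z ^ 39) : ℕ) : ℝ) +
        (1 + 1 / (k : ℝ)) ^ 10 / (1 - 1 / (k : ℝ)) * Real.exp (8 / L) *
        (g * (H : ℤ) * (((Z ^ 18 : ℕ) : ℤ) : ℝ) ^ 2 * ((A : ℤ) : ℝ) ^ 4 /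
          ((Q : ℝ) ^ 7 * ((W : ℤ) : ℝ))) := by
      have h5 := Nat.mul_le_mul hto h3
      have h6 : ((coll Q ws xs as bs ((k * Z ^ 18 : ℕ) : ℤ) ((Z ^ 18 : ℕ) : ℤ) (A : ℤ) W
        (H : ℤ)).card : ℝ) ≤ ((2 * H * (C * Z ^ 39) : ℕ) : ℝ) + 2 * ∑ ι ∈ Icc 1
          ((H : ℤ) + ((40 * k ^ 2 * Z ^ 4 : ℕ) : ℤ)).toNat,
          ((offd Q ws xs as bs ((k * Z ^ 18 : ℕ) : ℤ) ((Z ^ 18 : ℕ) : ℤ) (A : ℤ)
            (2 * ((W : ℤ) - ((40 * k ^ 2 * Z ^ 4 : ℕ) : ℤ)))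
            (2 * ((H : ℤ) + ((40 * k ^ 2 * Z ^ 4 : ℕ) : ℤ))) (Q * ι)).card : ℝ) := by
        have h7 := h1.trans (Nat.add_le_add_right h5 _)
        exact_mod_cast h7
      exact h6.trans (add_le_add_right h2 _)
    refine h4.trans ?_
    rw [Gam, add_mul]
    have hR : ((2 * H * (C * Z ^ 39) : ℕ) : ℝ) ≤ 1 / (k : ℝ) * ((g : ℝ) * (H : ℝ) *
        (((Z ^ 18 : ℕ) : ℤ) : ℝ) ^ 2 * ((A : ℤ) : ℝ) ^ 4 / ((Q : ℝ) ^ 7 * (W : ℝ))) := by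
      have hkR : (0 : ℝ) < k := by exact_mod_cast hk0
      have hQR : (0 : ℝ) < Q := by exact_mod_cast hQ0
      have hZR : (1 : ℝ) ≤ Z := by exact_mod_cast hZ0
      have hWR : (0 : ℝ) < W := by exact_mod_cast hpar.hW
      have hWR2 : (W : ℝ) ≤ 2 * (Z : ℝ) ^ 32 := by exact_mod_cast hW2
      have hg1 : (1 : ℝ) ≤ g := by
        rcases c.hg with h | h <;> rw [h] <;> norm_num
      have hA4 : (k : ℝ) ^ 4 * (A : ℝ) ^ 4 = (Z : ℝ) ^ 36 := by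
        rw [← mul_pow]
        have : (k : ℝ) * (A : ℝ) = (Z : ℝ) ^ 9 := by exact_mod_cast hkA
        rw [this]
        ring
      have hZR3 : 4 * (C : ℝ) * (k : ℝ) ^ 5 * (Q : ℝ) ^ 7 ≤ Z := by exact_mod_cast hZ3
      rw [one_div, inv_mul_eq_div, div_div, le_div_iff₀ (by positivity)]
      push_cast
      have e1 : (2 * (H : ℝ) * (C * (Z : ℝ) ^ 39)) * ((Q : ℝ) ^ 7 * W * k) ≤
          (2 * (H : ℝ) * (C * (Z : ℝ) ^ 39)) * ((Q : ℝ) ^ 7 * (2 * (Z : ℝ) ^ 32) * k) := by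
        gcongr
      refine e1.trans ?_
      have e2 : (2 * (H : ℝ) * (C * (Z : ℝ) ^ 39)) * ((Q : ℝ) ^ 7 * (2 * (Z : ℝ) ^ 32) * k) *
          (k : ℝ) ^ 4 ≤ (g : ℝ) * H * ((Z : ℝ) ^ 18) ^ 2 * (A : ℝ) ^ 4 * (k : ℝ) ^ 4 := by
        calc (2 * (H : ℝ) * (C * (Z : ℝ) ^ 39)) * ((Q : ℝ) ^ 7 * (2 * (Z : ℝ) ^ 32) * k) *
            (k : ℝ) ^ 4 = (4 * (C : ℝ) * (k : ℝ) ^ 5 * (Q : ℝ) ^ 7) * (H * (Z : ℝ) ^ 71) := by
              ring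
          _ ≤ Z * (H * (Z : ℝ) ^ 71) := by gcongr
          _ = 1 * (H * (Z : ℝ) ^ 72) := by ring
          _ ≤ g * (H * (Z : ℝ) ^ 72) := by gcongr
          _ = (g : ℝ) * H * ((Z : ℝ) ^ 18) ^ 2 * ((k : ℝ) ^ 4 * (A : ℝ) ^ 4) := by
              rw [hA4]
              ring
          _ = _ := by ring
      exact le_of_mul_le_mul_right e2 (by positivity)
    exact add_le_add_left hR _

end FSQ
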