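import Mathlib

/-!
# FSQ: four squares with `2x+y` and `2x+z` squares (MP_b17637_nt): definitions

Paper proof: `/team-store/fsq_proof.md`.
-/

namespace FSQ

open Finset

/-- `x² + (a² - 2x)² + (b² - 2x)² = 9x² - 4(a²+b²)x + a⁴ + b⁴` -/
def P {R : Type} [CommRing R] (x a b : R) : R :=
  x ^ 2 + (a ^ 2 - 2 * x) ^ 2 + (b ^ 2 - 2 * x) ^ 2

/-- half of the derivative of `P` with respect to `x` -/
def U {R : Type} [CommRing R] (x a b : R) : R := 9 * x - 2 * (a ^ 2 + b ^ 2)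

/-- `9 P = U² + F` -/
def F {R : Type} [CommRing R] (a b : R) : R := 5 * a ^ 4 - 8 * a ^ 2 * b ^ 2 + 5 * b ^ 4

theorem nine_P {R : Type} [CommRing R] (x a b : R) : 9 * P x a b = U x a b ^ 2 + F a b := by
  unfold P U F
  ring

theorem P_sub {R : Type} [CommRing R] (x1 x2 a b : R) :
    P x1 a b - P x2 a b = (x1 - x2) * (9 * (x1 + x2) - 4 * (a ^ 2 + b ^ 2)) := by
  unfold P
  ring

/-- `n` has an admissible quadruple -/
def Adm (n : ℕ) : Prop :=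
  ∃ x y z w : ℤ, 0 < w ∧ (n : ℤ) = x ^ 2 + y ^ 2 + z ^ 2 + w ^ 2 ∧
    IsSquare (2 * x + y) ∧ IsSquare (2 * x + z)

theorem adm_of {n : ℕ} {w x a b : ℤ} (hw : 0 < w) (h : (n : ℤ) = w ^ 2 + P x a b) : Adm n := by
  refine ⟨x, a ^ 2 - 2 * x, b ^ 2 - 2 * x, w, hw, ?_, ⟨a, by ring⟩, ⟨b, by ring⟩⟩
  rw [h]
  unfold P
  ring

/-- class data modulo `Q` -/
structure Cls (Q g : ℕ) (ws xs as bs : ℤ) : Prop where
  hg : g = 1 ∨ g = 2
  Q0 : 0 < Q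
  Q120 : 120 ∣ Q
  gw : (g : ℤ) ∣ ws
  gx : (g : ℤ) ∣ xs
  cop : ∃ V : ℤ, U xs as bs = g * V ∧ IsCoprime V (Q : ℤ)

/-- the integers of `[lo, hi)` in the class of `r` modulo `Q` -/
noncomputable def res (Q : ℕ) (r lo hi : ℤ) : Finset ℤ := (Ico lo hi).filter (fun x => x ≡ r [ZMOD Q])

/-- triples `(x, a, b)` -/
abbrev Tr := ℤ × ℤ × ℤ

def PP (u : Tr) : ℤ := P u.1 u.2.1 u.2.2

/-- the triples with `X ≤ x < X + D`, `0 ≤ a, b < A` in the class modulo `Q` -/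
noncomputable def box (Q : ℕ) (xs as bs X D A : ℤ) : Finset Tr :=
  res Q xs X (X + D) ×ˢ (res Q as 0 A ×ˢ res Q bs 0 A)

/-- pairs of triples modulo `q` (representatives in `[0, q)`) in the class modulo `Q`, with
`P(u') - P(u) ≡ k` modulo `q` -/
noncomputable def pairs (q Q : ℕ) (xs as bs k : ℤ) : Finset (Tr × Tr) :=
  (box Q xs as bs 0 q q ×ˢ box Q xs as bs 0 q q).filter
    (fun v => PP v.2 - PP v.1 ≡ k [ZMOD q])

open Classical in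
/-- pairs of triples of the box with `P(u') - P(u) = i s`, where `s ∈ [S1, S1 + dS)` and
`s ≡ 2 ws + i` modulo `2 Q` -/
noncomputable def offd (Q : ℕ) (ws xs as bs X D A S1 dS i : ℤ) : Finset (Tr × Tr) :=
  (box Q xs as bs X D A ×ˢ box Q xs as bs X D A).filter
    (fun v => ∃ s : ℤ, S1 ≤ s ∧ s < S1 + dS ∧ s ≡ 2 * ws + i [ZMOD (2 * Q : ℕ)] ∧
      PP v.2 - PP v.1 = i * s)

/-- pairs of triples of the box with the same value of `P` -/
noncomputable def diag (Q : ℕ) (xs as bs X D A : ℤ) : Finset (Tr × Tr) :=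
  (box Q xs as bs X D A ×ˢ box Q xs as bs X D A).filter (fun v => PP v.1 = PP v.2)

/-- the local factor of `ι` at the primes not dividing `Q` -/
noncomputable def fr (Q n : ℕ) : ℝ :=
  ∏ p ∈ n.primeFactors.filter (fun p => ¬ p ∣ Q), (1 + 4 * (n.factorization p : ℝ) / p)

/-- the range of `P(u') - P(u)` for `u, u'` in the box -/
def cc (X D A : ℤ) : ℤ := 9 * ((X + D) ^ 2 - X ^ 2) + 2 * A ^ 4 + 8 * A ^ 2 * (X + D)

/-- the pairs `(w, u)` with `w² + P(u)` in the window -/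
noncomputable def TT (Q : ℕ) (ws xs as bs X D A W H : ℤ) : Finset (ℤ × Tr) :=
  (res Q ws 1 (W + H) ×ˢ box Q xs as bs X D A).filter
    (fun t => W ^ 2 ≤ t.1 ^ 2 + PP t.2 ∧ t.1 ^ 2 + PP t.2 < (W + H) ^ 2)

def val (t : ℤ × Tr) : ℤ := t.1 ^ 2 + PP t.2

/-- pairs of elements of `TT` with the same value -/
noncomputable def coll (Q : ℕ) (ws xs as bs X D A W H : ℤ) : Finset ((ℤ × Tr) × (ℤ × Tr)) :=
  (TT Q ws xs as bs X D A W H ×ˢ TT Q ws xs as bs X D A W H).filter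
    (fun p => val p.1 = val p.2)

theorem mem_res {Q : ℕ} {r lo hi x : ℤ} :
    x ∈ res Q r lo hi ↔ (lo ≤ x ∧ x < hi) ∧ x ≡ r [ZMOD Q] := by
  simp [res]

theorem mem_box {Q : ℕ} {xs as bs X D A : ℤ} {u : Tr} :
    u ∈ box Q xs as bs X D A ↔ ((X ≤ u.1 ∧ u.1 < X + D) ∧ u.1 ≡ xs [ZMOD Q]) ∧
      ((0 ≤ u.2.1 ∧ u.2.1 < A) ∧ u.2.1 ≡ as [ZMOD Q]) ∧
      ((0 ≤ u.2.2 ∧ u.2.2 < A) ∧ u.2.2 ≡ bs [ZMOD Q]) := by
  simp [box, mem_product, mem_res]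

theorem PP_nonneg (u : Tr) : 0 ≤ PP u := by
  unfold PP P
  positivity

end FSQ
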