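import Pool.Agent.FSQ.Defs

/-!
# FSQ-Loc: local solvability

For every `L ≥ 5` there is a modulus `Q` divisible by all primes up to `L` such that every `n0` which is
not divisible by `16` is locally represented by admissible class data.
-/

namespace FSQ

open Finset

private theorem P_modEq {m x x' a a' b b' : ℤ} (hx : x ≡ x' [ZMOD m]) (ha : a ≡ a' [ZMOD m])
    (hb : b ≡ b' [ZMOD m]) : P x a b ≡ P x' a' b' [ZMOD m] := by
  unfold P
  exact ((hx.pow 2).add (((ha.pow 2).sub (hx.mul_left 2)).pow 2)).add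
    (((hb.pow 2).sub (hx.mul_left 2)).pow 2)

private theorem U_modEq {m x x' a a' b b' : ℤ} (hx : x ≡ x' [ZMOD m]) (ha : a ≡ a' [ZMOD m])
    (hb : b ≡ b' [ZMOD m]) : U x a b ≡ U x' a' b' [ZMOD m] := by
  unfold U
  exact (hx.mul_left 9).sub (((ha.pow 2).add (hb.pow 2)).mul_left 2)

private theorem crt_int {m1 m2 : ℤ} (h : IsCoprime m1 m2) (r1 r2 : ℤ) :
    ∃ z : ℤ, z ≡ r1 [ZMOD m1] ∧ z ≡ r2 [ZMOD m2] := by
  obtain ⟨u, v, huv⟩ := h
  refine ⟨r1 * (v * m2) + r2 * (u * m1), ?_, ?_⟩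
  · rw [Int.modEq_iff_dvd]
    exact ⟨r1 * u - r2 * u, by linear_combination (-r1) * huv⟩
  · rw [Int.modEq_iff_dvd]
    exact ⟨r2 * v - r1 * v, by linear_combination (-r2) * huv⟩

private theorem modEq_mul {m1 m2 a b : ℤ} (h : IsCoprime m1 m2) (h1 : a ≡ b [ZMOD m1])
    (h2 : a ≡ b [ZMOD m2]) : a ≡ b [ZMOD m1 * m2] := by
  rw [Int.modEq_iff_dvd] at *
  exact h.mul_dvd h1 h2

private theorem coprime_of_modEq {m a b : ℤ} (h : a ≡ b [ZMOD m]) (hb : IsCoprime b m) :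
    IsCoprime a m := by
  rw [Int.modEq_iff_dvd] at h
  obtain ⟨k, hk⟩ := h
  have h1 : a = b + m * (-k) := by linear_combination -hk
  rw [h1]
  exact hb.add_mul_left_left _

private theorem loc_mul {m1 m2 n0 : ℤ} (h : IsCoprime m1 m2) {w1 x1 a1 b1 w2 x2 a2 b2 : ℤ}
    (h1 : w1 ^ 2 + P x1 a1 b1 ≡ n0 [ZMOD m1]) (h2 : w2 ^ 2 + P x2 a2 b2 ≡ n0 [ZMOD m2]) :
    ∃ w x a b : ℤ, w ^ 2 + P x a b ≡ n0 [ZMOD m1 * m2] ∧
      (w ≡ w1 [ZMOD m1] ∧ x ≡ x1 [ZMOD m1] ∧ a ≡ a1 [ZMOD m1] ∧ b ≡ b1 [ZMOD m1]) ∧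
      (w ≡ w2 [ZMOD m2] ∧ x ≡ x2 [ZMOD m2] ∧ a ≡ a2 [ZMOD m2] ∧ b ≡ b2 [ZMOD m2]) := by
  obtain ⟨w, hw1, hw2⟩ := crt_int h w1 w2
  obtain ⟨x, hx1, hx2⟩ := crt_int h x1 x2
  obtain ⟨a, ha1, ha2⟩ := crt_int h a1 a2
  obtain ⟨b, hb1, hb2⟩ := crt_int h b1 b2
  refine ⟨w, x, a, b, modEq_mul h ?_ ?_, ⟨hw1, hx1, ha1, hb1⟩, ⟨hw2, hx2, ha2, hb2⟩⟩
  · exact ((hw1.pow 2).add (P_modEq hx1 ha1 hb1)).trans h1
  · exact ((hw2.pow 2).add (P_modEq hx2 ha2 hb2)).trans h2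

private theorem P_cast {p : ℕ} (x a b : ℤ) : ((P x a b : ℤ) : ZMod p) = P (x : ZMod p) a b := by
  unfold P
  push_cast
  ring

private theorem U_cast {p : ℕ} (x a b : ℤ) : ((U x a b : ℤ) : ZMod p) = U (x : ZMod p) a b := by
  unfold U
  push_cast
  ring

private theorem lift_zmod {p : ℕ} (hp : p.Prime) (n0 : ℤ) (w x a b : ZMod p)
    (h : w ^ 2 + P x a b = n0) (hU : U x a b ≠ 0) :
    ∃ w x a b : ℤ, w ^ 2 + P x a b ≡ n0 [ZMOD p] ∧ IsCoprime (U x a b) (p : ℤ) := by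
  obtain ⟨w, rfl⟩ := ZMod.intCast_surjective w
  obtain ⟨x, rfl⟩ := ZMod.intCast_surjective x
  obtain ⟨a, rfl⟩ := ZMod.intCast_surjective a
  obtain ⟨b, rfl⟩ := ZMod.intCast_surjective b
  refine ⟨w, x, a, b, ?_, ?_⟩
  · rw [← ZMod.intCast_eq_intCast_iff]
    push_cast
    rw [P_cast]
    exact h
  · rw [isCoprime_comm, (Nat.prime_iff_prime_int.1 hp).coprime_iff_not_dvd,
      ← ZMod.intCast_zmod_eq_zero_iff_dvd _ p]
    rw [U_cast]
    exact hU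

private theorem loc_three : ∀ n : ZMod 3, (0 : ZMod 3) ^ 2 + P (1 - n) 1 0 = n ∧
    U (1 - n) 1 0 ≠ 0 := by
  unfold P U
  decide

private theorem loc_prime {p : ℕ} (hp : p.Prime) (h2 : p ≠ 2) (n0 : ℤ) :
    ∃ w x a b : ℤ, w ^ 2 + P x a b ≡ n0 [ZMOD p] ∧ IsCoprime (U x a b) (p : ℤ) := by
  have : Fact p.Prime := ⟨hp⟩
  by_cases h3 : p = 3
  · subst h3
    exact lift_zmod hp n0 0 (1 - n0) 1 0 (loc_three n0).1 (loc_three n0).2
  · have hc : ∀ k : ℕ, k.Prime → k ≠ p → (k : ZMod p) ≠ 0 := by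
      intro k hk hkp h0
      rw [ZMod.natCast_eq_zero_iff] at h0
      exact hkp ((Nat.prime_dvd_prime_iff_eq hp hk).1 h0).symm
    have c2 : (2 : ZMod p) ≠ 0 := by
      have := hc 2 Nat.prime_two (Ne.symm h2)
      exact_mod_cast this
    have c3 : (3 : ZMod p) ≠ 0 := by
      have := hc 3 Nat.prime_three (Ne.symm h3)
      exact_mod_cast this
    have c9 : (9 : ZMod p) ≠ 0 := by
      have : (9 : ZMod p) = 3 * 3 := by norm_num
      rw [this]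
      exact mul_ne_zero c3 c3
    obtain ⟨t, ht, hr⟩ : ∃ t : ZMod p, t ^ 2 = t ∧ 9 * (n0 : ZMod p) - 2 * t ≠ 0 := by
      by_cases h0 : (n0 : ZMod p) = 0
      · refine ⟨1, by ring, ?_⟩
        rw [h0]
        intro h
        apply c2
        linear_combination -h
      · refine ⟨0, by ring, ?_⟩
        rw [mul_zero, sub_zero]
        exact mul_ne_zero c9 h0
    have key : ∀ α β : ZMod p, α ^ 2 + β ^ 2 = 9 * (n0 : ZMod p) - 2 * t → β ≠ 0 →
        ∃ w x a b : ℤ, w ^ 2 + P x a b ≡ n0 [ZMOD p] ∧ IsCoprime (U x a b) (p : ℤ) := by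
      intro α β hαβ hβ
      have hU : U ((β + 4 * t) / 9) t t = β := by
        unfold U
        rw [mul_div_cancel₀ _ c9]
        linear_combination (-4) * ht
      refine lift_zmod hp n0 (α / 3) ((β + 4 * t) / 9) t t ?_ (by rw [hU]; exact hβ)
      apply mul_left_cancel₀ c9
      rw [mul_add, nine_P, hU]
      have h5 : 9 * (α / 3) ^ 2 = α ^ 2 := by
        field_simp
        ring
      have h6 : (F t t : ZMod p) = 2 * t := by
        unfold F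
        linear_combination (2 * t ^ 2 + 2 * t + 2) * ht
      rw [h5, h6]
      linear_combination hαβ
    obtain ⟨α, β, hαβ⟩ := ZMod.sq_add_sq p (9 * (n0 : ZMod p) - 2 * t)
    by_cases hβ : β = 0
    · refine key β α (by rw [← hαβ]; ring) ?_
      intro hα
      apply hr
      rw [← hαβ, hα, hβ]
      ring
    · exact key α β hαβ hβ

private theorem loc_odd (n0 : ℤ) (s : Finset ℕ) (hs : ∀ p ∈ s, p.Prime ∧ p ≠ 2) :
    ∃ w x a b : ℤ, w ^ 2 + P x a b ≡ n0 [ZMOD ((∏ p ∈ s, p : ℕ) : ℤ)] ∧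
      IsCoprime (U x a b) ((∏ p ∈ s, p : ℕ) : ℤ) := by
  induction s using Finset.induction_on with
  | empty =>
    refine ⟨0, 0, 0, 0, ?_, ?_⟩
    · rw [Finset.prod_empty, Nat.cast_one]
      exact Int.modEq_one
    · rw [Finset.prod_empty, Nat.cast_one]
      exact isCoprime_one_right
  | insert p s hps ih =>
    obtain ⟨w2, x2, a2, b2, h2, hc2⟩ := ih fun q hq => hs q (Finset.mem_insert_of_mem hq)
    have hp := hs p (Finset.mem_insert_self p s)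
    obtain ⟨w1, x1, a1, b1, h1, hc1⟩ := loc_prime hp.1 hp.2 n0
    have hco : IsCoprime (p : ℤ) ((∏ q ∈ s, q : ℕ) : ℤ) := by
      rw [Nat.isCoprime_iff_coprime]
      refine Nat.Coprime.prod_right fun q hq => ?_
      refine (Nat.coprime_primes hp.1 (hs q (Finset.mem_insert_of_mem hq)).1).2 ?_
      rintro rfl
      exact hps hq
    obtain ⟨w, x, a, b, h, ⟨_, e2, e3, e4⟩, ⟨_, f2, f3, f4⟩⟩ := loc_mul hco h1 h2
    refine ⟨w, x, a, b, ?_, ?_⟩
    · rw [Finset.prod_insert hps, Nat.cast_mul]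
      exact h
    · rw [Finset.prod_insert hps, Nat.cast_mul]
      exact (coprime_of_modEq (U_modEq e2 e3 e4) hc1).mul_right
        (coprime_of_modEq (U_modEq f2 f3 f4) hc2)

private theorem loc_two_one (n0 : ℤ) (h : ¬ (8 : ℤ) ∣ n0) :
    ∃ w x a b : ℤ, w ^ 2 + P x a b ≡ n0 [ZMOD 16] ∧ ¬ (2 : ℤ) ∣ U x a b := by
  have hn : n0 ≡ n0 % 16 [ZMOD 16] := (Int.mod_modEq n0 16).symm
  have hr0 : 0 ≤ n0 % 16 := Int.emod_nonneg _ (by norm_num)
  have hr1 : n0 % 16 < 16 := Int.emod_lt_of_pos _ (by norm_num)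
  have h8 : ¬ (8 : ℤ) ∣ n0 % 16 := by omega
  suffices H : ∃ w x a b : ℤ, w ^ 2 + P x a b ≡ n0 % 16 [ZMOD 16] ∧ ¬ (2 : ℤ) ∣ U x a b by
    obtain ⟨w, x, a, b, h1, h2⟩ := H
    exact ⟨w, x, a, b, h1.trans hn.symm, h2⟩
  generalize n0 % 16 = r at *
  unfold P U
  interval_cases r
  · omega
  · exact ⟨0, 3, 0, 0, by decide, by decide⟩
  · exact ⟨1, 3, 0, 0, by decide, by decide⟩
  · exact ⟨0, 1, 1, 1, by decide, by decide⟩
  · exact ⟨1, 1, 1, 1, by decide, by decide⟩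
  · exact ⟨2, 3, 0, 0, by decide, by decide⟩
  · exact ⟨0, 1, 0, 1, by decide, by decide⟩
  · exact ⟨1, 1, 0, 1, by decide, by decide⟩
  · omega
  · exact ⟨0, 1, 0, 0, by decide, by decide⟩
  · exact ⟨1, 1, 0, 0, by decide, by decide⟩
  · exact ⟨0, 3, 1, 1, by decide, by decide⟩
  · exact ⟨1, 3, 1, 1, by decide, by decide⟩
  · exact ⟨2, 1, 0, 0, by decide, by decide⟩
  · exact ⟨0, 5, 0, 1, by decide, by decide⟩
  · exact ⟨1, 5, 0, 1, by decide, by decide⟩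

private theorem loc_two_two (n0 : ℤ) (h : (8 : ℤ) ∣ n0) (h16 : ¬ (16 : ℤ) ∣ n0) :
    ∃ w x a b : ℤ, w ^ 2 + P x a b ≡ n0 [ZMOD 32] ∧ (2 : ℤ) ∣ w ∧ (2 : ℤ) ∣ x ∧
      U x a b ≡ 2 [ZMOD 4] := by
  have hn : n0 ≡ n0 % 32 [ZMOD 32] := (Int.mod_modEq n0 32).symm
  have h8 : n0 % 32 = 8 ∨ n0 % 32 = 24 := by omega
  rcases h8 with h8 | h8 <;> rw [h8] at hn
  · refine ⟨2, 2, 0, 0, Int.ModEq.trans ?_ hn.symm, by decide, by decide, ?_⟩
    · unfold P; decide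
    · unfold U; decide
  · refine ⟨2, 2, 0, 2, Int.ModEq.trans ?_ hn.symm, by decide, by decide, ?_⟩
    · unfold P; decide
    · unfold U; decide

theorem exists_cls (L : ℕ) (hL : 5 ≤ L) : ∃ Q : ℕ, Q ≤ 8 * 4 ^ L ∧
    (∀ p : ℕ, p.Prime → p ≤ L → p ∣ Q) ∧
    ∀ n0 : ℤ, ¬ (16 : ℤ) ∣ n0 → ∃ (g : ℕ) (ws xs as bs : ℤ), Cls Q g ws xs as bs ∧
      ws ^ 2 + P xs as bs ≡ n0 [ZMOD (2 * g * Q : ℕ)] := by
  classical
  let s : Finset ℕ := (range (L + 1)).filter fun p => p.Prime ∧ p ≠ 2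
  have hs : ∀ p ∈ s, p.Prime ∧ p ≠ 2 := fun p hp => (mem_filter.1 hp).2
  have hmem : ∀ p : ℕ, p.Prime → p ≠ 2 → p ≤ L → p ∈ s := fun p hp h2 hpL =>
    mem_filter.2 ⟨mem_range.2 (by omega), hp, h2⟩
  obtain ⟨M, hM⟩ : ∃ M : ℕ, M = ∏ p ∈ s, p := ⟨_, rfl⟩
  have hM0 : 0 < M := by
    rw [hM]
    exact Finset.prod_pos fun p hp => (hs p hp).1.pos
  have hdvd : ∀ p : ℕ, p.Prime → p ≠ 2 → p ≤ L → p ∣ M := fun p hp h2 hpL => by
    rw [hM]
    exact Finset.dvd_prod_of_mem (fun p => p) (hmem p hp h2 hpL)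
  have hodd : Nat.Coprime 2 M := by
    rw [hM]
    exact Nat.Coprime.prod_right fun q hq =>
      (Nat.coprime_primes Nat.prime_two (hs q hq).1).2 (Ne.symm (hs q hq).2)
  have hco2 : IsCoprime (2 : ℤ) (M : ℤ) := by
    have := Nat.isCoprime_iff_coprime.2 hodd
    exact_mod_cast this
  have h15 : 15 ∣ M := by
    have h3 := hdvd 3 Nat.prime_three (by norm_num) (by omega)
    have h5 := hdvd 5 Nat.prime_five (by norm_num) hL
    exact Nat.Coprime.mul_dvd_of_dvd_of_dvd (by norm_num : Nat.Coprime 3 5) h3 h5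
  refine ⟨8 * M, ?_, ?_, ?_⟩
  · refine Nat.mul_le_mul_left 8 (le_trans ?_ (primorial_le_four_pow L))
    rw [hM, primorial]
    refine Finset.prod_le_prod_of_subset_of_one_le' ?_ ?_
    · intro p hp
      have h1 := mem_filter.1 hp
      exact mem_filter.2 ⟨h1.1, h1.2.1⟩
    · intro p hp _
      exact (mem_filter.1 hp).2.one_lt.le
  · intro p hp hpL
    by_cases h2 : p = 2
    · rw [h2]
      exact Dvd.dvd.mul_right (by norm_num) M
    · exact (hdvd p hp h2 hpL).mul_left 8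
  intro n0 hn0
  have hQ0 : 0 < 8 * M := by omega
  have hQ120 : 120 ∣ 8 * M := by
    obtain ⟨c, hc⟩ := h15
    exact ⟨c, by rw [hc]; ring⟩
  obtain ⟨w2, x2, a2, b2, h2, hc2⟩ := loc_odd n0 s hs
  rw [← hM] at h2 hc2
  by_cases h8 : (8 : ℤ) ∣ n0
  · obtain ⟨w1, x1, a1, b1, h1, hw1, hx1, hU1⟩ := loc_two_two n0 h8 hn0
    have hco : IsCoprime (32 : ℤ) (M : ℤ) := by
      have := hco2.pow_left (m := 5)
      exact_mod_cast this
    obtain ⟨w, x, a, b, h, ⟨e1, e2, e3, e4⟩, ⟨_, f2, f3, f4⟩⟩ := loc_mul hco h1 h2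
    have e1' : w ≡ w1 [ZMOD 2] := Int.ModEq.of_dvd (by norm_num) e1
    have e2' : x ≡ x1 [ZMOD 2] := Int.ModEq.of_dvd (by norm_num) e2
    have hU4 : U x a b ≡ 2 [ZMOD 4] :=
      (Int.ModEq.of_dvd (by norm_num) (U_modEq e2 e3 e4)).trans hU1
    have hUM : IsCoprime (U x a b) (M : ℤ) := coprime_of_modEq (U_modEq f2 f3 f4) hc2
    obtain ⟨V, hV⟩ : ∃ V : ℤ, U x a b = 2 * V := by
      have h4 : U x a b % 4 = 2 % 4 := hU4
      exact ⟨U x a b / 2, by omega⟩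
    refine ⟨2, w, x, a, b, ⟨Or.inr rfl, hQ0, hQ120, ?_, ?_, ⟨V, hV, ?_⟩⟩, ?_⟩
    · have h4 : w % 2 = w1 % 2 := e1'
      have : ((2 : ℕ) : ℤ) = 2 := rfl
      rw [this]
      omega
    · have h4 : x % 2 = x1 % 2 := e2'
      have : ((2 : ℕ) : ℤ) = 2 := rfl
      rw [this]
      omega
    · have hV2 : IsCoprime V 2 := by
        have h4 : U x a b % 4 = 2 % 4 := hU4
        have h5 : ¬ (2 : ℤ) ∣ V := by omega
        exact (Int.prime_two.coprime_iff_not_dvd.2 h5).symm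
      have hVM : IsCoprime V (M : ℤ) := by
        rw [hV] at hUM
        exact hUM.of_mul_left_right
      push_cast
      refine IsCoprime.mul_right ?_ hVM
      have := hV2.pow_right (n := 3)
      exact_mod_cast this
    · have h9 : (((2 * 2 * (8 * M) : ℕ)) : ℤ) = 32 * (M : ℤ) := by
        push_cast
        ring
      rw [h9]
      exact h
  · obtain ⟨w1, x1, a1, b1, h1, hU1⟩ := loc_two_one n0 h8
    have hco : IsCoprime (16 : ℤ) (M : ℤ) := by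
      have := hco2.pow_left (m := 4)
      exact_mod_cast this
    obtain ⟨w, x, a, b, h, ⟨e1, e2, e3, e4⟩, ⟨_, f2, f3, f4⟩⟩ := loc_mul hco h1 h2
    have hU2 : U x a b ≡ U x1 a1 b1 [ZMOD 2] :=
      Int.ModEq.of_dvd (by norm_num) (U_modEq e2 e3 e4)
    have hUM : IsCoprime (U x a b) (M : ℤ) := coprime_of_modEq (U_modEq f2 f3 f4) hc2
    refine ⟨1, w, x, a, b, ⟨Or.inl rfl, hQ0, hQ120, ?_, ?_, ⟨U x a b, ?_, ?_⟩⟩, ?_⟩
    · rw [Nat.cast_one]
      exact one_dvd _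
    · rw [Nat.cast_one]
      exact one_dvd _
    · rw [Nat.cast_one, one_mul]
    · have hV2 : IsCoprime (U x a b) 2 := by
        have h4 : U x a b % 2 = U x1 a1 b1 % 2 := hU2
        have h5 : ¬ (2 : ℤ) ∣ U x a b := by omega
        exact (Int.prime_two.coprime_iff_not_dvd.2 h5).symm
      push_cast
      refine IsCoprime.mul_right ?_ hUM
      have := hV2.pow_right (n := 3)
      exact_mod_cast this
    · have h9 : (((2 * 1 * (8 * M) : ℕ)) : ℤ) = 16 * (M : ℤ) := by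
        push_cast
        ring
      rw [h9]
      exact h

end FSQ
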