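import Pool.Agent.FSQ.Win
import Pool.Agent.FSQ.Loc

/-!
# FSQ-Dens: the number of exceptions up to `N` is `O(N / log N)`
-/

namespace FSQ

open Finset Filter Topology

theorem adm_sixteen {n : ℕ} (h : Adm n) : Adm (16 * n) := by
  obtain ⟨x, y, z, w, hw, hn, ⟨a, ha⟩, ⟨b, hb⟩⟩ := h
  refine ⟨4 * x, 4 * y, 4 * z, 4 * w, by linarith, ?_, ⟨2 * a, ?_⟩, ⟨2 * b, ?_⟩⟩
  · push_cast
    rw [hn]
    ring
  · linear_combination 4 * ha
  · linear_combination 4 * hb

theorem gap_le (k : ℕ) (hk : 5 ≤ k) : gap k k ≤ 1104 / k := by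
  have hk' : (5 : ℝ) ≤ k := by exact_mod_cast hk
  obtain ⟨x, hx⟩ : ∃ x : ℝ, x = 1 / (k : ℝ) := ⟨_, rfl⟩
  have hx0 : 0 < x := by rw [hx]; positivity
  have hx1 : x ≤ 1 / 5 := by
    rw [hx]
    exact one_div_le_one_div_of_le (by norm_num) hk'
  have h8 : (8 : ℝ) / k = 8 * x := by rw [hx, mul_one_div]
  have h1104 : (1104 : ℝ) / k = 1104 * x := by rw [hx, mul_one_div]
  have hG : Gam k k ≤ 1 + 1101 * x := by
    rw [Gam, ← hx, h8]
    have h1 : 1 + x ≤ Real.exp x := by linarith [Real.add_one_le_exp x]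
    have h2 : (1 + x) ^ 10 ≤ Real.exp (10 * x) := by
      calc (1 + x) ^ 10 ≤ (Real.exp x) ^ 10 := pow_le_pow_left₀ (by linarith) h1 10
        _ = Real.exp (10 * x) := by rw [← Real.exp_nat_mul]; norm_num
    have h3 : (1 + x) ^ 10 / (1 - x) ≤ Real.exp (12 * x) := by
      rw [div_le_iff₀ (by linarith)]
      have h4 : 1 ≤ Real.exp (2 * x) * (1 - x) := by
        have h5 : 1 + 2 * x ≤ Real.exp (2 * x) := by linarith [Real.add_one_le_exp (2 * x)]
        have h6 : (1 + 2 * x) * (1 - x) ≤ Real.exp (2 * x) * (1 - x) :=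
          mul_le_mul_of_nonneg_right h5 (by linarith)
        nlinarith
      calc (1 + x) ^ 10 ≤ Real.exp (10 * x) * 1 := by rw [mul_one]; exact h2
        _ ≤ Real.exp (10 * x) * (Real.exp (2 * x) * (1 - x)) :=
            mul_le_mul_of_nonneg_left h4 (Real.exp_pos _).le
        _ = Real.exp (12 * x) * (1 - x) := by
            rw [← mul_assoc, ← Real.exp_add]
            ring_nf
    have h4 : (1 + x) ^ 10 / (1 - x) * Real.exp (8 * x) ≤ Real.exp (20 * x) := by
      calc (1 + x) ^ 10 / (1 - x) * Real.exp (8 * x) ≤ Real.exp (12 * x) * Real.exp (8 * x) :=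
            mul_le_mul_of_nonneg_right h3 (Real.exp_pos _).le
        _ = Real.exp (20 * x) := by rw [← Real.exp_add]; ring_nf
    have h5 : Real.exp (20 * x) ≤ 55 := by
      have h6 : Real.exp (20 * x) ≤ Real.exp 4 := Real.exp_le_exp.2 (by linarith)
      have h7 : Real.exp 4 = (Real.exp 1) ^ 4 := by rw [← Real.exp_nat_mul]; norm_num
      have h9 : (Real.exp 1) ^ 4 ≤ (2.7182818286 : ℝ) ^ 4 :=
        pow_le_pow_left₀ (Real.exp_pos _).le Real.exp_one_lt_d9.le 4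
      have h10 : (2.7182818286 : ℝ) ^ 4 ≤ 55 := by norm_num
      linarith
    have h6 : Real.exp (20 * x) ≤ 1 + 1100 * x := by
      have h7 : 1 - 20 * x ≤ Real.exp (-(20 * x)) := by
        linarith [Real.add_one_le_exp (-(20 * x))]
      have h9 : (1 - 20 * x) * Real.exp (20 * x) ≤ 1 := by
        calc (1 - 20 * x) * Real.exp (20 * x) ≤ Real.exp (-(20 * x)) * Real.exp (20 * x) :=
              mul_le_mul_of_nonneg_right h7 (Real.exp_pos _).le
          _ = 1 := by rw [← Real.exp_add]; simp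
      have h10 : 20 * x * Real.exp (20 * x) ≤ 20 * x * 55 :=
        mul_le_mul_of_nonneg_left h5 (by linarith)
      nlinarith
    linarith
  have hG0 := Gam_pos (by omega : 2 ≤ k) k
  rw [gap, ← hx, h1104]
  have h1 : (1 - x) ^ 2 / (1 + 1101 * x) ≤ (1 - x) ^ 2 / Gam k k :=
    div_le_div_of_nonneg_left (by positivity) hG0 hG
  have h2 : 1 - 1103 * x ≤ (1 - x) ^ 2 / (1 + 1101 * x) := by
    rw [le_div_iff₀ (by positivity)]
    nlinarith
  linarith

open Classical in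
/-- exceptions which are not divisible by 16 -/
noncomputable def ex0 (N : ℕ) : Finset ℕ := (range N).filter (fun n => ¬ 16 ∣ n ∧ ¬ Adm n)

open Classical in
/-- exceptions -/
noncomputable def exc (N : ℕ) : Finset ℕ := (range N).filter (fun n => ¬ Adm n)

theorem size_le (C L Q : ℕ) (hL : 4 * C + 303 ≤ L) (hQ0 : 0 < Q) (hQ : Q ≤ 8 * 4 ^ L) :
    (L * Q * (zz C L Q + 64)) ^ 32 ≤ 2 ^ (736 * L) := by
  have hL1 : 1 ≤ L := by omega
  have hL2 : L ≤ 2 ^ L := Nat.lt_two_pow_self.le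
  have hQ2 : Q ≤ 2 ^ (2 * L + 3) := by
    refine hQ.trans (le_of_eq ?_)
    rw [pow_add, pow_mul]
    norm_num
    ring
  have h1 : zz C L Q + 64 ≤ (4 * C + 279) * (L ^ 5 * Q ^ 7) := by
    rw [zz]
    have e1 : L ^ 4 ≤ L ^ 5 * Q ^ 7 := by
      calc L ^ 4 ≤ L ^ 5 := Nat.pow_le_pow_right hL1 (by norm_num)
        _ ≤ L ^ 5 * Q ^ 7 := Nat.le_mul_of_pos_right _ (by positivity)
    have e2 : Q * L ^ 3 ≤ L ^ 5 * Q ^ 7 := by
      calc Q * L ^ 3 = L ^ 3 * Q := by ring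
        _ ≤ L ^ 5 * Q ^ 7 := Nat.mul_le_mul (Nat.pow_le_pow_right hL1 (by norm_num))
            (Nat.le_self_pow (by norm_num) Q)
    have e3 : 1 ≤ L ^ 5 * Q ^ 7 := Nat.one_le_iff_ne_zero.2 (by positivity)
    have e4 : 54 * Q * L ^ 3 = 54 * (Q * L ^ 3) := by ring
    have e5 : 4 * C * L ^ 5 * Q ^ 7 = 4 * C * (L ^ 5 * Q ^ 7) := by ring
    rw [e4, e5]
    nlinarith
  have h2 : 4 * C + 279 ≤ 2 ^ (4 * C + 279) := Nat.lt_two_pow_self.le
  have h3 : L * Q * (zz C L Q + 64) ≤ 2 ^ (23 * L) := by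
    calc L * Q * (zz C L Q + 64) ≤ L * Q * ((4 * C + 279) * (L ^ 5 * Q ^ 7)) :=
          Nat.mul_le_mul_left _ h1
      _ = (4 * C + 279) * L ^ 6 * Q ^ 8 := by ring
      _ ≤ 2 ^ (4 * C + 279) * (2 ^ L) ^ 6 * (2 ^ (2 * L + 3)) ^ 8 := by gcongr
      _ = 2 ^ (4 * C + 279 + L * 6 + (2 * L + 3) * 8) := by
          rw [← pow_mul, ← pow_mul, ← pow_add, ← pow_add]
      _ ≤ 2 ^ (23 * L) := Nat.pow_le_pow_right (by norm_num) (by omega)
  calc (L * Q * (zz C L Q + 64)) ^ 32 ≤ (2 ^ (23 * L)) ^ 32 := Nat.pow_le_pow_left h3 32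
    _ = 2 ^ (736 * L) := by
        rw [← pow_mul]
        congr 1
        ring

open Classical in
theorem window_all : ∃ L0 : ℕ, 5 ≤ L0 ∧ ∀ L : ℕ, L0 ≤ L → ∀ W : ℕ, 2 ^ (736 * L) ≤ W →
      (((Ico (W ^ 2) ((W + W / L) ^ 2)).filter (fun n => ¬ 16 ∣ n ∧ ¬ Adm n)).card : ℝ) ≤
        4 * (1104 / L) * (W * (W / L : ℕ)) := by
  obtain ⟨C, hwin⟩ := window
  refine ⟨4 * C + 303, by omega, fun L hL W hWL => ?_⟩
  have hL5 : 5 ≤ L := by omega
  have hε : (0 : ℝ) < 1104 / L := by positivity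
  have hgap := gap_le L hL5
  obtain ⟨Q, hQ4, hQL, hcls⟩ := exists_cls L hL5
  have hQex : 0 < Q ∧ 120 ∣ Q := by
    obtain ⟨g, ws, xs, as, bs, c, -⟩ := hcls 1 (by norm_num)
    exact ⟨c.Q0, c.Q120⟩
  obtain ⟨hQ0, hQ120⟩ := hQex
  have hQR : (0 : ℝ) < Q := by exact_mod_cast hQ0
  have hsize := (size_le C L Q hL hQ0 hQ4).trans hWL
  have h1 : ∀ r : ℕ, ¬ 16 ∣ r →
      (((Ico (W ^ 2) ((W + W / L) ^ 2)).filter
        (fun n : ℕ => (n : ℤ) ≡ r [ZMOD (4 * Q : ℕ)] ∧ ¬ Adm n)).card : ℝ) ≤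
        1104 / L * (W * (W / L : ℕ) / Q) := by
    intro r hr
    obtain ⟨g, ws, xs, as, bs, c, hc⟩ := hcls r (by exact_mod_cast hr)
    have h2 := hwin c (by omega : 0 < L) hQL (by omega : 2 ≤ L) W hsize
    have hg1 : (1 : ℝ) ≤ g := by
      rcases c.hg with h | h <;> rw [h] <;> norm_num
    have h3 : ((Ico (W ^ 2) ((W + W / L) ^ 2)).filter
        (fun n : ℕ => (n : ℤ) ≡ r [ZMOD (4 * Q : ℕ)] ∧ ¬ Adm n)).card ≤
        (bad (2 * g * Q) (ws ^ 2 + P xs as bs) W (W / L)).card := by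
      refine card_le_card fun n hn => ?_
      rw [mem_filter] at hn
      rw [bad, mem_filter]
      refine ⟨hn.1, ?_, hn.2.2⟩
      have h4 : ((2 * g * Q : ℕ) : ℤ) ∣ ((4 * Q : ℕ) : ℤ) := by
        rcases c.hg with h | h
        · rw [h]
          exact ⟨2, by push_cast; ring⟩
        · exact ⟨1, by rw [h]; push_cast; ring⟩
      exact (hn.2.1.of_dvd h4).trans hc.symm
    have h5 : (0 : ℝ) ≤ W * (W / L : ℕ) / (g * Q) := by positivity
    calc (((Ico (W ^ 2) ((W + W / L) ^ 2)).filter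
        (fun n : ℕ => (n : ℤ) ≡ r [ZMOD (4 * Q : ℕ)] ∧ ¬ Adm n)).card : ℝ)
        ≤ ((bad (2 * g * Q) (ws ^ 2 + P xs as bs) W (W / L)).card : ℝ) := by exact_mod_cast h3
      _ ≤ gap L L * (W * (W / L : ℕ) / (g * Q)) := h2
      _ ≤ 1104 / L * (W * (W / L : ℕ) / (g * Q)) := mul_le_mul_of_nonneg_right hgap h5
      _ ≤ 1104 / L * (W * (W / L : ℕ) / Q) := by
          refine mul_le_mul_of_nonneg_left ?_ hε.le
          refine div_le_div_of_nonneg_left (by positivity) hQR ?_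
          nlinarith
  have h3 : (Ico (W ^ 2) ((W + W / L) ^ 2)).filter (fun n => ¬ 16 ∣ n ∧ ¬ Adm n) ⊆
      ((range (4 * Q)).filter (fun r => ¬ 16 ∣ r)).biUnion fun r =>
        (Ico (W ^ 2) ((W + W / L) ^ 2)).filter
          (fun n : ℕ => (n : ℤ) ≡ r [ZMOD (4 * Q : ℕ)] ∧ ¬ Adm n) := by
    intro n hn
    rw [mem_filter] at hn
    rw [mem_biUnion]
    refine ⟨n % (4 * Q), ?_, ?_⟩
    · rw [mem_filter, mem_range]
      refine ⟨Nat.mod_lt _ (by omega), fun h => hn.2.1 ?_⟩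
      have h4 : 16 ∣ 4 * Q := by
        obtain ⟨q, rfl⟩ := hQ120
        exact ⟨30 * q, by ring⟩
      exact (Nat.dvd_mod_iff h4).1 h
    · rw [mem_filter]
      refine ⟨hn.1, ?_, hn.2.2⟩
      have h5 : n ≡ n % (4 * Q) [MOD (4 * Q)] := (Nat.mod_modEq n (4 * Q)).symm
      exact (Int.natCast_modEq_iff).2 h5
  have h4 : (((Ico (W ^ 2) ((W + W / L) ^ 2)).filter (fun n => ¬ 16 ∣ n ∧ ¬ Adm n)).card : ℝ) ≤
      ∑ r ∈ (range (4 * Q)).filter (fun r => ¬ 16 ∣ r), (((Ico (W ^ 2) ((W + W / L) ^ 2)).filter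
          (fun n : ℕ => (n : ℤ) ≡ r [ZMOD (4 * Q : ℕ)] ∧ ¬ Adm n)).card : ℝ) := by
    exact_mod_cast (card_le_card h3).trans card_biUnion_le
  refine h4.trans ?_
  refine (sum_le_sum fun r hr => h1 r (mem_filter.1 hr).2).trans ?_
  rw [sum_const, nsmul_eq_mul]
  have h5 : (((range (4 * Q)).filter (fun r => ¬ 16 ∣ r)).card : ℝ) ≤ 4 * Q := by
    have := card_filter_le (range (4 * Q)) (fun r => ¬ 16 ∣ r)
    rw [card_range] at this
    exact_mod_cast this
  calc (((range (4 * Q)).filter (fun r => ¬ 16 ∣ r)).card : ℝ) *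
      (1104 / L * (W * (W / L : ℕ) / Q))
      ≤ (4 * Q) * (1104 / L * (W * (W / L : ℕ) / Q)) := by gcongr
    _ = 4 * (1104 / L) * (W * (W / L : ℕ)) := by field_simp

/-- the scales -/
def scale (k W1 : ℕ) : ℕ → ℕ
  | 0 => W1
  | j + 1 => scale k W1 j + scale k W1 j / k

theorem scale_ge {k W1 : ℕ} (hk : 0 < k) (hW : k ≤ W1) (j : ℕ) : W1 + j ≤ scale k W1 j := by
  induction j with
  | zero => exact le_rfl
  | succ j ih =>
    rw [scale]
    have h1 : 1 ≤ scale k W1 j / k := by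
      rw [Nat.one_le_div_iff hk]
      omega
    omega

theorem ex0_mono {M N : ℕ} (h : M ≤ N) : (ex0 M).card ≤ (ex0 N).card := by
  classical
  refine card_le_card fun n hn => ?_
  rw [ex0, mem_filter, mem_range] at hn ⊢
  exact ⟨lt_of_lt_of_le hn.1 h, hn.2⟩

theorem ex0_le (N : ℕ) : (ex0 N).card ≤ N := by
  classical
  refine (card_filter_le _ _).trans ?_
  rw [card_range]

/-- one dyadic block -/
theorem dyadic : ∃ L0 : ℕ, 5 ≤ L0 ∧ ∀ L T : ℕ, L0 ≤ L → 736 * L ≤ T →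
    ((ex0 (4 ^ (T + 1))).card : ℝ) ≤ (ex0 (4 ^ T)).card + 19872 * 4 ^ T / L := by
  classical
  obtain ⟨L0, hL0, hwin⟩ := window_all
  refine ⟨L0, hL0, fun L T hL hT => ?_⟩
  have hLpos : 0 < L := by omega
  have hLR : (0 : ℝ) < L := by exact_mod_cast hLpos
  obtain ⟨W1, hW1⟩ : ∃ W1, W1 = 2 ^ T := ⟨_, rfl⟩
  have hLW : L ≤ W1 := by
    calc L ≤ 2 ^ L := Nat.lt_two_pow_self.le
      _ ≤ W1 := by
        rw [hW1]
        exact Nat.pow_le_pow_right (by norm_num) (by omega)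
  have hge := scale_ge hLpos hLW
  have hW2 : W1 ^ 2 = 4 ^ T := by
    rw [hW1, ← pow_mul, mul_comm, pow_mul]
    norm_num
  have key : ∀ j, ((ex0 (scale L W1 j ^ 2)).card : ℝ) ≤
      ((ex0 (4 ^ T)).card : ℝ) + 2 * (1104 / L) * (scale L W1 j : ℝ) ^ 2 := by
    intro j
    induction j with
    | zero =>
      rw [scale, hW2]
      have h3 : 0 ≤ 2 * (1104 / (L : ℝ)) * (W1 : ℝ) ^ 2 := by positivity
      linarith
    | succ j ih =>
      have hj := hge j
      rw [scale]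
      obtain ⟨w, hw⟩ : ∃ w, w = scale L W1 j := ⟨_, rfl⟩
      rw [← hw] at ih hj ⊢
      have h0 : 2 ^ (736 * L) ≤ w := by
        have : 2 ^ (736 * L) ≤ W1 := by
          rw [hW1]
          exact Nat.pow_le_pow_right (by norm_num) hT
        omega
      have h1 := hwin L hL w h0
      have h2 : ex0 ((w + w / L) ^ 2) = ex0 (w ^ 2) ∪
          (Ico (w ^ 2) ((w + w / L) ^ 2)).filter (fun n => ¬ 16 ∣ n ∧ ¬ Adm n) := by
        have h3 : w ^ 2 ≤ (w + w / L) ^ 2 := Nat.pow_le_pow_left (Nat.le_add_right _ _) 2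
        ext n
        rw [ex0, ex0, mem_union, mem_filter, mem_filter, mem_filter, mem_range, mem_range, mem_Ico]
        constructor
        · rintro ⟨h4, h5⟩
          rcases lt_or_ge n (w ^ 2) with h6 | h6
          · exact Or.inl ⟨h6, h5⟩
          · exact Or.inr ⟨⟨h6, h4⟩, h5⟩
        · rintro (⟨h4, h5⟩ | ⟨⟨_, h4⟩, h5⟩)
          · exact ⟨lt_of_lt_of_le h4 h3, h5⟩
          · exact ⟨h4, h5⟩
      have h3 : ((ex0 ((w + w / L) ^ 2)).card : ℝ) ≤ ((ex0 (w ^ 2)).card : ℝ) +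
          (((Ico (w ^ 2) ((w + w / L) ^ 2)).filter (fun n => ¬ 16 ∣ n ∧ ¬ Adm n)).card : ℝ) := by
        rw [h2]
        exact_mod_cast card_union_le _ _
      refine h3.trans ((add_le_add ih h1).trans ?_)
      push_cast
      have h4 : 0 ≤ 2 * (1104 / (L : ℝ)) * ((w / L : ℕ) : ℝ) ^ 2 := by positivity
      nlinarith
  have hex : ∃ j, 2 ^ (T + 1) ≤ scale L W1 j := by
    refine ⟨2 ^ T, ?_⟩
    have h1 := hge (2 ^ T)
    calc 2 ^ (T + 1) = W1 + 2 ^ T := by rw [hW1]; ring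
      _ ≤ _ := h1
  obtain ⟨j, hj⟩ : ∃ j, j = Nat.find hex := ⟨_, rfl⟩
  have hj1 : 2 ^ (T + 1) ≤ scale L W1 j := by rw [hj]; exact Nat.find_spec hex
  have hj0 : j ≠ 0 := by
    intro h0
    rw [h0, scale, hW1, pow_succ] at hj1
    have : 0 < 2 ^ T := by positivity
    omega
  obtain ⟨i, rfl⟩ := Nat.exists_eq_succ_of_ne_zero hj0
  have hi : scale L W1 i < 2 ^ (T + 1) := by
    have := Nat.find_min hex (m := i) (by omega)
    omega
  have h1 : (ex0 (4 ^ (T + 1))).card ≤ (ex0 (scale L W1 (i + 1) ^ 2)).card := by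
    refine ex0_mono ?_
    calc 4 ^ (T + 1) = (2 ^ (T + 1)) ^ 2 := by
          rw [← pow_mul, mul_comm, pow_mul]
          norm_num
      _ ≤ _ := Nat.pow_le_pow_left hj1 2
  have h2 : ((ex0 (4 ^ (T + 1))).card : ℝ) ≤ ((ex0 (scale L W1 (i + 1) ^ 2)).card : ℝ) := by
    exact_mod_cast h1
  have h3 : (scale L W1 (i + 1) : ℝ) ≤ 3 / 2 * scale L W1 i := by
    rw [scale]
    push_cast
    have h4 : ((scale L W1 i / L : ℕ) : ℝ) ≤ (scale L W1 i : ℝ) / L := Nat.cast_div_le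
    have h5 : (scale L W1 i : ℝ) / L ≤ (scale L W1 i : ℝ) / 2 := by
      have : (2 : ℝ) ≤ L := by exact_mod_cast (by omega : 2 ≤ L)
      gcongr
    linarith
  have h4 : (scale L W1 (i + 1) : ℝ) ^ 2 ≤ 9 * 4 ^ T := by
    have h5 : (scale L W1 i : ℝ) ≤ 2 ^ (T + 1) := by exact_mod_cast hi.le
    have h6 : (scale L W1 (i + 1) : ℝ) ≤ 3 * 2 ^ T := by
      rw [pow_succ] at h5
      linarith
    calc (scale L W1 (i + 1) : ℝ) ^ 2 ≤ (3 * 2 ^ T) ^ 2 := pow_le_pow_left₀ (by positivity) h6 2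
      _ = 9 * (2 ^ 2) ^ T := by rw [mul_pow, ← pow_mul, ← pow_mul, mul_comm T 2]; norm_num
      _ = 9 * 4 ^ T := by norm_num
  have h5 := key (i + 1)
  have h6 : 2 * (1104 / (L : ℝ)) * (scale L W1 (i + 1) : ℝ) ^ 2 ≤
      2 * (1104 / (L : ℝ)) * (9 * 4 ^ T) := mul_le_mul_of_nonneg_left h4 (by positivity)
  have h8 : 2 * (1104 / (L : ℝ)) * (9 * 4 ^ T) = 19872 * 4 ^ T / L := by ring
  linarith

theorem ex0_pow : ∃ B : ℝ, 0 < B ∧ ∀ T : ℕ, 1 ≤ T → ((ex0 (4 ^ T)).card : ℝ) ≤ B * 4 ^ T / T := by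
  obtain ⟨L0, hL0, hdy⟩ := dyadic
  obtain ⟨T0, hT0⟩ : ∃ T0, T0 = 1472 * L0 := ⟨_, rfl⟩
  obtain ⟨B, hB⟩ : ∃ B : ℝ, B = 29251584 + T0 := ⟨_, rfl⟩
  have hBpos : 0 < B := by rw [hB]; positivity
  refine ⟨B, hBpos, fun T hT => ?_⟩
  induction T, hT using Nat.le_induction with
  | base =>
    have h1 : ((ex0 4).card : ℝ) ≤ 4 := by exact_mod_cast ex0_le 4
    have h2 : (1 : ℝ) ≤ B := by
      rw [hB]
      have : (0 : ℝ) ≤ T0 := Nat.cast_nonneg _
      linarith
    simp only [pow_one, Nat.cast_one, div_one]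
    linarith
  | succ T hT ih =>
    have hTR : (1 : ℝ) ≤ T := by exact_mod_cast hT
    by_cases hTT : T + 1 ≤ T0
    · have h1 : ((ex0 (4 ^ (T + 1))).card : ℝ) ≤ 4 ^ (T + 1) := by exact_mod_cast ex0_le _
      have h2 : ((T + 1 : ℕ) : ℝ) ≤ B := by
        rw [hB]
        have : ((T + 1 : ℕ) : ℝ) ≤ T0 := by exact_mod_cast hTT
        linarith
      rw [le_div_iff₀ (by positivity)]
      calc ((ex0 (4 ^ (T + 1))).card : ℝ) * ((T + 1 : ℕ) : ℝ) ≤ 4 ^ (T + 1) * B := by gcongr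
        _ = B * 4 ^ (T + 1) := by ring
    · push Not at hTT
      obtain ⟨L, hL⟩ : ∃ L, L = T / 736 := ⟨_, rfl⟩
      have h1 := hdy L T (by omega) (by omega)
      have hLT : (T : ℝ) ≤ 1472 * L := by
        have : T ≤ 1472 * L := by omega
        exact_mod_cast this
      have hLpos : (0 : ℝ) < L := by
        have : 0 < L := by omega
        exact_mod_cast this
      have hTpos : (0 : ℝ) < T := by linarith
      have h2 : (19872 : ℝ) * 4 ^ T / L ≤ 29251584 * 4 ^ T / T := by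
        rw [div_le_div_iff₀ hLpos hTpos]
        calc (19872 : ℝ) * 4 ^ T * T ≤ 19872 * 4 ^ T * (1472 * L) := by gcongr
          _ = 29251584 * 4 ^ T * L := by ring
      have h3 : ((ex0 (4 ^ (T + 1))).card : ℝ) ≤ 2 * B * 4 ^ T / T := by
        refine h1.trans ((add_le_add ih h2).trans ?_)
        rw [← add_div]
        have : (29251584 : ℝ) ≤ B := by
          rw [hB]
          have : (0 : ℝ) ≤ T0 := Nat.cast_nonneg _
          linarith
        have h4 : (29251584 : ℝ) * 4 ^ T ≤ B * 4 ^ T := by gcongr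
        gcongr
        linarith
      refine h3.trans ?_
      rw [div_le_div_iff₀ hTpos (by positivity)]
      push_cast
      rw [pow_succ]
      have h4 : 0 ≤ B * (4 : ℝ) ^ T := by positivity
      nlinarith

theorem ex0_log : ∃ B : ℝ, 0 < B ∧ ∀ N : ℕ, 2 ≤ N →
    ((ex0 N).card : ℝ) ≤ B * (N / Real.log N) := by
  obtain ⟨B, hB0, hB⟩ := ex0_pow
  refine ⟨8 * B, by positivity, fun N hN => ?_⟩
  have hN0 : N ≠ 0 := by omega
  have hNR : (2 : ℝ) ≤ N := by exact_mod_cast hN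
  have hlog : 0 < Real.log N := Real.log_pos (by linarith)
  obtain ⟨T, hT⟩ : ∃ T, T = Nat.log 4 N := ⟨_, rfl⟩
  have h1 : 4 ^ T ≤ N := by rw [hT]; exact Nat.pow_log_le_self 4 hN0
  have h2 : N < 4 ^ (T + 1) := by rw [hT]; exact Nat.lt_pow_succ_log_self (by norm_num) N
  have h3 : ((ex0 N).card : ℝ) ≤ ((ex0 (4 ^ (T + 1))).card : ℝ) := by
    exact_mod_cast ex0_mono h2.le
  have h4 := hB (T + 1) (by omega)
  have h5 : Real.log N ≤ 2 * ((T + 1 : ℕ) : ℝ) := by
    have h6 : Real.log N ≤ Real.log ((4 : ℝ) ^ (T + 1)) :=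
      Real.log_le_log (by linarith) (by exact_mod_cast h2.le)
    rw [Real.log_pow] at h6
    have h7 : Real.log 4 ≤ 2 := by
      have h8 : Real.log 4 = 2 * Real.log 2 := by
        rw [show (4 : ℝ) = 2 ^ 2 by norm_num, Real.log_pow]
        norm_num
      rw [h8]
      linarith [Real.log_two_lt_d9]
    calc Real.log N ≤ ((T + 1 : ℕ) : ℝ) * Real.log 4 := h6
      _ ≤ ((T + 1 : ℕ) : ℝ) * 2 := by gcongr
      _ = 2 * ((T + 1 : ℕ) : ℝ) := by ring
  have h6 : (4 : ℝ) ^ (T + 1) ≤ 4 * N := by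
    have : (4 : ℝ) ^ T ≤ N := by exact_mod_cast h1
    rw [pow_succ]
    linarith
  have hTpos : (0 : ℝ) < ((T + 1 : ℕ) : ℝ) := by positivity
  refine h3.trans (h4.trans ?_)
  rw [← mul_div_assoc, div_le_div_iff₀ hTpos hlog]
  calc B * 4 ^ (T + 1) * Real.log N ≤ B * (4 * N) * (2 * ((T + 1 : ℕ) : ℝ)) := by gcongr
    _ = 8 * B * N * ((T + 1 : ℕ) : ℝ) := by ring

theorem exc_step (N : ℕ) : (exc N).card ≤ (ex0 N).card + (exc ((N + 15) / 16)).card := by
  classical
  have h1 : exc N ⊆ ex0 N ∪ (exc ((N + 15) / 16)).image (fun m => 16 * m) := by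
    intro n hn
    rw [exc, mem_filter, mem_range] at hn
    rw [mem_union]
    by_cases h16 : 16 ∣ n
    · right
      obtain ⟨m, rfl⟩ := h16
      rw [mem_image]
      refine ⟨m, ?_, rfl⟩
      rw [exc, mem_filter, mem_range]
      exact ⟨by omega, fun h => hn.2 (adm_sixteen h)⟩
    · left
      rw [ex0, mem_filter, mem_range]
      exact ⟨hn.1, h16, hn.2⟩
  exact (card_le_card h1).trans ((card_union_le _ _).trans
    (Nat.add_le_add_left card_image_le _))

/-- **The number of exceptions.** -/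
theorem exc_log : ∃ B : ℝ, 0 < B ∧ ∀ N : ℕ, 2 ≤ N →
    ((exc N).card : ℝ) ≤ B * (N / Real.log N) := by
  classical
  obtain ⟨B, hB0, hB⟩ := ex0_log
  refine ⟨2 * B + 6, by positivity, fun N => ?_⟩
  induction N using Nat.strong_induction_on with
  | _ N ih =>
    intro hN
    have hNR : (2 : ℝ) ≤ N := by exact_mod_cast hN
    have hlog : 0 < Real.log N := Real.log_pos (by linarith)
    by_cases h256 : N < 256
    · have h1 : ((exc N).card : ℝ) ≤ N := by
        have : (exc N).card ≤ N := by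
          refine (card_filter_le _ _).trans ?_
          rw [card_range]
        exact_mod_cast this
      refine h1.trans ?_
      rw [← mul_div_assoc, le_div_iff₀ hlog]
      have h2 : Real.log N ≤ 6 := by
        have h3 : Real.log N ≤ Real.log 256 :=
          Real.log_le_log (by linarith) (by exact_mod_cast h256.le)
        have h4 : Real.log 256 = 8 * Real.log 2 := by
          rw [show (256 : ℝ) = 2 ^ 8 by norm_num, Real.log_pow]
          norm_num
        rw [h4] at h3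
        linarith [Real.log_two_lt_d9]
      calc (N : ℝ) * Real.log N ≤ N * 6 := by gcongr
        _ ≤ N * (2 * B + 6) := by
            gcongr
            linarith
        _ = (2 * B + 6) * N := by ring
    · push Not at h256
      have h256R : (256 : ℝ) ≤ N := by exact_mod_cast h256
      obtain ⟨M, hM⟩ : ∃ M, M = (N + 15) / 16 := ⟨_, rfl⟩
      have h1 := ih M (by omega) (by omega)
      have h2 := hB N hN
      have h3 : ((exc N).card : ℝ) ≤ ((ex0 N).card : ℝ) + ((exc M).card : ℝ) := by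
        rw [hM]
        exact_mod_cast exc_step N
      have hM2 : (2 : ℝ) ≤ M := by
        have : 2 ≤ M := by omega
        exact_mod_cast this
      have hMN : (M : ℝ) ≤ N / 8 := by
        have h4 : 8 * M ≤ N := by omega
        have h5 : 8 * (M : ℝ) ≤ N := by exact_mod_cast h4
        linarith
      have hNM : (N : ℝ) / 16 ≤ M := by
        have h4 : N ≤ 16 * M := by omega
        have h5 : (N : ℝ) ≤ 16 * M := by exact_mod_cast h4
        linarith
      have hlogM : Real.log N / 2 ≤ Real.log M := by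
        have h4 : Real.log (N / 16) ≤ Real.log M := Real.log_le_log (by positivity) hNM
        rw [Real.log_div (by positivity) (by norm_num)] at h4
        have h5 : Real.log 256 ≤ Real.log N := Real.log_le_log (by norm_num) h256R
        have h6 : Real.log 256 = 2 * Real.log 16 := by
          rw [show (256 : ℝ) = 16 ^ 2 by norm_num, Real.log_pow]
          norm_num
        linarith
      have h4 : (M : ℝ) / Real.log M ≤ (N / 8) / (Real.log N / 2) := by
        have : 0 < Real.log N / 2 := by linarith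
        gcongr
      have h5 : ((N : ℝ) / 8) / (Real.log N / 2) = 1 / 4 * (N / Real.log N) := by
        field_simp
        ring
      rw [h5] at h4
      have h6 : 0 ≤ (N : ℝ) / Real.log N := by positivity
      have h7 : (2 * B + 6) * ((M : ℝ) / Real.log M) ≤
          (2 * B + 6) * (1 / 4 * (N / Real.log N)) :=
        mul_le_mul_of_nonneg_left h4 (by positivity)
      nlinarith

end FSQ
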