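import Pool.Agent.FSQ.Defs

/-!
# FSQ-Hens: the smooth part of the modulus

Elements of a class in an interval, the Hensel argument at the primes dividing the class modulus and
the count of the pairs of triples modulo a smooth modulus.
-/

namespace FSQ

open Finset

/-- a class in an interval of length a multiple of the modulus -/
theorem res_card_dvd {Q : ℕ} (hQ : 0 < Q) (r lo : ℤ) (m : ℕ) :
    (res Q r lo (lo + Q * m)).card = m := by
  have hQ' : (0 : ℤ) < Q := by exact_mod_cast hQ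
  have h := Int.Ico_filter_modEq_card lo (lo + Q * m) hQ' r
  have h2 : (((lo + Q * m : ℤ) : ℚ) - (r : ℚ)) / ((Q : ℤ) : ℚ) =
      ((lo : ℚ) - (r : ℚ)) / ((Q : ℤ) : ℚ) + (m : ℚ) := by
    have h3 : (((Q : ℕ) : ℤ) : ℚ) ≠ 0 := by
      have : (Q : ℚ) ≠ 0 := Nat.cast_ne_zero.2 hQ.ne'
      simpa using this
    push_cast
    have h4 : (Q : ℚ) ≠ 0 := Nat.cast_ne_zero.2 hQ.ne'
    field_simp
    ring
  unfold res
  rw [h2, Int.ceil_add_natCast, add_sub_cancel_left, max_eq_left (Int.natCast_nonneg m)] at h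
  exact_mod_cast h

theorem hensel {Q g : ℕ} {ws xs as bs : ℤ} (c : Cls Q g ws xs as bs) {q : ℕ} (hq : 0 < q)
    (hs : ∀ p : ℕ, p.Prime → p ∣ q → p ∣ Q) {x1 x2 a b : ℤ} (h1 : x1 ≡ xs [ZMOD Q])
    (h2 : x2 ≡ xs [ZMOD Q]) (ha : a ≡ as [ZMOD Q]) (hb : b ≡ bs [ZMOD Q])
    (h : P x1 a b ≡ P x2 a b [ZMOD q]) : (q : ℤ) ∣ 2 * g * (x1 - x2) := by
  obtain ⟨V, hV, hVQ⟩ := c.cop
  obtain ⟨s1, e1⟩ := h1.symm.dvd
  obtain ⟨s2, e2⟩ := h2.symm.dvd
  obtain ⟨s3, e3⟩ := ha.symm.dvd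
  obtain ⟨s4, e4⟩ := hb.symm.dvd
  have h120 := c.Q120
  -- the cofactor of `2 g` in `Q`
  have h2g : 2 * g ∣ Q := by
    rcases c.hg with hg | hg <;> rw [hg]
    · exact (by norm_num : 2 * 1 ∣ 120).trans h120
    · exact (by norm_num : 2 * 2 ∣ 120).trans h120
  obtain ⟨Q', hQ'⟩ := h2g
  have hpQ : ∀ p : ℕ, p.Prime → p ∣ Q → p ∣ Q' := by
    intro p hp hpQ
    by_cases hp2 : p = 2
    · subst hp2
      obtain ⟨k, hk⟩ := (by norm_num : 8 ∣ 120).trans h120
      rcases c.hg with hg | hg <;> rw [hg] at hQ'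
      · exact ⟨2 * k, by omega⟩
      · exact ⟨k, by omega⟩
    · rw [hQ'] at hpQ
      rcases (Nat.Prime.dvd_mul hp).1 hpQ with h3 | h3
      · exfalso
        have h4 : p ∣ 2 ^ 2 := by
          refine h3.trans ?_
          rcases c.hg with hg | hg <;> rw [hg] <;> norm_num
        exact hp2 ((Nat.prime_dvd_prime_iff_eq hp Nat.prime_two).1 (hp.dvd_of_dvd_pow h4))
      · exact h3
  obtain ⟨T, hT⟩ : ∃ T, T = 9 * (s1 + s2) - 8 * as * s3 - 4 * Q * s3 ^ 2 - 8 * bs * s4 -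
    4 * Q * s4 ^ 2 := ⟨_, rfl⟩
  have hfac : 9 * (x1 + x2) - 4 * (a ^ 2 + b ^ 2) = 2 * g * (V + Q' * T) := by
    have ex1 : x1 = xs + Q * s1 := by linarith
    have ex2 : x2 = xs + Q * s2 := by linarith
    have ea : a = as + Q * s3 := by linarith
    have eb : b = bs + Q * s4 := by linarith
    have h3 : (2 : ℤ) * g * (V + Q' * T) = 2 * (g * V) + (Q : ℤ) * T := by
      rw [hQ']
      push_cast
      ring
    rw [h3, ← hV, hT, ex1, ex2, ea, eb]
    unfold U
    ring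
  have hcop : IsCoprime (q : ℤ) (V + Q' * T) := by
    rw [Int.isCoprime_iff_gcd_eq_one]
    by_contra hne
    obtain ⟨p, hp, hpd⟩ := Nat.exists_prime_and_dvd hne
    have hp1 : p ∣ q := by
      have := (Int.natCast_dvd_natCast.2 hpd).trans (Int.gcd_dvd_left (q : ℤ) (V + Q' * T))
      exact_mod_cast this
    have hp2 : (p : ℤ) ∣ V + Q' * T :=
      (Int.natCast_dvd_natCast.2 hpd).trans (Int.gcd_dvd_right (q : ℤ) (V + Q' * T))
    have hp3 := hs p hp hp1
    have hp4 : (p : ℤ) ∣ (Q' : ℤ) * T := (Int.natCast_dvd_natCast.2 (hpQ p hp hp3)).mul_right T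
    have hp5 : (p : ℤ) ∣ V := (Int.dvd_add_left hp4).1 hp2
    have hp6 := hVQ.isUnit_of_dvd' hp5 (Int.natCast_dvd_natCast.2 hp3)
    exact (Nat.prime_iff_prime_int.1 hp).not_isUnit hp6
  have h5 : (q : ℤ) ∣ (x1 - x2) * (9 * (x1 + x2) - 4 * (a ^ 2 + b ^ 2)) := by
    rw [← P_sub]
    exact h.symm.dvd
  rw [hfac] at h5
  have h6 : (x1 - x2) * (2 * g * (V + Q' * T)) = (2 * g * (x1 - x2)) * (V + Q' * T) := by ring
  rw [h6] at h5
  exact hcop.dvd_of_dvd_mul_right h5

private theorem hens_card_box {Q t : ℕ} (hQ : 0 < Q) (r : ℤ) :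
    (res Q r 0 ((2 * Q * (Q * t) : ℕ) : ℤ)).card = 2 * Q * t := by
  have h := res_card_dvd hQ r 0 (2 * Q * t)
  have h2 : (0 : ℤ) + Q * ((2 * Q * t : ℕ) : ℤ) = ((2 * Q * (Q * t) : ℕ) : ℤ) := by
    push_cast
    ring
  rwa [h2] at h

theorem smooth_card {Q g : ℕ} {ws xs as bs : ℤ} (c : Cls Q g ws xs as bs) {t : ℕ} (ht : 0 < t)
    (hs : ∀ p : ℕ, p.Prime → p ∣ t → p ∣ Q) (k : ℤ) :
    (pairs (2 * Q * (Q * t)) Q xs as bs k).card ≤ 2 * g * (2 * Q * t) ^ 5 := by
  classical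
  obtain ⟨q, hqd⟩ : ∃ q, q = 2 * Q * (Q * t) := ⟨_, rfl⟩
  have hQ := c.Q0
  have hq0 : 0 < q := by rw [hqd]; positivity
  have h2Q : 2 ∣ Q := (by norm_num : 2 ∣ 120).trans c.Q120
  have hsq : ∀ p : ℕ, p.Prime → p ∣ q → p ∣ Q := by
    intro p hp hpq
    rw [hqd] at hpq
    rcases (Nat.Prime.dvd_mul hp).1 hpq with h | h
    · rcases (Nat.Prime.dvd_mul hp).1 h with h | h
      · exact h.trans h2Q
      · exact h
    · rcases (Nat.Prime.dvd_mul hp).1 h with h | h
      · exact h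
      · exact hs p hp h
  have hg0 : 0 < g := by rcases c.hg with hg | hg <;> omega
  have h2g : 2 * g ∣ q := by
    rw [hqd]
    rcases c.hg with hg | hg <;> rw [hg]
    · exact Dvd.dvd.mul_right (by simp) _
    · exact Dvd.dvd.mul_right (mul_dvd_mul_left 2 h2Q) _
  obtain ⟨M, hM⟩ := h2g
  have hM0 : 0 < M := Nat.pos_of_ne_zero fun h => by rw [h, mul_zero] at hM; omega
  have hcb : (box Q xs as bs 0 q q).card = (2 * Q * t) * ((2 * Q * t) * (2 * Q * t)) := by
    unfold box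
    rw [card_product, card_product, zero_add, hqd, hens_card_box hQ, hens_card_box hQ,
      hens_card_box hQ]
  rw [← hqd]
  have key := card_le_mul_card_image (f := fun v : Tr × Tr => (v.1.2, v.2))
    (pairs q Q xs as bs k) (2 * g) ?_
  · refine key.trans ?_
    have h3 : (pairs q Q xs as bs k).image (fun v : Tr × Tr => (v.1.2, v.2)) ⊆
        (res Q as 0 q ×ˢ res Q bs 0 q) ×ˢ box Q xs as bs 0 q q := by
      intro y hy
      rw [mem_image] at hy
      obtain ⟨v, hv, rfl⟩ := hy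
      unfold pairs at hv
      rw [mem_filter, mem_product] at hv
      rw [mem_product]
      refine ⟨?_, hv.1.2⟩
      have h4 := hv.1.1
      unfold box at h4
      rw [mem_product] at h4
      exact h4.2
    have h4 := card_le_card h3
    rw [card_product, card_product, hcb, hqd, hens_card_box hQ, hens_card_box hQ, ← hqd] at h4
    calc 2 * g * ((pairs q Q xs as bs k).image (fun v : Tr × Tr => (v.1.2, v.2))).card
        ≤ 2 * g * ((2 * Q * t) * (2 * Q * t) * ((2 * Q * t) * ((2 * Q * t) * (2 * Q * t)))) :=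
          Nat.mul_le_mul_left _ h4
      _ = 2 * g * (2 * Q * t) ^ 5 := by ring
  · intro y hy
    rw [mem_image] at hy
    obtain ⟨v₀, hv₀, rfl⟩ := hy
    have hv₀' := hv₀
    unfold pairs at hv₀'
    rw [mem_filter, mem_product] at hv₀'
    have hb₀ := mem_box.1 hv₀'.1.1
    have hc : (res M v₀.1.1 0 (0 + M * (2 * g : ℕ))).card = 2 * g :=
      res_card_dvd hM0 v₀.1.1 0 (2 * g)
    rw [← hc]
    refine card_le_card_of_injOn (fun v : Tr × Tr => v.1.1) ?_ ?_
    · intro v hv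
      rw [mem_coe, mem_filter] at hv
      obtain ⟨hv1, hv2⟩ := hv
      unfold pairs at hv1
      rw [mem_filter, mem_product] at hv1
      have hb := mem_box.1 hv1.1.1
      have e1 : v.1.2 = v₀.1.2 := (Prod.ext_iff.1 hv2).1
      have e2 : v.2 = v₀.2 := (Prod.ext_iff.1 hv2).2
      rw [mem_coe, mem_res]
      refine ⟨⟨hb.1.1.1, ?_⟩, ?_⟩
      · refine hb.1.1.2.trans_le (le_of_eq ?_)
        rw [hM]
        push_cast
        ring
      · have h5 : P v.1.1 v₀.1.2.1 v₀.1.2.2 ≡ P v₀.1.1 v₀.1.2.1 v₀.1.2.2 [ZMOD q] := by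
          have h6 := hv1.2
          have h7 := hv₀'.2
          rw [e2] at h6
          have h8 : PP v.1 = P v.1.1 v₀.1.2.1 v₀.1.2.2 := by
            unfold PP
            rw [e1]
          rw [h8] at h6
          have h9 := h6.trans h7.symm
          have h10 := (Int.ModEq.refl (PP v₀.2)).sub h9
          rw [sub_sub_cancel, sub_sub_cancel] at h10
          exact h10
        have h6 := hensel c hq0 hsq hb.1.2 hb₀.1.2 hb₀.2.1.2 hb₀.2.2.2 h5
        rw [hM] at h6
        push_cast at h6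
        have h7 : (2 * (g : ℤ)) ≠ 0 := by positivity
        have h8 : (M : ℤ) ∣ v.1.1 - v₀.1.1 := by
          rw [mul_dvd_mul_iff_left h7] at h6
          exact h6
        exact (Int.modEq_iff_dvd.2 h8).symm
    · intro v hv v' hv' h
      rw [mem_coe, mem_filter] at hv hv'
      have e := hv.2.trans hv'.2.symm
      have e1 : v.1.2 = v'.1.2 := (Prod.ext_iff.1 e).1
      have e2 : v.2 = v'.2 := (Prod.ext_iff.1 e).2
      exact Prod.ext (Prod.ext h e1) e2

end FSQ
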