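import Pool.Agent.FSQ.Defs

/-!
# FSQ-Lat: lattice points

Number of the off-diagonal pairs: reduce all six coordinates modulo `q = 2 Q (Q ι)`, and bound every fibre
by the product of the numbers of values of the coordinates (arithmetic progressions in short intervals).
-/

namespace FSQ

open Finset

theorem card_le_of_ap (S : Finset ℤ) (q : ℕ) (hq : 0 < q) (r : ℤ) (hS : ∀ x ∈ S, x ≡ r [ZMOD q])
    (ℓ : ℝ) (hℓ : 0 ≤ ℓ) (h : ∀ x ∈ S, ∀ y ∈ S, (x : ℝ) - y ≤ ℓ) : (S.card : ℝ) ≤ ℓ / q + 1 := by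
  rcases S.eq_empty_or_nonempty with rfl | hne
  · simp only [card_empty, Nat.cast_zero]
    positivity
  · obtain ⟨m, hmS, hm⟩ : ∃ m ∈ S, ∀ x ∈ S, m ≤ x := ⟨S.min' hne, S.min'_mem hne, fun x hx => S.min'_le x hx⟩
    have hq' : (0 : ℝ) < q := by exact_mod_cast hq
    have hqz : (0 : ℤ) < q := by exact_mod_cast hq
    have hdvd : ∀ x ∈ S, (q : ℤ) ∣ x - m := by
      intro x hx
      have h1 : m ≡ x [ZMOD q] := (hS m hmS).trans (hS x hx).symm
      exact h1.dvd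
    have hcard : S.card ≤ (range (⌊ℓ / q⌋₊ + 1)).card := by
      apply card_le_card_of_injOn (fun x => ((x - m) / q).toNat)
      · intro x hx
        have hx : x ∈ S := hx
        obtain ⟨j, hj⟩ := hdvd x hx
        have hj0 : 0 ≤ j := by
          have := hm x hx
          have h2 : 0 ≤ (q : ℤ) * j := by omega
          exact nonneg_of_mul_nonneg_right h2 hqz
        have he : (x - m) / q = j := by
          rw [hj]
          exact Int.mul_ediv_cancel_left _ (ne_of_gt hqz)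
        simp only [coe_range, Set.mem_Iio, he]
        rw [Nat.lt_succ_iff]
        apply Nat.le_floor
        rw [le_div_iff₀ hq']
        have h3 : (((j.toNat : ℕ) : ℤ) : ℝ) = (j : ℝ) := by rw [Int.toNat_of_nonneg hj0]
        have h4 : ((j.toNat : ℕ) : ℝ) = (j : ℝ) := by rw [← h3]; norm_cast
        rw [h4]
        have h5 : (x : ℝ) - m = q * j := by exact_mod_cast hj
        have h6 := h x hx m hmS
        nlinarith
      · intro x hx y hy hxy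
        have hx : x ∈ S := hx
        have hy : y ∈ S := hy
        obtain ⟨j, hj⟩ := hdvd x hx
        obtain ⟨k, hk⟩ := hdvd y hy
        have hj0 : 0 ≤ j := by
          have := hm x hx
          have h2 : 0 ≤ (q : ℤ) * j := by omega
          exact nonneg_of_mul_nonneg_right h2 hqz
        have hk0 : 0 ≤ k := by
          have := hm y hy
          have h2 : 0 ≤ (q : ℤ) * k := by omega
          exact nonneg_of_mul_nonneg_right h2 hqz
        have he : (x - m) / q = j := by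
          rw [hj]
          exact Int.mul_ediv_cancel_left _ (ne_of_gt hqz)
        have hf : (y - m) / q = k := by
          rw [hk]
          exact Int.mul_ediv_cancel_left _ (ne_of_gt hqz)
        have hjk : j = k := by
          have h1 : ((x - m) / q).toNat = ((y - m) / q).toNat := hxy
          rw [he, hf] at h1
          omega
        subst hjk
        omega
    rw [card_range] at hcard
    have h1 : (S.card : ℝ) ≤ (⌊ℓ / q⌋₊ : ℝ) + 1 := by exact_mod_cast hcard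
    have h2 : (⌊ℓ / q⌋₊ : ℝ) ≤ ℓ / q := Nat.floor_le (by positivity)
    linarith

private theorem Lat_fib {α β : Type} [DecidableEq β] (S : Finset α) (f : α → β) (k m : ℝ)
    (hm : 0 ≤ m) (hT : ((S.image f).card : ℝ) ≤ k)
    (h : ∀ t, ((S.filter (fun s => f s = t)).card : ℝ) ≤ m) : (S.card : ℝ) ≤ k * m := by
  have h1 : S.card = ∑ t ∈ S.image f, (S.filter (fun s => f s = t)).card :=
    card_eq_sum_card_fiberwise (fun s hs => mem_image_of_mem f hs)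
  rw [h1]
  push_cast
  calc ∑ t ∈ S.image f, ((S.filter (fun s => f s = t)).card : ℝ) ≤ ∑ _t ∈ S.image f, m :=
        sum_le_sum (fun t _ => h t)
    _ = (S.image f).card * m := by rw [sum_const, nsmul_eq_mul]
    _ ≤ k * m := mul_le_mul_of_nonneg_right hT hm

private theorem Lat_P_le {X D A x a b : ℤ} (hX : 0 < X) (hx : X ≤ x) (hx' : x < X + D)
    (ha : 0 ≤ a) (ha' : a < A) (hb : 0 ≤ b) (hb' : b < A) :
    P x a b ≤ 9 * (X + D) ^ 2 + 2 * A ^ 4 := by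
  have h1 : P x a b = 9 * x ^ 2 - 4 * (a ^ 2 + b ^ 2) * x + a ^ 4 + b ^ 4 := by
    unfold P
    ring
  have h2 : x ^ 2 ≤ (X + D) ^ 2 := pow_le_pow_left₀ (by omega) (by omega) 2
  have h3 : a ^ 4 ≤ A ^ 4 := pow_le_pow_left₀ ha (by omega) 4
  have h4 : b ^ 4 ≤ A ^ 4 := pow_le_pow_left₀ hb (by omega) 4
  have h5 : 0 ≤ 4 * (a ^ 2 + b ^ 2) * x := by
    have : 0 ≤ x := by omega
    positivity
  linarith

private theorem Lat_le_P {X D A x a b : ℤ} (hX : 0 < X) (hx : X ≤ x) (hx' : x < X + D)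
    (ha : 0 ≤ a) (ha' : a < A) (hb : 0 ≤ b) (hb' : b < A) :
    9 * x ^ 2 - 8 * A ^ 2 * (X + D) ≤ P x a b := by
  have h1 : P x a b = 9 * x ^ 2 - 4 * (a ^ 2 + b ^ 2) * x + a ^ 4 + b ^ 4 := by
    unfold P
    ring
  have h2 : a ^ 2 ≤ A ^ 2 := pow_le_pow_left₀ ha (by omega) 2
  have h3 : b ^ 2 ≤ A ^ 2 := pow_le_pow_left₀ hb (by omega) 2
  have h4 : 0 ≤ a ^ 4 := by positivity
  have h5 : 0 ≤ b ^ 4 := by positivity
  have h6 : (a ^ 2 + b ^ 2) * x ≤ (2 * A ^ 2) * (X + D) := by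
    apply mul_le_mul (by linarith) (by omega) (by omega) (by positivity)
  nlinarith

private theorem Lat_mem_offd {Q : ℕ} {ws xs as bs X D A S1 dS : ℤ} {i : ℤ} {v : Tr × Tr} :
    v ∈ offd Q ws xs as bs X D A S1 dS i ↔
      (v.1 ∈ box Q xs as bs X D A ∧ v.2 ∈ box Q xs as bs X D A) ∧
        ∃ s : ℤ, S1 ≤ s ∧ s < S1 + dS ∧ s ≡ 2 * ws + i [ZMOD (2 * Q : ℕ)] ∧
          PP v.2 - PP v.1 = i * s := by
  classical
  unfold offd
  rw [mem_filter, mem_product]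

private theorem Lat_mem {Q : ℕ} {ws xs as bs X D A S1 dS : ℤ} {i : ℤ} {v : Tr × Tr} (hi : 0 ≤ i)
    (hX : 0 < X) (hv : v ∈ offd Q ws xs as bs X D A S1 dS i) :
    v.1 ∈ box Q xs as bs X D A ∧ v.2 ∈ box Q xs as bs X D A ∧
      9 * (v.1.1 ^ 2 - X ^ 2) ≤ cc X D A - i * S1 := by
  rw [Lat_mem_offd] at hv
  obtain ⟨⟨h1, h2⟩, s, hs1, hs2, hs3, hs4⟩ := hv
  refine ⟨h1, h2, ?_⟩
  rw [mem_box] at h1 h2
  obtain ⟨⟨⟨ax, ax'⟩, -⟩, ⟨⟨aa, aa'⟩, -⟩, ⟨ab, ab'⟩, -⟩ := h1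
  obtain ⟨⟨⟨bx, bx'⟩, -⟩, ⟨⟨ba, ba'⟩, -⟩, ⟨bb, bb'⟩, -⟩ := h2
  have e1 : PP v.2 ≤ 9 * (X + D) ^ 2 + 2 * A ^ 4 := Lat_P_le hX bx bx' ba ba' bb bb'
  have e2 : 9 * v.1.1 ^ 2 - 8 * A ^ 2 * (X + D) ≤ PP v.1 := Lat_le_P hX ax ax' aa aa' ab ab'
  have e3 : i * S1 ≤ i * s := mul_le_mul_of_nonneg_left hs1 hi
  unfold cc
  linarith

theorem offd_empty {Q : ℕ} {ws xs as bs X D A S1 dS : ℤ} {ι : ℕ} (hX : 0 < X) (hD : 0 ≤ D)
    (hA : 0 ≤ A) (hc : cc X D A < (Q : ℤ) * ι * S1) :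
    offd Q ws xs as bs X D A S1 dS (Q * ι) = ∅ := by
  rw [eq_empty_iff_forall_notMem]
  intro v hv
  have hi : (0 : ℤ) ≤ (Q : ℤ) * ι := by positivity
  obtain ⟨h1, -, h3⟩ := Lat_mem hi hX hv
  rw [mem_box] at h1
  have h4 : X ^ 2 ≤ v.1.1 ^ 2 := pow_le_pow_left₀ (by omega) h1.1.1.1 2
  linarith

private theorem Lat_emod_class {Q q : ℕ} (hQq : (Q : ℤ) ∣ q) {x r : ℤ} (h : x ≡ r [ZMOD Q]) :
    x % (q : ℤ) ≡ r [ZMOD Q] := by
  have h1 : x % (q : ℤ) ≡ x [ZMOD q] := Int.mod_modEq x q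
  exact (h1.of_dvd hQq).trans h

private theorem Lat_P_emod (q : ℤ) (x a b : ℤ) : P (x % q) (a % q) (b % q) ≡ P x a b [ZMOD q] := by
  have hx : x % q ≡ x [ZMOD q] := Int.mod_modEq x q
  have ha : a % q ≡ a [ZMOD q] := Int.mod_modEq a q
  have hb : b % q ≡ b [ZMOD q] := Int.mod_modEq b q
  unfold P
  have h1 : (x % q) ^ 2 ≡ x ^ 2 [ZMOD q] := hx.pow 2
  have h2 : ((a % q) ^ 2 - 2 * (x % q)) ^ 2 ≡ (a ^ 2 - 2 * x) ^ 2 [ZMOD q] :=
    ((ha.pow 2).sub (hx.mul_left 2)).pow 2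
  have h3 : ((b % q) ^ 2 - 2 * (x % q)) ^ 2 ≡ (b ^ 2 - 2 * x) ^ 2 [ZMOD q] :=
    ((hb.pow 2).sub (hx.mul_left 2)).pow 2
  exact (h1.add h2).add h3

/-- reduction of all six coordinates -/
private def Lat_red (q : ℤ) (v : Tr × Tr) : Tr × Tr :=
  ((v.1.1 % q, v.1.2.1 % q, v.1.2.2 % q), (v.2.1 % q, v.2.2.1 % q, v.2.2.2 % q))

private theorem Lat_red_mem {Q : ℕ} (hQ : 0 < Q) {ws xs as bs X D A S1 dS : ℤ} {ι : ℕ} (hι : 0 < ι)
    {v : Tr × Tr} (hv : v ∈ offd Q ws xs as bs X D A S1 dS (Q * ι)) :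
    Lat_red ((2 * Q * (Q * ι) : ℕ) : ℤ) v ∈
      pairs (2 * Q * (Q * ι)) Q xs as bs ((Q * ι : ℤ) * (2 * ws + Q * ι)) := by
  rw [Lat_mem_offd] at hv
  obtain ⟨⟨h1, h2⟩, s, hs1, hs2, hs3, hs4⟩ := hv
  rw [mem_box] at h1 h2
  obtain ⟨⟨-, cx⟩, ⟨-, ca⟩, -, cb⟩ := h1
  obtain ⟨⟨-, dx⟩, ⟨-, da⟩, -, db⟩ := h2
  have hq : 0 < 2 * Q * (Q * ι) := by positivity
  have hqz : (0 : ℤ) < ((2 * Q * (Q * ι) : ℕ) : ℤ) := by exact_mod_cast hq
  have hQq : (Q : ℤ) ∣ ((2 * Q * (Q * ι) : ℕ) : ℤ) := by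
    push_cast
    exact ⟨2 * (Q * ι), by ring⟩
  unfold pairs
  rw [mem_filter, mem_product, mem_box, mem_box]
  have hlt : ∀ x : ℤ, 0 ≤ x % ((2 * Q * (Q * ι) : ℕ) : ℤ) ∧
      x % ((2 * Q * (Q * ι) : ℕ) : ℤ) < ((2 * Q * (Q * ι) : ℕ) : ℤ) :=
    fun x => ⟨Int.emod_nonneg _ (ne_of_gt hqz), Int.emod_lt_of_pos _ hqz⟩
  refine ⟨⟨⟨⟨⟨(hlt _).1, ?_⟩, Lat_emod_class hQq cx⟩, ⟨hlt _, Lat_emod_class hQq ca⟩,
    hlt _, Lat_emod_class hQq cb⟩, ⟨⟨(hlt _).1, ?_⟩, Lat_emod_class hQq dx⟩,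
    ⟨hlt _, Lat_emod_class hQq da⟩, hlt _, Lat_emod_class hQq db⟩, ?_⟩
  · rw [zero_add]
    exact (hlt _).2
  · rw [zero_add]
    exact (hlt _).2
  · have e1 : PP (Lat_red ((2 * Q * (Q * ι) : ℕ) : ℤ) v).2 ≡ PP v.2
        [ZMOD ((2 * Q * (Q * ι) : ℕ) : ℤ)] := Lat_P_emod _ _ _ _
    have e2 : PP (Lat_red ((2 * Q * (Q * ι) : ℕ) : ℤ) v).1 ≡ PP v.1
        [ZMOD ((2 * Q * (Q * ι) : ℕ) : ℤ)] := Lat_P_emod _ _ _ _
    refine (e1.sub e2).trans ?_
    rw [hs4]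
    obtain ⟨t, ht⟩ := hs3.dvd
    have h5 : s = 2 * ws + Q * ι - (2 * Q : ℕ) * t := by linarith
    rw [h5]
    apply Int.modEq_of_dvd
    push_cast
    exact ⟨t, by ring⟩

/-- the five coordinates `(a, b, a', b', x)` -/
private def Lat_g (v : Tr × Tr) : (ℤ × ℤ) × (ℤ × ℤ) × ℤ :=
  ((v.1.2.1, v.1.2.2), (v.2.2.1, v.2.2.2), v.1.1)

theorem offd_card {Q : ℕ} (hQ : 0 < Q) {ws xs as bs X D A S1 dS : ℤ} {ι : ℕ} (hι : 0 < ι)
    (hX : 0 < X) (hD : 0 ≤ D) (hA : 0 ≤ A) (hdS : 0 ≤ dS) {κ : ℝ}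
    (hκ : 8 * (A : ℝ) ^ 2 ≤ 18 * X * κ) (hκ1 : κ < 1) (hc : (Q : ℤ) * ι * S1 ≤ cc X D A) :
    ((offd Q ws xs as bs X D A S1 dS (Q * ι)).card : ℝ) ≤
      (pairs (2 * Q * (Q * ι)) Q xs as bs ((Q * ι : ℤ) * (2 * ws + Q * ι))).card *
        ((A : ℝ) / (2 * Q * (Q * ι)) + 1) ^ 4 *
        (((cc X D A : ℝ) - Q * ι * S1) / (18 * X * (2 * Q * (Q * ι))) + 1) *
        ((Q * ι * dS : ℝ) / (18 * X * (1 - κ) * (2 * Q * (Q * ι))) + 1) := by
  have hq : 0 < 2 * Q * (Q * ι) := by positivity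
  have hqr : (0 : ℝ) < 2 * Q * (Q * ι) := by exact_mod_cast hq
  have hXr : (0 : ℝ) < X := by exact_mod_cast hX
  have hAr : (0 : ℝ) ≤ A := by exact_mod_cast hA
  have hdr : (0 : ℝ) ≤ dS := by exact_mod_cast hdS
  have hi : (0 : ℤ) ≤ (Q : ℤ) * ι := by positivity
  have hir : (0 : ℝ) ≤ (Q : ℝ) * ι := by positivity
  have hκ' : 0 < 1 - κ := by linarith
  have hcr : (0 : ℝ) ≤ (cc X D A : ℝ) - Q * ι * S1 := by
    have : ((Q : ℤ) * ι * S1 : ℤ) ≤ cc X D A := hc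
    have h2 : (((Q : ℤ) * ι * S1 : ℤ) : ℝ) ≤ (cc X D A : ℝ) := by exact_mod_cast this
    push_cast at h2
    linarith
  have hA1 : (0 : ℝ) ≤ (A : ℝ) / (2 * Q * (Q * ι)) + 1 := by positivity
  have hL1 : (0 : ℝ) ≤ ((cc X D A : ℝ) - Q * ι * S1) / (18 * X * (2 * Q * (Q * ι))) + 1 := by
    have := div_nonneg hcr (by positivity : (0 : ℝ) ≤ 18 * X * (2 * Q * (Q * ι)))
    linarith
  have hL2 : (0 : ℝ) ≤ (Q * ι * dS : ℝ) / (18 * X * (1 - κ) * (2 * Q * (Q * ι))) + 1 := by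
    have := div_nonneg (mul_nonneg hir hdr)
      (by positivity : (0 : ℝ) ≤ 18 * X * (1 - κ) * (2 * Q * (Q * ι)))
    linarith
  rw [mul_assoc, mul_assoc]
  set S := offd Q ws xs as bs X D A S1 dS (Q * ι) with hSdef
  apply Lat_fib S (Lat_red ((2 * Q * (Q * ι) : ℕ) : ℤ))
  · positivity
  · have hsub : S.image (Lat_red ((2 * Q * (Q * ι) : ℕ) : ℤ)) ⊆
        pairs (2 * Q * (Q * ι)) Q xs as bs ((Q * ι : ℤ) * (2 * ws + Q * ι)) := by
      intro w hw
      rw [mem_image] at hw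
      obtain ⟨v, hv, rfl⟩ := hw
      exact Lat_red_mem hQ hι hv
    exact_mod_cast card_le_card hsub
  · intro t
    set F' := S.filter (fun s => Lat_red ((2 * Q * (Q * ι) : ℕ) : ℤ) s = t) with hF
    rw [← mul_assoc]
    -- class modulo q of all coordinates
    have hcls : ∀ v ∈ F', v ∈ S ∧ v.1.1 ≡ t.1.1 [ZMOD ((2 * Q * (Q * ι) : ℕ) : ℤ)] ∧
        v.1.2.1 ≡ t.1.2.1 [ZMOD ((2 * Q * (Q * ι) : ℕ) : ℤ)] ∧
        v.1.2.2 ≡ t.1.2.2 [ZMOD ((2 * Q * (Q * ι) : ℕ) : ℤ)] ∧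
        v.2.1 ≡ t.2.1 [ZMOD ((2 * Q * (Q * ι) : ℕ) : ℤ)] ∧
        v.2.2.1 ≡ t.2.2.1 [ZMOD ((2 * Q * (Q * ι) : ℕ) : ℤ)] ∧
        v.2.2.2 ≡ t.2.2.2 [ZMOD ((2 * Q * (Q * ι) : ℕ) : ℤ)] := by
      intro v hv
      rw [hF, mem_filter] at hv
      obtain ⟨hvS, hvt⟩ := hv
      rw [← hvt]
      exact ⟨hvS, (Int.mod_modEq _ _).symm, (Int.mod_modEq _ _).symm, (Int.mod_modEq _ _).symm,
        (Int.mod_modEq _ _).symm, (Int.mod_modEq _ _).symm, (Int.mod_modEq _ _).symm⟩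
    have hbox : ∀ v ∈ F', v.1 ∈ box Q xs as bs X D A ∧ v.2 ∈ box Q xs as bs X D A ∧
        9 * (v.1.1 ^ 2 - X ^ 2) ≤ cc X D A - (Q * ι) * S1 := fun v hv =>
      Lat_mem hi hX (hcls v hv).1
    have hqc : (((2 * Q * (Q * ι) : ℕ) : ℕ) : ℝ) = 2 * Q * (Q * ι) := by push_cast; ring
    -- the values of a coordinate in [0, A)
    have hval : ∀ (c : Tr × Tr → ℤ) (r : ℤ), (∀ v ∈ F', c v ≡ r [ZMOD ((2 * Q * (Q * ι) : ℕ) : ℤ)]) →
        (∀ v ∈ F', 0 ≤ c v ∧ c v < A) →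
        ((F'.image c).card : ℝ) ≤ (A : ℝ) / (2 * Q * (Q * ι)) + 1 := by
      intro c r h1 h2
      have h3 := card_le_of_ap (F'.image c) (2 * Q * (Q * ι)) hq r ?_ (A : ℝ) hAr ?_
      · rw [hqc] at h3
        exact h3
      · intro x hx
        rw [mem_image] at hx
        obtain ⟨v, hv, rfl⟩ := hx
        exact h1 v hv
      · intro x hx y hy
        rw [mem_image] at hx hy
        obtain ⟨v, hv, rfl⟩ := hx
        obtain ⟨w, hw, rfl⟩ := hy
        have e1 : ((c v : ℤ) : ℝ) < A := by exact_mod_cast (h2 v hv).2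
        have e2 : (0 : ℝ) ≤ ((c w : ℤ) : ℝ) := by exact_mod_cast (h2 w hw).1
        linarith
    have ka := hval (fun v => v.1.2.1) t.1.2.1 (fun v hv => (hcls v hv).2.2.1)
      (fun v hv => (mem_box.1 (hbox v hv).1).2.1.1)
    have kb := hval (fun v => v.1.2.2) t.1.2.2 (fun v hv => (hcls v hv).2.2.2.1)
      (fun v hv => (mem_box.1 (hbox v hv).1).2.2.1)
    have ka' := hval (fun v => v.2.2.1) t.2.2.1 (fun v hv => (hcls v hv).2.2.2.2.2.1)
      (fun v hv => (mem_box.1 (hbox v hv).2.1).2.1.1)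
    have kb' := hval (fun v => v.2.2.2) t.2.2.2 (fun v hv => (hcls v hv).2.2.2.2.2.2)
      (fun v hv => (mem_box.1 (hbox v hv).2.1).2.2.1)
    have kx : ((F'.image (fun v => v.1.1)).card : ℝ) ≤
        ((cc X D A : ℝ) - Q * ι * S1) / (18 * X * (2 * Q * (Q * ι))) + 1 := by
      have h3 := card_le_of_ap (F'.image (fun v => v.1.1)) (2 * Q * (Q * ι)) hq t.1.1 ?_
        (((cc X D A : ℝ) - Q * ι * S1) / (18 * X)) (div_nonneg hcr (by positivity)) ?_
      · rw [hqc, div_div] at h3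
        exact h3
      · intro x hx
        rw [mem_image] at hx
        obtain ⟨v, hv, rfl⟩ := hx
        exact (hcls v hv).2.1
      · intro x hx y hy
        rw [mem_image] at hx hy
        obtain ⟨v, hv, rfl⟩ := hx
        obtain ⟨w, hw, rfl⟩ := hy
        have e1 := (hbox v hv).2.2
        have e2 : X ≤ w.1.1 := (mem_box.1 (hbox w hw).1).1.1.1
        have e3 : X ≤ v.1.1 := (mem_box.1 (hbox v hv).1).1.1.1
        have e4 : (9 * ((v.1.1 : ℝ) ^ 2 - X ^ 2)) ≤ (cc X D A : ℝ) - Q * ι * S1 := by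
          exact_mod_cast e1
        have e5 : (X : ℝ) ≤ w.1.1 := by exact_mod_cast e2
        have e6 : (X : ℝ) ≤ v.1.1 := by exact_mod_cast e3
        rw [le_div_iff₀ (by positivity)]
        have e7 : ((v.1.1 : ℝ) - w.1.1) * (18 * X) ≤ ((v.1.1 : ℝ) - X) * (18 * X) :=
          mul_le_mul_of_nonneg_right (by linarith) (by positivity)
        have e8 : ((v.1.1 : ℝ) - X) * (18 * X) ≤ 9 * ((v.1.1 : ℝ) ^ 2 - X ^ 2) := by nlinarith
        linarith
    apply Lat_fib F' Lat_g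
    · exact hL2
    · have hsub : F'.image Lat_g ⊆ ((F'.image (fun v => v.1.2.1)) ×ˢ (F'.image (fun v => v.1.2.2))) ×ˢ
          (((F'.image (fun v => v.2.2.1)) ×ˢ (F'.image (fun v => v.2.2.2))) ×ˢ
            (F'.image (fun v => v.1.1))) := by
        intro w hw
        rw [mem_image] at hw
        obtain ⟨v, hv, rfl⟩ := hw
        rw [mem_product, mem_product, mem_product, mem_product]
        exact ⟨⟨mem_image_of_mem _ hv, mem_image_of_mem _ hv⟩,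
          ⟨mem_image_of_mem _ hv, mem_image_of_mem _ hv⟩, mem_image_of_mem _ hv⟩
      have h1 := card_le_card hsub
      rw [card_product, card_product, card_product, card_product] at h1
      have h2 : ((F'.image Lat_g).card : ℝ) ≤
          ((F'.image (fun v => v.1.2.1)).card * (F'.image (fun v => v.1.2.2)).card) *
          (((F'.image (fun v => v.2.2.1)).card * (F'.image (fun v => v.2.2.2)).card) *
            (F'.image (fun v => v.1.1)).card) := by exact_mod_cast h1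
      refine h2.trans ?_
      have hprod : ((F'.image (fun v => v.1.2.1)).card * (F'.image (fun v => v.1.2.2)).card : ℝ) ≤
          ((A : ℝ) / (2 * Q * (Q * ι)) + 1) * ((A : ℝ) / (2 * Q * (Q * ι)) + 1) :=
        mul_le_mul ka kb (by positivity) hA1
      have hprod' : ((F'.image (fun v => v.2.2.1)).card * (F'.image (fun v => v.2.2.2)).card : ℝ) ≤
          ((A : ℝ) / (2 * Q * (Q * ι)) + 1) * ((A : ℝ) / (2 * Q * (Q * ι)) + 1) :=
        mul_le_mul ka' kb' (by positivity) hA1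
      calc _ ≤ (((A : ℝ) / (2 * Q * (Q * ι)) + 1) * ((A : ℝ) / (2 * Q * (Q * ι)) + 1)) *
            ((((A : ℝ) / (2 * Q * (Q * ι)) + 1) * ((A : ℝ) / (2 * Q * (Q * ι)) + 1)) *
              (((cc X D A : ℝ) - Q * ι * S1) / (18 * X * (2 * Q * (Q * ι))) + 1)) := by
            apply mul_le_mul hprod _ (by positivity) (by positivity)
            exact mul_le_mul hprod' kx (by positivity) (by positivity)
        _ = _ := by ring
    · intro g
      set G := F'.filter (fun s => Lat_g s = g) with hG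
      have hinj : G.card = (G.image (fun v => v.2.1)).card := by
        symm
        apply card_image_of_injOn
        intro v hv w hw hvw
        have hv : v ∈ G := hv
        have hw : w ∈ G := hw
        rw [hG, mem_filter] at hv hw
        have h1 : Lat_g v = Lat_g w := hv.2.trans hw.2.symm
        unfold Lat_g at h1
        obtain ⟨⟨v1, v2, v3⟩, v4, v5, v6⟩ := v
        obtain ⟨⟨w1, w2, w3⟩, w4, w5, w6⟩ := w
        simp only [Prod.mk.injEq] at h1 hvw ⊢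
        obtain ⟨⟨h2, h3⟩, ⟨h4, h5⟩, h6⟩ := h1
        exact ⟨⟨h6, h2, h3⟩, hvw, h4, h5⟩
      rw [hinj]
      have h3 := card_le_of_ap (G.image (fun v => v.2.1)) (2 * Q * (Q * ι)) hq t.2.1 ?_
        ((Q * ι * dS : ℝ) / (18 * X * (1 - κ))) (div_nonneg (mul_nonneg hir hdr) (by positivity)) ?_
      · rw [hqc, div_div] at h3
        exact h3
      · intro x hx
        rw [mem_image] at hx
        obtain ⟨v, hv, rfl⟩ := hx
        rw [hG, mem_filter] at hv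
        exact (hcls v hv.1).2.2.2.2.1
      · intro x hx y hy
        rw [mem_image] at hx hy
        obtain ⟨v, hv, rfl⟩ := hx
        obtain ⟨w, hw, rfl⟩ := hy
        rw [hG, mem_filter] at hv hw
        have h1 : Lat_g v = Lat_g w := hv.2.trans hw.2.symm
        have hvS := (hcls v hv.1).1
        have hwS := (hcls w hw.1).1
        have hvb := mem_box.1 (hbox v hv.1).2.1
        have hwb := mem_box.1 (hbox w hw.1).2.1
        rw [hSdef] at hvS hwS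
        rw [Lat_mem_offd] at hvS hwS
        obtain ⟨-, s, s1, s2, -, s4⟩ := hvS
        obtain ⟨-, r, r1, r2, -, r4⟩ := hwS
        have hb1 : v.2.2.1 < A := hvb.2.1.1.2
        have hb0 : 0 ≤ v.2.2.1 := hvb.2.1.1.1
        have hb1' : v.2.2.2 < A := hvb.2.2.1.2
        have hb0' : 0 ≤ v.2.2.2 := hvb.2.2.1.1
        have hvX : X ≤ v.2.1 := hvb.1.1.1
        have hwX : X ≤ w.2.1 := hwb.1.1.1
        unfold Lat_g at h1
        simp only [Prod.mk.injEq] at h1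
        obtain ⟨⟨h2, h3⟩, ⟨h4, h5⟩, h6⟩ := h1
        have hP1 : PP v.1 = PP w.1 := by
          unfold PP
          rw [h2, h3, h6]
        have hP2 : PP v.2 - PP w.2 =
            (v.2.1 - w.2.1) * (9 * (v.2.1 + w.2.1) - 4 * (v.2.2.1 ^ 2 + v.2.2.2 ^ 2)) := by
          unfold PP
          rw [← h4, ← h5]
          exact P_sub _ _ _ _
        have hlt : PP v.2 - PP w.2 ≤ Q * ι * dS := by
          have e1 : PP v.2 - PP w.2 = Q * ι * (s - r) := by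
            rw [hP1] at s4
            linarith
          rw [e1]
          exact mul_le_mul_of_nonneg_left (by omega) hi
        rw [hP2] at hlt
        have ha2 : v.2.2.1 ^ 2 ≤ A ^ 2 := pow_le_pow_left₀ hb0 (by omega) 2
        have hb2 : v.2.2.2 ^ 2 ≤ A ^ 2 := pow_le_pow_left₀ hb0' (by omega) 2
        have hltr : ((v.2.1 : ℝ) - w.2.1) * (9 * (v.2.1 + w.2.1) - 4 * (v.2.2.1 ^ 2 + v.2.2.2 ^ 2)) ≤
            Q * ι * dS := by exact_mod_cast hlt
        have ha2r : ((v.2.2.1 : ℝ)) ^ 2 ≤ (A : ℝ) ^ 2 := by exact_mod_cast ha2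
        have hb2r : ((v.2.2.2 : ℝ)) ^ 2 ≤ (A : ℝ) ^ 2 := by exact_mod_cast hb2
        have hvXr : (X : ℝ) ≤ v.2.1 := by exact_mod_cast hvX
        have hwXr : (X : ℝ) ≤ w.2.1 := by exact_mod_cast hwX
        have hfac : 18 * X * (1 - κ) ≤
            (9 * ((v.2.1 : ℝ) + w.2.1) - 4 * ((v.2.2.1 : ℝ) ^ 2 + (v.2.2.2 : ℝ) ^ 2)) := by
          nlinarith
        have hpos : 0 < 18 * X * (1 - κ) := by positivity
        rw [le_div_iff₀ hpos]
        rcases le_or_gt ((v.2.1 : ℝ) - w.2.1) 0 with hneg | hposd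
        · have h7 : ((v.2.1 : ℝ) - w.2.1) * (18 * X * (1 - κ)) ≤ 0 :=
            mul_nonpos_of_nonpos_of_nonneg hneg hpos.le
          have h8 : (0 : ℝ) ≤ Q * ι * dS := mul_nonneg hir hdr
          linarith
        · have h7 : ((v.2.1 : ℝ) - w.2.1) * (18 * X * (1 - κ)) ≤
              ((v.2.1 : ℝ) - w.2.1) * (9 * ((v.2.1 : ℝ) + w.2.1) -
                4 * ((v.2.2.1 : ℝ) ^ 2 + (v.2.2.2 : ℝ) ^ 2)) :=
            mul_le_mul_of_nonneg_left hfac hposd.le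
          linarith

end FSQ
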