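import Pool.Agent.FSQ.Defs

/-!
# FSQ-SumS: the average of the local factor

The sum of `fr Q ι * (c - ι d)_+` over `1 ≤ ι ≤ I` is at most `exp (8 / L) c² / (2 d)`, if all
primes up to `L` divide `Q`: the sum of `(c - ι d)_+` telescopes, and the factor at each further
prime `p` multiplies the bound by at most `1 + 8 / p²`.
-/

namespace FSQ

open Finset

private theorem sum_base (c d : ℝ) (hc : 0 ≤ c) (hd : 0 < d) (I : ℕ) :
    ∑ ι ∈ Icc 1 I, max (c - (ι : ℝ) * d) 0 ≤
      (c ^ 2 - (max (c - (I : ℝ) * d) 0) ^ 2) / (2 * d) := by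
  induction I with
  | zero =>
    have : max (c - ((0 : ℕ) : ℝ) * d) 0 = c := by
      simp [hc]
    rw [this]
    simp
  | succ n ih =>
    rw [Finset.sum_Icc_succ_top (by omega)]
    refine (add_le_add_left ih _).trans ?_
    rw [div_add' _ _ _ (by positivity), div_le_div_iff_of_pos_right (by positivity)]
    have h1 : c - ((n + 1 : ℕ) : ℝ) * d = (c - (n : ℝ) * d) - d := by
      push_cast
      ring
    rw [h1]
    set u := c - (n : ℝ) * d with hu
    rcases le_total (u - d) 0 with h | h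
    · rw [max_eq_right h]
      nlinarith [sq_nonneg (max u 0)]
    · rw [max_eq_left h, max_eq_left (by linarith : (0 : ℝ) ≤ u)]
      nlinarith

private theorem sum_pow_le (x : ℝ) (hx : 0 ≤ x) (hx2 : x ≤ 1 / 2) (I : ℕ) :
    ∑ e ∈ Icc 1 I, x ^ e ≤ 2 * x * (1 - (1 / 2) ^ I) := by
  induction I with
  | zero => simp
  | succ n ih =>
    rw [Finset.sum_Icc_succ_top (by omega)]
    have h1 : x ^ n ≤ (1 / 2) ^ n := pow_le_pow_left₀ hx hx2 n
    have h2 : x ^ (n + 1) ≤ x * (1 / 2) ^ n := by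
      rw [pow_succ, mul_comm]
      exact mul_le_mul_of_nonneg_left h1 hx
    have h3 : 2 * x * (1 - (1 / 2) ^ (n + 1)) = 2 * x * (1 - (1 / 2) ^ n) + x * (1 / 2) ^ n := by
      rw [pow_succ]
      ring
    rw [h3]
    linarith

private theorem fact_card (p ι I : ℕ) (hp : p.Prime) (h1 : 1 ≤ ι) (hI : ι ≤ I) :
    (ι.factorization p : ℝ) = ∑ e ∈ Icc 1 I, if p ^ e ∣ ι then (1 : ℝ) else 0 := by
  rw [← Finset.sum_filter, Finset.sum_const, nsmul_eq_mul, mul_one]
  congr 1
  have : (Icc 1 I).filter (fun e => p ^ e ∣ ι) = Icc 1 (ι.factorization p) := by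
    ext e
    simp only [mem_filter, mem_Icc]
    rw [hp.pow_dvd_iff_le_factorization (by omega)]
    have := Nat.factorization_lt p (n := ι) (by omega)
    omega
  rw [this]
  simp

private noncomputable def G (S : Finset ℕ) (ι : ℕ) : ℝ :=
  ∏ p ∈ S, (1 + 4 * (ι.factorization p : ℝ) / p)

private theorem G_nonneg (S : Finset ℕ) (ι : ℕ) : 0 ≤ G S ι :=
  Finset.prod_nonneg fun p _ => by positivity

private theorem G_mul (S : Finset ℕ) (p e κ : ℕ) (hp : p.Prime) (hS : ∀ q ∈ S, q.Prime)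
    (hpS : p ∉ S) (hκ : κ ≠ 0) : G S (p ^ e * κ) = G S κ := by
  unfold G
  refine Finset.prod_congr rfl fun q hq => ?_
  have hne : p ≠ q := fun h => hpS (h ▸ hq)
  rw [Nat.factorization_mul (pow_ne_zero _ hp.ne_zero) hκ, hp.factorization_pow]
  simp [Finsupp.single_apply, hne]

private theorem sum_set (S : Finset ℕ) (hS : ∀ p ∈ S, p.Prime) : ∀ (c d : ℝ), 0 ≤ c → 0 < d →
    ∀ I : ℕ, ∑ ι ∈ Icc 1 I, G S ι * max (c - (ι : ℝ) * d) 0 ≤
      (∏ p ∈ S, (1 + 8 / (p : ℝ) ^ 2)) * (c ^ 2 / (2 * d)) := by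
  induction S using Finset.induction_on with
  | empty =>
    intro c d hc hd I
    simp only [G, Finset.prod_empty, one_mul]
    refine (sum_base c d hc hd I).trans ?_
    rw [div_le_div_iff_of_pos_right (by positivity)]
    nlinarith [sq_nonneg (max (c - (I : ℝ) * d) 0)]
  | insert p S hpS ih =>
    intro c d hc hd I
    have hp : p.Prime := hS p (mem_insert_self _ _)
    have hS' : ∀ q ∈ S, q.Prime := fun q hq => hS q (mem_insert_of_mem hq)
    have ih' := ih hS'
    have hp0 : (0 : ℝ) < p := by exact_mod_cast hp.pos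
    have hp2 : (2 : ℝ) ≤ p := by exact_mod_cast hp.two_le
    set B : ℝ := ∏ q ∈ S, (1 + 8 / (q : ℝ) ^ 2) with hB
    have hB0 : 0 ≤ B := Finset.prod_nonneg fun q _ => by positivity
    have hG : ∀ ι ∈ Icc 1 I, G (insert p S) ι * max (c - (ι : ℝ) * d) 0 =
        G S ι * max (c - (ι : ℝ) * d) 0 +
        (4 / (p : ℝ)) * ∑ e ∈ Icc 1 I,
          if p ^ e ∣ ι then G S ι * max (c - (ι : ℝ) * d) 0 else 0 := by
      intro ι hι
      rw [mem_Icc] at hι
      have h1 : G (insert p S) ι = (1 + 4 * (ι.factorization p : ℝ) / p) * G S ι := by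
        unfold G
        rw [Finset.prod_insert hpS]
      have h2 : (∑ e ∈ Icc 1 I,
          if p ^ e ∣ ι then G S ι * max (c - (ι : ℝ) * d) 0 else 0) =
          (ι.factorization p : ℝ) * (G S ι * max (c - (ι : ℝ) * d) 0) := by
        rw [fact_card p ι I hp hι.1 hι.2, Finset.sum_mul]
        refine Finset.sum_congr rfl fun e _ => ?_
        split_ifs <;> simp
      rw [h1, h2]
      ring
    rw [Finset.sum_congr rfl hG, Finset.sum_add_distrib, ← Finset.mul_sum, Finset.sum_comm]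
    have hin : ∀ e ∈ Icc 1 I, (∑ ι ∈ Icc 1 I,
        if p ^ e ∣ ι then G S ι * max (c - (ι : ℝ) * d) 0 else 0) ≤
        (B * (c ^ 2 / (2 * d))) * (1 / (p : ℝ)) ^ e := by
      intro e _
      have hpe : (0 : ℝ) < (p : ℝ) ^ e := by positivity
      have h1 := ih' c ((p : ℝ) ^ e * d) hc (by positivity) I
      have h2 : B * (c ^ 2 / (2 * ((p : ℝ) ^ e * d))) =
          (B * (c ^ 2 / (2 * d))) * (1 / (p : ℝ)) ^ e := by
        rw [one_div, inv_pow]
        field_simp
      rw [h2] at h1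
      refine le_trans ?_ h1
      rw [← Finset.sum_filter]
      have hinj : Set.InjOn (fun κ : ℕ => p ^ e * κ) (Icc 1 I : Finset ℕ) := by
        intro a _ b _ hab
        exact Nat.eq_of_mul_eq_mul_left (pow_pos hp.pos e) hab
      have hsub : (Icc 1 I).filter (fun ι => p ^ e ∣ ι) ⊆
          (Icc 1 I).image (fun κ : ℕ => p ^ e * κ) := by
        intro ι hι
        rw [mem_filter, mem_Icc] at hι
        obtain ⟨⟨h1, h2⟩, κ, rfl⟩ := hι
        rw [mem_image]
        refine ⟨κ, ?_, rfl⟩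
        rw [mem_Icc]
        constructor
        · rcases Nat.eq_zero_or_pos κ with h0 | h0
          · subst h0
            simp at h1
          · exact h0
        · exact (Nat.le_mul_of_pos_left κ (pow_pos hp.pos e)).trans h2
      refine (Finset.sum_le_sum_of_subset_of_nonneg hsub
        (fun _ _ _ => mul_nonneg (G_nonneg _ _) (le_max_right _ _))).trans ?_
      rw [Finset.sum_image hinj]
      refine Finset.sum_le_sum fun κ hκ => ?_
      rw [mem_Icc] at hκ
      rw [G_mul S p e κ hp hS' hpS (by omega)]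
      apply le_of_eq
      congr 2
      push_cast
      ring
    have h3 := Finset.sum_le_sum hin
    rw [← Finset.mul_sum] at h3
    have h4 : ∑ e ∈ Icc 1 I, (1 / (p : ℝ)) ^ e ≤ 2 * (1 / (p : ℝ)) := by
      refine (sum_pow_le (1 / (p : ℝ)) (by positivity) ?_ I).trans ?_
      · rw [div_le_div_iff₀ hp0 (by norm_num)]
        linarith
      · have : (0 : ℝ) ≤ (1 / 2) ^ I := by positivity
        have h5 : (0 : ℝ) ≤ 2 * (1 / (p : ℝ)) := by positivity
        nlinarith
    have hC : 0 ≤ B * (c ^ 2 / (2 * d)) := by positivity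
    have h5 := h3.trans (mul_le_mul_of_nonneg_left h4 hC)
    have h6 := ih' c d hc hd I
    have h7 := mul_le_mul_of_nonneg_left h5 (by positivity : (0 : ℝ) ≤ 4 / (p : ℝ))
    refine (add_le_add h6 h7).trans ?_
    rw [Finset.prod_insert hpS]
    apply le_of_eq
    field_simp
    ring

theorem sum_fr (Q L : ℕ) (hQ : ∀ p : ℕ, p.Prime → p ≤ L → p ∣ Q) (hL : 0 < L) (c d : ℝ)
    (hc : 0 ≤ c) (hd : 0 < d) (I : ℕ) :
    ∑ ι ∈ Icc 1 I, fr Q ι * max (c - ι * d) 0 ≤ Real.exp (8 / L) * (c ^ 2 / (2 * d)) := by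
  classical
  set S : Finset ℕ := (Icc 1 I).filter (fun p => p.Prime ∧ ¬ p ∣ Q) with hS
  have hSp : ∀ p ∈ S, p.Prime := by
    intro p hp
    rw [hS, mem_filter] at hp
    exact hp.2.1
  have h1 : ∀ ι ∈ Icc 1 I, fr Q ι * max (c - (ι : ℝ) * d) 0 = G S ι * max (c - (ι : ℝ) * d) 0 := by
    intro ι hι
    rw [mem_Icc] at hι
    congr 1
    unfold fr G
    refine Finset.prod_subset ?_ ?_
    · intro p hp
      rw [mem_filter, Nat.mem_primeFactors] at hp
      rw [hS, mem_filter, mem_Icc]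
      exact ⟨⟨hp.1.1.one_lt.le, (Nat.le_of_dvd (by omega) hp.1.2.1).trans hι.2⟩, hp.1.1, hp.2⟩
    · intro p hp hn
      rw [hS, mem_filter] at hp
      rw [mem_filter, Nat.mem_primeFactors] at hn
      have : ¬ p ∣ ι := fun h => hn ⟨⟨hp.2.1, h, by omega⟩, hp.2.2⟩
      rw [Nat.factorization_eq_zero_of_not_dvd this]
      simp
  rw [Finset.sum_congr rfl h1]
  refine (sum_set S hSp c d hc hd I).trans ?_
  refine mul_le_mul_of_nonneg_right ?_ (by positivity)
  have h2 : ∏ p ∈ S, (1 + 8 / (p : ℝ) ^ 2) ≤ ∏ p ∈ S, Real.exp (8 / (p : ℝ) ^ 2) := by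
    refine Finset.prod_le_prod (fun _ _ => by positivity) fun p _ => ?_
    rw [add_comm]
    exact Real.add_one_le_exp _
  refine h2.trans ?_
  rw [← Real.exp_sum]
  apply Real.exp_le_exp.2
  have hsub : S ⊆ Ioc L I := by
    intro p hp
    rw [hS, mem_filter, mem_Icc] at hp
    rw [mem_Ioc]
    refine ⟨?_, hp.1.2⟩
    by_contra hle
    exact hp.2.2 (hQ p hp.2.1 (by omega))
  refine (Finset.sum_le_sum_of_subset_of_nonneg hsub (fun _ _ _ => by positivity)).trans ?_
  have hL0 : (0 : ℝ) < L := by exact_mod_cast hL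
  rcases le_or_gt L I with hLI | hLI
  · have h3 := sum_Ioc_inv_sq_le_sub (α := ℝ) (k := L) (n := I) (by omega) hLI
    have h4 : ∑ i ∈ Ioc L I, 8 / (i : ℝ) ^ 2 = 8 * ∑ i ∈ Ioc L I, ((i : ℝ) ^ 2)⁻¹ := by
      rw [Finset.mul_sum]
      exact Finset.sum_congr rfl fun i _ => div_eq_mul_inv _ _
    rw [h4, div_eq_mul_inv]
    have h5 : (0 : ℝ) ≤ (I : ℝ)⁻¹ := by positivity
    exact mul_le_mul_of_nonneg_left (by linarith) (by norm_num)
  · rw [Finset.Ioc_eq_empty (by omega), Finset.sum_empty]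
    positivity

theorem fr_nonneg (Q n : ℕ) : 0 ≤ fr Q n :=
  Finset.prod_nonneg fun p _ => by positivity

end FSQ
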