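import Pool.Agent.FSQ.Pairs
import Pool.Agent.FSQ.Lat
import Pool.Agent.FSQ.SumS

/-!
# FSQ-Off: the off-diagonal sum
-/

namespace FSQ

open Finset

/-- the inequalities between the parameters which are used in the second moment -/
structure Par (Q k : ℕ) (X D A W H E0 : ℤ) : Prop where
  hk : 2 ≤ k
  hX : X = k * D
  hD : D = (k * A) ^ 2
  hA : 0 < A
  hW : 0 < W
  hH : 0 < H
  hE : 0 ≤ E0
  kH : k * H ≤ W
  qR : 2 * E0 * k ≤ H
  qQ : 2 * Q * k ≤ H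
  hM : 9 * (X + D) ^ 2 + 2 * A ^ 4 ≤ E0 * W
  qA : 2 * Q * cc X D A * k ≤ A * (2 * (W - E0))
  qS : 18 * X * (2 * Q) * k ≤ 2 * (H + E0)

theorem Par.two {Q k : ℕ} {X D A W H E0 : ℤ} (h : Par Q k X D A W H E0) : 2 * H ≤ W := by
  have h1 : (2 : ℤ) ≤ k := by exact_mod_cast h.hk
  have := h.kH
  have := h.hH
  nlinarith

theorem Par.four {Q k : ℕ} {X D A W H E0 : ℤ} (h : Par Q k X D A W H E0) : 4 * E0 ≤ H := by
  have h1 : (2 : ℤ) ≤ k := by exact_mod_cast h.hk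
  have := h.qR
  have := h.hE
  nlinarith

theorem Par.D_pos {Q k : ℕ} {X D A W H E0 : ℤ} (h : Par Q k X D A W H E0) : 0 < D := by
  have h1 : (2 : ℤ) ≤ k := by exact_mod_cast h.hk
  have h2 := h.hA
  rw [h.hD]
  positivity

theorem Par.X_pos {Q k : ℕ} {X D A W H E0 : ℤ} (h : Par Q k X D A W H E0) : 0 < X := by
  have h1 : (2 : ℤ) ≤ k := by exact_mod_cast h.hk
  have h2 := h.D_pos
  rw [h.hX]
  positivity

/-- `cc ≤ 18 k D² (1 + 1/k)` -/
theorem cc_le_aux {k : ℕ} {X D A : ℤ} (hk : 2 ≤ k) (hX : X = k * D) (hD : D = (k * A) ^ 2)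
    (hA : 0 < A) : cc X D A ≤ 18 * (k + 1) * D ^ 2 := by
  have h1 : (2 : ℤ) ≤ k := by exact_mod_cast hk
  have h2 : 4 * A ^ 2 ≤ D := by
    rw [hD, mul_pow]
    have : (4 : ℤ) ≤ (k : ℤ) ^ 2 := by nlinarith
    have h3 : 0 ≤ A ^ 2 := by positivity
    nlinarith
  have hDp : 0 < D := by
    rw [hD]
    positivity
  rw [cc, hX]
  have e1 : 9 * (((k : ℤ) * D + D) ^ 2 - (k * D) ^ 2) = 18 * k * D ^ 2 + 9 * D ^ 2 := by ring
  rw [e1]
  have h5 : (k : ℤ) ^ 2 * A ^ 2 = D := by rw [hD]; ring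
  have h6 : 8 * A ^ 2 * ((k : ℤ) * D + D) ≤ 6 * D ^ 2 := by
    have h7 : 4 * ((k : ℤ) + 1) ≤ 3 * (k : ℤ) ^ 2 := by nlinarith
    have h8 : 0 ≤ A ^ 2 * D := by positivity
    calc 8 * A ^ 2 * ((k : ℤ) * D + D) = 2 * (4 * ((k : ℤ) + 1)) * (A ^ 2 * D) := by ring
      _ ≤ 2 * (3 * (k : ℤ) ^ 2) * (A ^ 2 * D) := by nlinarith
      _ = 6 * ((k : ℤ) ^ 2 * A ^ 2) * D := by ring
      _ = 6 * D ^ 2 := by rw [h5]; ring
  have h9 : 2 * A ^ 4 ≤ D ^ 2 := by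
    have h10 : (A ^ 2) ^ 2 = A ^ 4 := by ring
    have h11 : 0 ≤ A ^ 2 := by positivity
    nlinarith
  nlinarith

theorem Par.cc_le {Q k : ℕ} {X D A W H E0 : ℤ} (h : Par Q k X D A W H E0) :
    cc X D A ≤ 18 * (k + 1) * D ^ 2 := cc_le_aux h.hk h.hX h.hD h.hA

theorem Par.cc_ge {Q k : ℕ} {X D A W H E0 : ℤ} (h : Par Q k X D A W H E0) :
    0 < cc X D A := by
  have hD := h.D_pos
  have hX := h.X_pos
  have hA := h.hA
  have h1 : 0 < (X + D) ^ 2 - X ^ 2 := by nlinarith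
  have h2 : 0 < A ^ 4 := by positivity
  have h3 : 0 < A ^ 2 * (X + D) := by positivity
  rw [cc]
  nlinarith

private theorem off_alg (k : ℝ) (hk : 2 ≤ k) (Q A X i dS S1 c p g fr : ℝ) (hQ : 0 < Q)
    (hA : 0 < A) (hX : 0 < X) (hi : 0 < i) (hS1 : 0 < S1) (hc : i * S1 ≤ c) (hp0 : 0 ≤ p)
    (hg : 0 ≤ g) (hfr : 0 ≤ fr) (hdS : 0 ≤ dS)
    (hp : p ≤ 2 * g * (2 * i) ^ 5 * fr) (qA : 2 * Q * c * k ≤ A * S1)
    (qX : 18 * X * (2 * Q) * k ≤ S1) (qS : 18 * X * (2 * Q) * k ≤ dS) :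
    p * (A / (2 * Q * i) + 1) ^ 4 * ((c - i * S1) / (18 * X * (2 * Q * i)) + 1) *
        ((i * dS) / (18 * X * (1 - 1 / k) * (2 * Q * i)) + 1) ≤
      2 * g * A ^ 4 * dS / (648 * Q ^ 6 * X ^ 2) * ((1 + 1 / k) ^ 5 / (1 - 1 / k)) * fr *
        (c * (1 + 1 / k) - i * S1) := by
  have hk0 : 0 < k := by linarith
  have hκ0 : 0 < 1 / k := by positivity
  have hκ1 : 1 / k ≤ 1 / 2 := one_div_le_one_div_of_le (by norm_num) hk
  have hκ2 : 0 < 1 - 1 / k := by linarith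
  have hq : 0 < 2 * Q * i := by positivity
  -- first factor
  have h1 : 1 ≤ A / (2 * Q * i) * (1 / k) := by
    rw [div_mul_div_comm, mul_one, le_div_iff₀ (by positivity), one_mul]
    have h2 : 2 * Q * i * k * S1 ≤ A * S1 := by
      calc 2 * Q * i * k * S1 = 2 * Q * k * (i * S1) := by ring
        _ ≤ 2 * Q * k * c := by gcongr
        _ = 2 * Q * c * k := by ring
        _ ≤ A * S1 := qA
    exact le_of_mul_le_mul_right h2 hS1
  have h1' : A / (2 * Q * i) + 1 ≤ A / (2 * Q * i) * (1 + 1 / k) := by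
    rw [mul_add, mul_one]
    linarith
  have h1'' : (A / (2 * Q * i) + 1) ^ 4 ≤ (A / (2 * Q * i) * (1 + 1 / k)) ^ 4 :=
    pow_le_pow_left₀ (by positivity) h1' 4
  -- second factor
  have h2 : (c - i * S1) / (18 * X * (2 * Q * i)) + 1 ≤
      (c * (1 + 1 / k) - i * S1) / (18 * X * (2 * Q * i)) := by
    rw [div_add_one (by positivity), div_le_div_iff_of_pos_right (by positivity)]
    have h3 : 18 * X * (2 * Q * i) ≤ c * (1 / k) := by
      rw [mul_one_div, le_div_iff₀ hk0]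
      calc 18 * X * (2 * Q * i) * k = i * (18 * X * (2 * Q) * k) := by ring
        _ ≤ i * S1 := by gcongr
        _ ≤ c := hc
    nlinarith
  have h2' : 0 ≤ (c - i * S1) / (18 * X * (2 * Q * i)) + 1 := by
    have : 0 ≤ c - i * S1 := by linarith
    positivity
  -- third factor
  have h3 : (i * dS) / (18 * X * (1 - 1 / k) * (2 * Q * i)) + 1 ≤
      (i * dS) / (18 * X * (2 * Q * i)) * ((1 + 1 / k) / (1 - 1 / k)) := by
    have e1 : (i * dS) / (18 * X * (1 - 1 / k) * (2 * Q * i)) =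
        (i * dS) / (18 * X * (2 * Q * i)) / (1 - 1 / k) := by
      rw [div_div]
      congr 1
      ring
    have e2 : (i * dS) / (18 * X * (2 * Q * i)) * ((1 + 1 / k) / (1 - 1 / k)) =
        ((i * dS) / (18 * X * (2 * Q * i)) * (1 + 1 / k)) / (1 - 1 / k) :=
      (mul_div_assoc _ _ _).symm
    rw [e1, e2, div_add_one hκ2.ne', div_le_div_iff_of_pos_right hκ2, mul_add, mul_one]
    have h4 : 1 ≤ (i * dS) / (18 * X * (2 * Q * i)) * (1 / k) := by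
      rw [div_mul_div_comm, mul_one, le_div_iff₀ (by positivity), one_mul]
      calc 18 * X * (2 * Q * i) * k = i * (18 * X * (2 * Q) * k) := by ring
        _ ≤ i * dS := by gcongr
    linarith
  have h3' : 0 ≤ (i * dS) / (18 * X * (1 - 1 / k) * (2 * Q * i)) + 1 := by positivity
  have h2'' := h2'.trans h2
  calc p * (A / (2 * Q * i) + 1) ^ 4 * ((c - i * S1) / (18 * X * (2 * Q * i)) + 1) *
        ((i * dS) / (18 * X * (1 - 1 / k) * (2 * Q * i)) + 1)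
      ≤ (2 * g * (2 * i) ^ 5 * fr) * (A / (2 * Q * i) * (1 + 1 / k)) ^ 4 *
        ((c * (1 + 1 / k) - i * S1) / (18 * X * (2 * Q * i))) *
        ((i * dS) / (18 * X * (2 * Q * i)) * ((1 + 1 / k) / (1 - 1 / k))) := by
        have h4 : 0 ≤ 2 * g * (2 * i) ^ 5 * fr * (A / (2 * Q * i) * (1 + 1 / k)) ^ 4 := by
          positivity
        exact mul_le_mul (mul_le_mul (mul_le_mul hp h1'' (by positivity) (by positivity)) h2 h2'
          h4) h3 h3' (mul_nonneg h4 h2'')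
    _ = _ := by
        field_simp
        ring

/-- the term of `ι` -/
theorem off_term {Q g : ℕ} {ws xs as bs : ℤ} (c : Cls Q g ws xs as bs) {k : ℕ}
    {X D A W H E0 : ℤ} (h : Par Q k X D A W H E0) {ι : ℕ} (hι : 0 < ι) :
    ((offd Q ws xs as bs X D A (2 * (W - E0)) (2 * (H + E0)) (Q * ι)).card : ℝ) ≤
      2 * g * (A : ℝ) ^ 4 * (2 * (H + E0)) / (648 * (Q : ℝ) ^ 6 * (X : ℝ) ^ 2) *
        ((1 + 1 / (k : ℝ)) ^ 5 / (1 - 1 / (k : ℝ))) *
        (fr Q ι * max ((cc X D A : ℝ) * (1 + 1 / k) - ι * (Q * (2 * (W - E0)))) 0) := by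
  have hk : (2 : ℝ) ≤ k := by exact_mod_cast h.hk
  have hκ0 : 0 < 1 / (k : ℝ) := by positivity
  have hκ1 : 1 / (k : ℝ) ≤ 1 / 2 := one_div_le_one_div_of_le (by norm_num) hk
  have hκ2 : 0 < 1 - 1 / (k : ℝ) := by linarith
  have hQ : (0 : ℝ) < Q := by exact_mod_cast c.Q0
  have hA : (0 : ℝ) < A := by exact_mod_cast h.hA
  have hX : (0 : ℝ) < X := by exact_mod_cast h.X_pos
  have hD := h.D_pos
  have hHE : 0 ≤ H + E0 := add_nonneg h.hH.le h.hE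
  have hHE' : (0 : ℝ) ≤ 2 * (H + E0) := by exact_mod_cast mul_nonneg (by norm_num) hHE
  have h2 := h.two
  have h4 := h.four
  have hH := h.hH
  have hS : 0 < 2 * (W - E0) := by omega
  have hS' : (0 : ℝ) < 2 * (W - E0) := by exact_mod_cast hS
  have hfr := fr_nonneg Q ι
  by_cases hc : cc X D A < (Q : ℤ) * ι * (2 * (W - E0))
  · rw [offd_empty h.X_pos hD.le h.hA.le hc]
    simp only [card_empty, Nat.cast_zero]
    positivity
  · have hc' : (Q : ℤ) * ι * (2 * (W - E0)) ≤ cc X D A := not_lt.1 hc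
    have hκ : 8 * (A : ℝ) ^ 2 ≤ 18 * X * (1 / (k : ℝ)) := by
      have h5 : (X : ℝ) = k * D := by exact_mod_cast h.hX
      have h6 : (D : ℝ) = (k * A) ^ 2 := by exact_mod_cast h.hD
      have h7 : (k : ℝ) * D * (1 / k) = D := by field_simp
      rw [h5, mul_assoc 18, h7, h6]
      have h8 : (4 : ℝ) ≤ (k : ℝ) ^ 2 := by nlinarith
      have h9 : 0 ≤ (A : ℝ) ^ 2 := by positivity
      nlinarith
    have h5 := offd_card (ws := ws) (xs := xs) (as := as) (bs := bs) c.Q0 hι h.X_pos hD.le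
      h.hA.le (S1 := 2 * (W - E0)) (dS := 2 * (H + E0)) (mul_nonneg (by norm_num) hHE) hκ
      (by linarith) hc'
    have h6 := pairs_card c hι ((Q * ι : ℤ) * (2 * ws + Q * ι))
    have hιR : (0 : ℝ) < ι := by exact_mod_cast hι
    have h7 := off_alg (k : ℝ) hk (Q : ℝ) (A : ℝ) (X : ℝ) ((Q : ℝ) * ι) (2 * (H + E0))
      (2 * (W - E0)) (cc X D A : ℝ)
      ((pairs (2 * Q * (Q * ι)) Q xs as bs ((Q * ι : ℤ) * (2 * ws + Q * ι))).card : ℝ) g
      (fr Q ι) hQ hA hX (by positivity) hS' (by exact_mod_cast hc') (Nat.cast_nonneg _)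
      (Nat.cast_nonneg _) hfr hHE' (by
        refine h6.trans (le_of_eq ?_)
        push_cast
        ring) (by exact_mod_cast h.qA) (by
        have h8 := h.qS
        have h9 : 2 * (H + E0) ≤ 2 * (W - E0) := by omega
        exact_mod_cast h8.trans h9) (by exact_mod_cast h.qS)
    push_cast at h5
    refine h5.trans (h7.trans ?_)
    rw [mul_assoc _ (fr Q ι)]
    refine mul_le_mul_of_nonneg_left ?_ (by positivity)
    refine mul_le_mul_of_nonneg_left ?_ hfr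
    refine le_trans (le_of_eq ?_) (le_max_left _ _)
    ring

/-- the off-diagonal sum -/
theorem off_sum {Q g : ℕ} {ws xs as bs : ℤ} (c : Cls Q g ws xs as bs) {L : ℕ} (hL : 0 < L)
    (hQL : ∀ p : ℕ, p.Prime → p ≤ L → p ∣ Q) {k : ℕ}
    {X D A W H E0 : ℤ} (h : Par Q k X D A W H E0) (I : ℕ) :
    2 * ∑ ι ∈ Icc 1 I,
      ((offd Q ws xs as bs X D A (2 * (W - E0)) (2 * (H + E0)) (Q * ι)).card : ℝ) ≤
      (1 + 1 / (k : ℝ)) ^ 10 / (1 - 1 / (k : ℝ)) * Real.exp (8 / L) *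
        (g * H * (D : ℝ) ^ 2 * (A : ℝ) ^ 4 / ((Q : ℝ) ^ 7 * W)) := by
  have hk : (2 : ℝ) ≤ k := by exact_mod_cast h.hk
  have hk0 : (0 : ℝ) < k := by linarith
  have hκ0 : 0 < 1 / (k : ℝ) := by positivity
  have hκ1 : 1 / (k : ℝ) ≤ 1 / 2 := one_div_le_one_div_of_le (by norm_num) hk
  have hκ2 : 0 < 1 - 1 / (k : ℝ) := by linarith
  have hQ : (0 : ℝ) < Q := by exact_mod_cast c.Q0
  have hA : (0 : ℝ) < A := by exact_mod_cast h.hA
  have hX : (0 : ℝ) < X := by exact_mod_cast h.X_pos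
  have hD : (0 : ℝ) < D := by exact_mod_cast h.D_pos
  have hW : (0 : ℝ) < W := by exact_mod_cast h.hW
  have hH : (0 : ℝ) < H := by exact_mod_cast h.hH
  have hE : (0 : ℝ) ≤ E0 := by exact_mod_cast h.hE
  have h2 : 2 * (H : ℝ) ≤ W := by exact_mod_cast h.two
  have h4 : 4 * (E0 : ℝ) ≤ H := by exact_mod_cast h.four
  have hS : (0 : ℝ) < 2 * (W - E0) := by linarith
  have hXk : (X : ℝ) = k * D := by exact_mod_cast h.hX
  have hcc : (cc X D A : ℝ) ≤ 18 * (k + 1) * (D : ℝ) ^ 2 := by exact_mod_cast h.cc_le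
  have hcc0 : (0 : ℝ) < cc X D A := by exact_mod_cast h.cc_ge
  have hsum := sum_fr Q L hQL hL ((cc X D A : ℝ) * (1 + 1 / k)) ((Q : ℝ) * (2 * (W - E0)))
    (by positivity) (by positivity) I
  have h1 : ∑ ι ∈ Icc 1 I,
      ((offd Q ws xs as bs X D A (2 * (W - E0)) (2 * (H + E0)) (Q * ι)).card : ℝ) ≤
      2 * g * (A : ℝ) ^ 4 * (2 * (H + E0)) / (648 * (Q : ℝ) ^ 6 * (X : ℝ) ^ 2) *
        ((1 + 1 / (k : ℝ)) ^ 5 / (1 - 1 / (k : ℝ))) * (Real.exp (8 / L) *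
        (((cc X D A : ℝ) * (1 + 1 / k)) ^ 2 / (2 * ((Q : ℝ) * (2 * (W - E0)))))) := by
    refine le_trans (sum_le_sum fun ι hι => off_term c h (by
      rw [mem_Icc] at hι
      omega)) ?_
    rw [← mul_sum]
    exact mul_le_mul_of_nonneg_left hsum (by positivity)
  have h3 : (cc X D A : ℝ) * (1 + 1 / k) ≤ 18 * k * (D : ℝ) ^ 2 * (1 + 1 / k) ^ 2 := by
    have e1 : 18 * ((k : ℝ) + 1) * (D : ℝ) ^ 2 * (1 + 1 / k) =
        18 * k * (D : ℝ) ^ 2 * (1 + 1 / k) ^ 2 := by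
      field_simp
    rw [← e1]
    exact mul_le_mul_of_nonneg_right hcc (by positivity)
  have h5 : ((cc X D A : ℝ) * (1 + 1 / k)) ^ 2 ≤ (18 * k * (D : ℝ) ^ 2 * (1 + 1 / k) ^ 2) ^ 2 :=
    pow_le_pow_left₀ (by positivity) h3 2
  -- the ratio
  have h6 : ((H : ℝ) + E0) / (W - E0) ≤ H / W * (1 + 1 / k) := by
    have hqR : 2 * (E0 : ℝ) * k ≤ H := by exact_mod_cast h.qR
    have hkH : (k : ℝ) * H ≤ W := by exact_mod_cast h.kH
    rw [div_mul_eq_mul_div, div_le_div_iff₀ (by linarith) hW]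
    have h7 : 2 * (E0 : ℝ) ≤ H * (1 / k) := by
      rw [mul_one_div, le_div_iff₀ hk0]
      exact hqR
    have h8 : (H : ℝ) * (1 + 1 / k) ≤ W := by nlinarith
    have h9 : (H : ℝ) * (1 + 1 / k) * E0 ≤ W * E0 := mul_le_mul_of_nonneg_right h8 hE
    have h10 : 2 * (E0 : ℝ) * W ≤ H * (1 / k) * W := mul_le_mul_of_nonneg_right h7 hW.le
    nlinarith
  calc 2 * ∑ ι ∈ Icc 1 I,
      ((offd Q ws xs as bs X D A (2 * (W - E0)) (2 * (H + E0)) (Q * ι)).card : ℝ)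
      ≤ 2 * (2 * g * (A : ℝ) ^ 4 * (2 * (H + E0)) / (648 * (Q : ℝ) ^ 6 * (X : ℝ) ^ 2) *
        ((1 + 1 / (k : ℝ)) ^ 5 / (1 - 1 / (k : ℝ))) * (Real.exp (8 / L) *
        (((18 * k * (D : ℝ) ^ 2 * (1 + 1 / k) ^ 2) ^ 2) / (2 * ((Q : ℝ) * (2 * (W - E0))))))) := by
        refine mul_le_mul_of_nonneg_left (h1.trans ?_) (by norm_num)
        gcongr
    _ = ((1 + 1 / (k : ℝ)) ^ 9 / (1 - 1 / (k : ℝ)) * Real.exp (8 / L) *
        (g * (D : ℝ) ^ 2 * (A : ℝ) ^ 4 / (Q : ℝ) ^ 7)) * (((H : ℝ) + E0) / (W - E0)) := by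
        rw [hXk]
        have hWE : (W : ℝ) - E0 ≠ 0 := by
          intro h0
          rw [h0] at hS
          linarith
        field_simp
        ring
    _ ≤ ((1 + 1 / (k : ℝ)) ^ 9 / (1 - 1 / (k : ℝ)) * Real.exp (8 / L) *
        (g * (D : ℝ) ^ 2 * (A : ℝ) ^ 4 / (Q : ℝ) ^ 7)) * (H / W * (1 + 1 / k)) :=
        mul_le_mul_of_nonneg_left h6 (by positivity)
    _ = _ := by
        field_simp

end FSQ
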