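import Pool.Agent.FSQ.Defs

/-!
# FSQ-Rough: number of solutions of `P(u') - P(u) = k` modulo `m`, `m` coprime to `30`

`xy_card`: solutions of `X Y = h` modulo a prime power.  `N2_mul`: Chinese remainder theorem.
`N2_prime_pow`: for fixed `(a, b, a', b')` the pairs `(x, x')` correspond to solutions of
`(U' - U)(U' + U) = h`, and `h` is a non-unit for few `(a, b, a', b')`.  `N2_le`: general `m`.
-/

namespace FSQ

open Finset

/-- number of pairs of triples of `ZMod m` with `P(u') - P(u) = k` -/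
noncomputable def N2 (m : ℕ) (k : ℤ) : ℕ :=
  Nat.card {v : (ZMod m × ZMod m × ZMod m) × (ZMod m × ZMod m × ZMod m) //
    P v.2.1 v.2.2.1 v.2.2.2 - P v.1.1 v.1.2.1 v.1.2.2 = (k : ZMod m)}

private theorem rough_P_map {R S : Type} [CommRing R] [CommRing S] (f : R →+* S) (x a b : R) :
    f (P x a b) = P (f x) (f a) (f b) := by
  simp only [P, map_add, map_sub, map_mul, map_pow, map_ofNat]

private theorem rough_decomp (p e : ℕ) [Fact p.Prime] (x : ZMod (p ^ e)) :
    ∃ v : ℕ, v ≤ e ∧ ∃ u : ZMod (p ^ e), IsUnit u ∧ x = (p : ZMod (p ^ e)) ^ v * u := by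
  have hp : p.Prime := Fact.out
  have hne : NeZero (p ^ e) := ⟨pow_ne_zero _ hp.ne_zero⟩
  by_cases hx : x.val = 0
  · refine ⟨e, le_rfl, 1, isUnit_one, ?_⟩
    have h1 : x = 0 := (ZMod.val_eq_zero x).mp hx
    have h2 : ((p : ZMod (p ^ e)) ^ e) = 0 := by
      have h3 := ZMod.natCast_self (p ^ e)
      rwa [Nat.cast_pow] at h3
    rw [h1, h2, zero_mul]
  · obtain ⟨v, w, hw, hvw⟩ := Nat.exists_eq_pow_mul_and_not_dvd hx p hp.ne_one
    refine ⟨v, ?_, (w : ZMod (p ^ e)), ?_, ?_⟩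
    · have h1 : p ^ v ≤ x.val := Nat.le_of_dvd (Nat.pos_of_ne_zero hx) ⟨w, hvw⟩
      have h2 : p ^ v < p ^ e := lt_of_le_of_lt h1 (ZMod.val_lt x)
      exact le_of_lt ((Nat.pow_lt_pow_iff_right hp.one_lt).mp h2)
    · rw [ZMod.isUnit_iff_coprime]
      exact (((hp.coprime_iff_not_dvd).mpr hw).pow_left e).symm
    · have h1 : x = ((x.val : ℕ) : ZMod (p ^ e)) := (ZMod.natCast_zmod_val x).symm
      rw [hvw] at h1
      rw [h1]
      push_cast
      rfl

private theorem rough_tors (p e v : ℕ) [Fact p.Prime] (s : Finset (ZMod (p ^ e)))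
    (hs : ∀ y ∈ s, (p : ZMod (p ^ e)) ^ v * y = 0) : s.card ≤ p ^ v := by
  classical
  have hp : p.Prime := Fact.out
  have hne : NeZero (p ^ e) := ⟨pow_ne_zero _ hp.ne_zero⟩
  have h1 := IsAddCyclic.card_nsmul_eq_zero_le (α := ZMod (p ^ e)) (n := p ^ v) (pow_pos hp.pos v)
  refine le_trans (Finset.card_le_card ?_) h1
  intro y hy
  rw [Finset.mem_filter]
  refine ⟨Finset.mem_univ _, ?_⟩
  rw [nsmul_eq_mul, Nat.cast_pow]
  exact hs y hy

private theorem rough_tors' (p e v : ℕ) [Fact p.Prime] (s : Finset (ZMod (p ^ e)))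
    (hs : ∀ y ∈ s, ∀ z ∈ s, (p : ZMod (p ^ e)) ^ v * (y - z) = 0) : s.card ≤ p ^ v := by
  classical
  rcases s.eq_empty_or_nonempty with h | ⟨z, hz⟩
  · rw [h, Finset.card_empty]
    exact Nat.zero_le _
  · have h1 : (s.image fun y => y - z).card = s.card :=
      Finset.card_image_of_injective s fun a b hab => sub_left_injective hab
    rw [← h1]
    apply rough_tors
    intro y hy
    obtain ⟨w, hw, rfl⟩ := Finset.mem_image.mp hy
    exact hs w hw z hz

private theorem rough_pow_zero (p e : ℕ) : ((p : ZMod (p ^ e)) ^ e) = 0 := by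
  have h3 := ZMod.natCast_self (p ^ e)
  rwa [Nat.cast_pow] at h3

theorem xy_card (p e : ℕ) [Fact p.Prime] (h : ZMod (p ^ e)) :
    Nat.card {v : ZMod (p ^ e) × ZMod (p ^ e) // v.1 * v.2 = h} ≤ (e + 1) * p ^ e ∧
      (IsUnit h → Nat.card {v : ZMod (p ^ e) × ZMod (p ^ e) // v.1 * v.2 = h} ≤ p ^ e) := by
  classical
  have hp : p.Prime := Fact.out
  have hne : NeZero (p ^ e) := ⟨pow_ne_zero _ hp.ne_zero⟩
  rw [Nat.card_eq_fintype_card, Fintype.card_subtype]
  constructor
  · set S : Finset (ZMod (p ^ e) × ZMod (p ^ e)) := univ.filter fun v => v.1 * v.2 = h with hS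
    let Sv : ℕ → Finset (ZMod (p ^ e) × ZMod (p ^ e)) := fun v =>
      univ.filter fun w => w.1 * w.2 = h ∧ ∃ u : ZMod (p ^ e), IsUnit u ∧
        w.1 = (p : ZMod (p ^ e)) ^ v * u
    have h1 : S ⊆ (range (e + 1)).biUnion Sv := by
      intro w hw
      obtain ⟨v, hv, u, hu, hvu⟩ := rough_decomp p e w.1
      rw [mem_biUnion]
      refine ⟨v, mem_range.mpr (Nat.lt_succ_of_le hv), ?_⟩
      exact mem_filter.mpr ⟨mem_univ _, (mem_filter.mp hw).2, u, hu, hvu⟩
    have h2 : ∀ v ∈ range (e + 1), (Sv v).card ≤ p ^ e := by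
      intro v hv
      have hve : v ≤ e := Nat.le_of_lt_succ (mem_range.mp hv)
      have h3 : (Sv v).card ≤ p ^ v * ((Sv v).image Prod.fst).card := by
        apply card_le_mul_card_image
        intro a ha
        have h4 : ((Sv v).filter fun w => w.1 = a).card =
            (((Sv v).filter fun w => w.1 = a).image Prod.snd).card := by
          refine (card_image_of_injOn ?_).symm
          intro w hw w' hw' hww
          have e1 := (mem_filter.mp (mem_coe.mp hw)).2
          have e2 := (mem_filter.mp (mem_coe.mp hw')).2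
          exact Prod.ext (e1.trans e2.symm) hww
        rw [h4]
        apply rough_tors'
        intro y hy z hz
        obtain ⟨w, hw, rfl⟩ := mem_image.mp hy
        obtain ⟨w', hw', rfl⟩ := mem_image.mp hz
        obtain ⟨hw1, hw2⟩ := mem_filter.mp hw
        obtain ⟨hw1', hw2'⟩ := mem_filter.mp hw'
        obtain ⟨_, hw3, u, hu, hw4⟩ := mem_filter.mp hw1
        obtain ⟨_, hw3', _⟩ := mem_filter.mp hw1'
        rw [hw2] at hw3 hw4
        rw [hw2'] at hw3'
        have h5 : u * ((p : ZMod (p ^ e)) ^ v * (w.2 - w'.2)) = 0 := by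
          have h6 : u * ((p : ZMod (p ^ e)) ^ v * (w.2 - w'.2)) = a * w.2 - a * w'.2 := by
            rw [hw4]
            ring
          rw [h6, hw3, hw3', sub_self]
        exact (hu.mul_right_eq_zero).mp h5
      have h7 : ((Sv v).image Prod.fst).card ≤ p ^ (e - v) := by
        apply rough_tors
        intro y hy
        obtain ⟨w, hw, rfl⟩ := mem_image.mp hy
        obtain ⟨_, _, u, _, hw4⟩ := mem_filter.mp hw
        rw [hw4, ← mul_assoc, ← pow_add, Nat.sub_add_cancel hve, rough_pow_zero, zero_mul]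
      calc (Sv v).card ≤ p ^ v * ((Sv v).image Prod.fst).card := h3
        _ ≤ p ^ v * p ^ (e - v) := Nat.mul_le_mul_left _ h7
        _ = p ^ e := by rw [← pow_add, Nat.add_sub_cancel' hve]
    calc S.card ≤ ((range (e + 1)).biUnion Sv).card := card_le_card h1
      _ ≤ ∑ v ∈ range (e + 1), (Sv v).card := card_biUnion_le
      _ ≤ ∑ _v ∈ range (e + 1), p ^ e := sum_le_sum h2
      _ = (e + 1) * p ^ e := by rw [sum_const, card_range, smul_eq_mul]
  · intro hu
    have h1 : (univ.filter fun v : ZMod (p ^ e) × ZMod (p ^ e) => v.1 * v.2 = h).card ≤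
        (univ : Finset (ZMod (p ^ e))).card := by
      refine card_le_card_of_injOn Prod.fst (fun _ _ => mem_coe.mpr (mem_univ _)) ?_
      intro w hw w' hw' hww
      have e1 := (mem_filter.mp (mem_coe.mp hw)).2
      have e2 := (mem_filter.mp (mem_coe.mp hw')).2
      have e3 : IsUnit w.1 := by
        rw [← e1] at hu
        exact isUnit_of_mul_isUnit_left hu
      refine Prod.ext hww ?_
      have e4 : w.1 * w.2 = w.1 * w'.2 := by
        rw [e1, hww, e2]
      exact e3.mul_left_cancel e4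
    rw [card_univ, ZMod.card] at h1
    exact h1

theorem N2_mul (m n : ℕ) (hm : 0 < m) (hn : 0 < n) (h : Nat.Coprime m n) (k : ℤ) :
    N2 (m * n) k ≤ N2 m k * N2 n k := by
  have : NeZero m := ⟨hm.ne'⟩
  have : NeZero n := ⟨hn.ne'⟩
  unfold N2
  rw [← Nat.card_prod]
  have key : ∀ (d : ℕ) (f : ZMod (m * n) →+* ZMod d)
      (v : (ZMod (m * n) × ZMod (m * n) × ZMod (m * n)) ×
        (ZMod (m * n) × ZMod (m * n) × ZMod (m * n))),
      P v.2.1 v.2.2.1 v.2.2.2 - P v.1.1 v.1.2.1 v.1.2.2 = (k : ZMod (m * n)) →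
      P (f v.2.1) (f v.2.2.1) (f v.2.2.2) - P (f v.1.1) (f v.1.2.1) (f v.1.2.2) =
        (k : ZMod d) := by
    intro d f v hv
    rw [← rough_P_map, ← rough_P_map, ← map_sub, hv, map_intCast]
  let c : ZMod (m * n) →+* ZMod m × ZMod n := (ZMod.chineseRemainder h).toRingHom
  have hc : Function.Injective c := (ZMod.chineseRemainder h).injective
  let f1 : ZMod (m * n) →+* ZMod m := (RingHom.fst (ZMod m) (ZMod n)).comp c
  let f2 : ZMod (m * n) →+* ZMod n := (RingHom.snd (ZMod m) (ZMod n)).comp c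
  have hinj : ∀ x y : ZMod (m * n), f1 x = f1 y → f2 x = f2 y → x = y :=
    fun x y h1 h2 => hc (Prod.ext h1 h2)
  refine Nat.card_le_card_of_injective (fun v =>
    (⟨((f1 v.1.1.1, f1 v.1.1.2.1, f1 v.1.1.2.2), (f1 v.1.2.1, f1 v.1.2.2.1, f1 v.1.2.2.2)),
        key m f1 v.1 v.2⟩,
      ⟨((f2 v.1.1.1, f2 v.1.1.2.1, f2 v.1.1.2.2), (f2 v.1.2.1, f2 v.1.2.2.1, f2 v.1.2.2.2)),
        key n f2 v.1 v.2⟩)) ?_
  intro v w hvw
  have h1 := congrArg (fun z => z.1.1) hvw
  have h2 := congrArg (fun z => z.2.1) hvw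
  simp only [Prod.mk.injEq] at h1 h2
  obtain ⟨⟨a1, a2, a3⟩, a4, a5, a6⟩ := h1
  obtain ⟨⟨b1, b2, b3⟩, b4, b5, b6⟩ := h2
  apply Subtype.ext
  refine Prod.ext (Prod.ext (hinj _ _ a1 b1) (Prod.ext (hinj _ _ a2 b2) (hinj _ _ a3 b3)))
    (Prod.ext (hinj _ _ a4 b4) (Prod.ext (hinj _ _ a5 b5) (hinj _ _ a6 b6)))

private noncomputable def roughH (m : ℕ) (k : ℤ) (s : ZMod m × ZMod m × ZMod m × ZMod m) :
    ZMod m :=
  9 * (k : ZMod m) + F s.1 s.2.1 - F s.2.2.1 s.2.2.2

private theorem rough_cast_nonunit (p e : ℕ) [Fact p.Prime] (f : ZMod (p ^ e) →+* ZMod p)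
    (x : ZMod (p ^ e)) (hx : ¬ IsUnit x) : f x = 0 := by
  obtain ⟨v, _, u, hu, hvu⟩ := rough_decomp p e x
  cases v with
  | zero =>
    rw [pow_zero, one_mul] at hvu
    rw [hvu] at hx
    exact absurd hu hx
  | succ v =>
    rw [hvu, map_mul, map_pow, map_natCast, ZMod.natCast_self, pow_succ, mul_zero, zero_mul]

private theorem rough_ker (p e : ℕ) [Fact p.Prime] (f : ZMod (p ^ e) →+* ZMod p)
    (he : 0 < e) (x : ZMod (p ^ e)) (hx : f x = 0) : (p : ZMod (p ^ e)) ^ (e - 1) * x = 0 := by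
  obtain ⟨v, _, u, hu, hvu⟩ := rough_decomp p e x
  cases v with
  | zero =>
    rw [pow_zero, one_mul] at hvu
    rw [hvu] at hx
    have h1 : IsUnit (f u) := hu.map f
    rw [hx] at h1
    exact absurd h1 not_isUnit_zero
  | succ v =>
    have h1 : e - 1 + (v + 1) = e + v := by omega
    rw [hvu, ← mul_assoc, ← pow_add, h1, pow_add, rough_pow_zero, zero_mul, zero_mul]

private theorem rough_roots (p : ℕ) [Fact p.Prime] (hp : 5 < p) (c d : ZMod p)
    (s : Finset (ZMod p)) (hs : ∀ b ∈ s, c + d * b ^ 2 - 5 * b ^ 4 = 0) : s.card ≤ 4 := by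
  classical
  let q : Polynomial (ZMod p) := Polynomial.C c + Polynomial.C d * Polynomial.X ^ 2 -
    Polynomial.C 5 * Polynomial.X ^ 4
  have hdeg : q.natDegree ≤ 4 := by
    show (Polynomial.C c + Polynomial.C d * Polynomial.X ^ 2 -
      Polynomial.C 5 * Polynomial.X ^ 4).natDegree ≤ 4
    compute_degree
  have h5 : (5 : ZMod p) ≠ 0 := by
    intro h
    have h1 : ((5 : ℕ) : ZMod p) = 0 := by exact_mod_cast h
    rw [ZMod.natCast_eq_zero_iff] at h1
    have h2 := Nat.le_of_dvd (by norm_num) h1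
    omega
  have hco : q.coeff 4 = -5 := by
    show (Polynomial.C c + Polynomial.C d * Polynomial.X ^ 2 -
      Polynomial.C 5 * Polynomial.X ^ 4).coeff 4 = -5
    simp [Polynomial.coeff_X_pow]
  have hq : q ≠ 0 := by
    intro h
    rw [h, Polynomial.coeff_zero] at hco
    exact h5 (neg_eq_zero.mp hco.symm)
  have hsub : s ⊆ q.roots.toFinset := by
    intro b hb
    rw [Multiset.mem_toFinset, Polynomial.mem_roots hq]
    show Polynomial.eval b (Polynomial.C c + Polynomial.C d * Polynomial.X ^ 2 -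
      Polynomial.C 5 * Polynomial.X ^ 4) = 0
    simp only [Polynomial.eval_sub, Polynomial.eval_add, Polynomial.eval_mul, Polynomial.eval_C,
      Polynomial.eval_pow, Polynomial.eval_X]
    exact hs b hb
  calc s.card ≤ q.roots.toFinset.card := card_le_card hsub
    _ ≤ Multiset.card q.roots := Multiset.toFinset_card_le _
    _ ≤ q.natDegree := Polynomial.card_roots' q
    _ ≤ 4 := hdeg

open Classical in
private theorem rough_bad (p e : ℕ) [Fact p.Prime] [NeZero (p ^ e)] (hp : 5 < p) (he : 0 < e)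
    (k : ℤ) :
    (univ.filter fun s : ZMod (p ^ e) × ZMod (p ^ e) × ZMod (p ^ e) × ZMod (p ^ e) =>
      ¬ IsUnit (roughH (p ^ e) k s)).card ≤
      p ^ (e - 1) * 4 * (p ^ e * (p ^ e * p ^ e)) := by
  set S := univ.filter fun s : ZMod (p ^ e) × ZMod (p ^ e) × ZMod (p ^ e) × ZMod (p ^ e) =>
      ¬ IsUnit (roughH (p ^ e) k s) with hS
  let g : ZMod (p ^ e) × ZMod (p ^ e) × ZMod (p ^ e) × ZMod (p ^ e) →
      ZMod (p ^ e) × ZMod (p ^ e) × ZMod (p ^ e) := fun s => (s.1, s.2.1, s.2.2.1)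
  let f : ZMod (p ^ e) →+* ZMod p := ZMod.castHom (dvd_pow_self p he.ne') (ZMod p)
  have h1 : S.card ≤ (p ^ (e - 1) * 4) * (S.image g).card := by
    apply card_le_mul_card_image
    intro a ha
    have h2 : (S.filter fun s => g s = a).card =
        ((S.filter fun s => g s = a).image fun s => s.2.2.2).card := by
      refine (card_image_of_injOn ?_).symm
      intro w hw w' hw' hww
      have e1 := (mem_filter.mp (mem_coe.mp hw)).2
      have e2 := (mem_filter.mp (mem_coe.mp hw')).2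
      have e3 : g w = g w' := e1.trans e2.symm
      have e4 : w.1 = w'.1 := congrArg (fun z => z.1) e3
      have e5 : w.2.1 = w'.2.1 := congrArg (fun z => z.2.1) e3
      have e6 : w.2.2.1 = w'.2.2.1 := congrArg (fun z => z.2.2) e3
      exact Prod.ext e4 (Prod.ext e5 (Prod.ext e6 hww))
    rw [h2]
    set B := (S.filter fun s => g s = a).image fun s => s.2.2.2 with hB
    have h3 : B.card ≤ p ^ (e - 1) * (B.image f).card := by
      apply card_le_mul_card_image
      intro r hr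
      apply rough_tors'
      intro y hy z hz
      apply rough_ker p e f he
      rw [map_sub, (mem_filter.mp hy).2, (mem_filter.mp hz).2, sub_self]
    have h4 : (B.image f).card ≤ 4 := by
      apply rough_roots p hp
        (9 * (k : ZMod p) + F (f a.1) (f a.2.1) - 5 * (f a.2.2) ^ 4) (8 * (f a.2.2) ^ 2)
      intro b hb
      obtain ⟨y, hy, rfl⟩ := mem_image.mp hb
      obtain ⟨s, hs, rfl⟩ := mem_image.mp hy
      obtain ⟨hs1, hs2⟩ := mem_filter.mp hs
      have hs3 := rough_cast_nonunit p e f _ (mem_filter.mp hs1).2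
      have e1 : a.1 = s.1 := (congrArg (fun z => z.1) hs2).symm
      have e2 : a.2.1 = s.2.1 := (congrArg (fun z => z.2.1) hs2).symm
      have e3 : a.2.2 = s.2.2.1 := (congrArg (fun z => z.2.2) hs2).symm
      rw [e1, e2, e3]
      have h5 : f (roughH (p ^ e) k s) = 9 * (k : ZMod p) + F (f s.1) (f s.2.1) -
          F (f s.2.2.1) (f s.2.2.2) := by
        unfold roughH F
        simp only [map_add, map_sub, map_mul, map_pow, map_intCast, map_ofNat]
      rw [h5] at hs3
      rw [← hs3]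
      unfold F
      ring
    calc B.card ≤ p ^ (e - 1) * (B.image f).card := h3
      _ ≤ p ^ (e - 1) * 4 := Nat.mul_le_mul_left _ h4
  have h6 : (S.image g).card ≤ p ^ e * (p ^ e * p ^ e) := by
    refine (card_le_univ _).trans ?_
    rw [Fintype.card_prod, Fintype.card_prod, ZMod.card]
  exact h1.trans (Nat.mul_le_mul_left _ h6)

theorem N2_prime_pow (p e : ℕ) [Fact p.Prime] (hp : 5 < p) (he : 0 < e) (k : ℤ) :
    (N2 (p ^ e) k : ℝ) ≤ ((p ^ e : ℕ) : ℝ) ^ 5 * (1 + 4 * (e : ℝ) / p) := by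
  classical
  have hpp : p.Prime := Fact.out
  have : NeZero (p ^ e) := ⟨pow_ne_zero _ hpp.ne_zero⟩
  have h2u : IsUnit (2 : ZMod (p ^ e)) := by
    have h1 : IsUnit ((2 : ℕ) : ZMod (p ^ e)) := by
      rw [ZMod.isUnit_iff_coprime]
      apply Nat.Coprime.pow_right
      rw [Nat.coprime_primes Nat.prime_two hpp]
      omega
    exact_mod_cast h1
  have h9u : IsUnit (9 : ZMod (p ^ e)) := by
    have h1 : IsUnit ((9 : ℕ) : ZMod (p ^ e)) := by
      rw [ZMod.isUnit_iff_coprime]
      apply Nat.Coprime.pow_right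
      rw [show (9 : ℕ) = 3 ^ 2 by norm_num]
      apply Nat.Coprime.pow_left
      rw [Nat.coprime_primes Nat.prime_three hpp]
      omega
    exact_mod_cast h1
  unfold N2
  rw [Nat.card_eq_fintype_card, Fintype.card_subtype]
  set S := univ.filter fun v : (ZMod (p ^ e) × ZMod (p ^ e) × ZMod (p ^ e)) ×
      (ZMod (p ^ e) × ZMod (p ^ e) × ZMod (p ^ e)) =>
    P v.2.1 v.2.2.1 v.2.2.2 - P v.1.1 v.1.2.1 v.1.2.2 = (k : ZMod (p ^ e)) with hS
  let g : (ZMod (p ^ e) × ZMod (p ^ e) × ZMod (p ^ e)) ×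
      (ZMod (p ^ e) × ZMod (p ^ e) × ZMod (p ^ e)) →
      ZMod (p ^ e) × ZMod (p ^ e) × ZMod (p ^ e) × ZMod (p ^ e) :=
    fun v => (v.1.2.1, v.1.2.2, v.2.2.1, v.2.2.2)
  let B := univ.filter fun s : ZMod (p ^ e) × ZMod (p ^ e) × ZMod (p ^ e) × ZMod (p ^ e) =>
      ¬ IsUnit (roughH (p ^ e) k s)
  have h1 : S.card = ∑ s : ZMod (p ^ e) × ZMod (p ^ e) × ZMod (p ^ e) × ZMod (p ^ e),
      (S.filter fun v => g v = s).card :=
    card_eq_sum_card_fiberwise fun _ _ => mem_coe.mpr (mem_univ _)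
  have h2 : ∀ s : ZMod (p ^ e) × ZMod (p ^ e) × ZMod (p ^ e) × ZMod (p ^ e),
      (S.filter fun v => g v = s).card ≤
        p ^ e + if ¬ IsUnit (roughH (p ^ e) k s) then e * p ^ e else 0 := by
    intro s
    have h3 : (S.filter fun v => g v = s).card ≤
        Nat.card {w : ZMod (p ^ e) × ZMod (p ^ e) // w.1 * w.2 = roughH (p ^ e) k s} := by
      rw [Nat.card_eq_fintype_card, Fintype.card_subtype]
      refine card_le_card_of_injOn (fun v =>
        (U v.2.1 v.2.2.1 v.2.2.2 - U v.1.1 v.1.2.1 v.1.2.2,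
          U v.2.1 v.2.2.1 v.2.2.2 + U v.1.1 v.1.2.1 v.1.2.2)) ?_ ?_
      · intro v hv
        obtain ⟨hv1, hv2⟩ := mem_filter.mp (mem_coe.mp hv)
        have hv3 := (mem_filter.mp hv1).2
        refine mem_coe.mpr (mem_filter.mpr ⟨mem_univ _, ?_⟩)
        rw [← hv2]
        have e1 := nine_P v.2.1 v.2.2.1 v.2.2.2
        have e2 := nine_P v.1.1 v.1.2.1 v.1.2.2
        show (U v.2.1 v.2.2.1 v.2.2.2 - U v.1.1 v.1.2.1 v.1.2.2) *
          (U v.2.1 v.2.2.1 v.2.2.2 + U v.1.1 v.1.2.1 v.1.2.2) =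
          9 * (k : ZMod (p ^ e)) + F v.1.2.1 v.1.2.2 - F v.2.2.1 v.2.2.2
        linear_combination (-1 : ZMod (p ^ e)) * e1 + e2 + 9 * hv3
      · intro v hv w hw hvw
        obtain ⟨_, hv2⟩ := mem_filter.mp (mem_coe.mp hv)
        obtain ⟨_, hw2⟩ := mem_filter.mp (mem_coe.mp hw)
        have e0 : g v = g w := hv2.trans hw2.symm
        have e1 : v.1.2.1 = w.1.2.1 := congrArg (fun z => z.1) e0
        have e2 : v.1.2.2 = w.1.2.2 := congrArg (fun z => z.2.1) e0
        have e3 : v.2.2.1 = w.2.2.1 := congrArg (fun z => z.2.2.1) e0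
        have e4 : v.2.2.2 = w.2.2.2 := congrArg (fun z => z.2.2.2) e0
        have e5 := congrArg (fun z => z.1) hvw
        have e6 := congrArg (fun z => z.2) hvw
        simp only [U, e1, e2, e3, e4] at e5 e6
        have e7 : (2 : ZMod (p ^ e)) * (9 * v.2.1) = 2 * (9 * w.2.1) := by
          linear_combination e5 + e6
        have e8 : (2 : ZMod (p ^ e)) * (9 * v.1.1) = 2 * (9 * w.1.1) := by
          linear_combination e6 - e5
        have e9 := h9u.mul_left_cancel (h2u.mul_left_cancel e7)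
        have e10 := h9u.mul_left_cancel (h2u.mul_left_cancel e8)
        exact Prod.ext (Prod.ext e10 (Prod.ext e1 e2)) (Prod.ext e9 (Prod.ext e3 e4))
    have h4 := xy_card p e (roughH (p ^ e) k s)
    by_cases hu : IsUnit (roughH (p ^ e) k s)
    · rw [if_neg (not_not_intro hu), add_zero]
      exact h3.trans (h4.2 hu)
    · rw [if_pos hu]
      refine (h3.trans h4.1).trans (le_of_eq ?_)
      ring
  have h5 : S.card ≤ (p ^ e * (p ^ e * (p ^ e * p ^ e))) * p ^ e + B.card * (e * p ^ e) := by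
    rw [h1]
    refine (sum_le_sum fun s _ => h2 s).trans (le_of_eq ?_)
    rw [sum_add_distrib, sum_const, card_univ, Fintype.card_prod, Fintype.card_prod,
      Fintype.card_prod, ZMod.card, smul_eq_mul, ← sum_filter, sum_const, smul_eq_mul]
  have h6 : B.card ≤ p ^ (e - 1) * 4 * (p ^ e * (p ^ e * p ^ e)) := rough_bad p e hp he k
  have h7 : S.card ≤ (p ^ e * (p ^ e * (p ^ e * p ^ e))) * p ^ e +
      (p ^ (e - 1) * 4 * (p ^ e * (p ^ e * p ^ e))) * (e * p ^ e) :=
    h5.trans (Nat.add_le_add_left (Nat.mul_le_mul_right _ h6) _)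
  have hp0 : (0 : ℝ) < (p : ℝ) := by exact_mod_cast hpp.pos
  have h8 : ((p : ℝ) ^ (e - 1)) = (p : ℝ) ^ e / p := by
    obtain ⟨f, rfl⟩ : ∃ f, e = f + 1 := ⟨e - 1, by omega⟩
    rw [Nat.add_sub_cancel, pow_succ, mul_div_cancel_right₀ _ hp0.ne']
  have h9 : (S.card : ℝ) ≤ ((p : ℝ) ^ e * ((p : ℝ) ^ e * ((p : ℝ) ^ e * (p : ℝ) ^ e))) *
      (p : ℝ) ^ e + ((p : ℝ) ^ (e - 1) * 4 * ((p : ℝ) ^ e * ((p : ℝ) ^ e * (p : ℝ) ^ e))) *
      ((e : ℝ) * (p : ℝ) ^ e) := by
    exact_mod_cast h7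
  refine h9.trans (le_of_eq ?_)
  rw [h8]
  push_cast
  field_simp

theorem N2_le (m : ℕ) (hm : 0 < m) (h : ∀ p : ℕ, p.Prime → p ∣ m → 5 < p) (k : ℤ) :
    (N2 m k : ℝ) ≤ (m : ℝ) ^ 5 * ∏ p ∈ m.primeFactors, (1 + 4 * (m.factorization p : ℝ) / p) := by
  induction m using Nat.recOnPosPrimePosCoprime with
  | prime_pow p e hp he =>
    have : Fact p.Prime := ⟨hp⟩
    have h5 : 5 < p := h p hp (dvd_pow_self p he.ne')
    have h1 := N2_prime_pow p e h5 he k
    rw [Nat.primeFactors_prime_pow he.ne' hp, prod_singleton, hp.factorization_pow,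
      Finsupp.single_eq_same]
    exact h1
  | zero => exact absurd hm (lt_irrefl 0)
  | one =>
    have h1 : N2 1 k ≤ 1 := by
      unfold N2
      have : Subsingleton (ZMod 1) := inferInstance
      exact Finite.card_le_one_iff_subsingleton.mpr inferInstance
    rw [Nat.primeFactors_one, prod_empty]
    push_cast
    norm_num
    exact_mod_cast h1
  | coprime a b ha hb hab iha ihb =>
    have ha0 : 0 < a := by omega
    have hb0 : 0 < b := by omega
    have h1 := iha ha0 fun p hp hpa => h p hp (hpa.mul_right b)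
    have h2 := ihb hb0 fun p hp hpb => h p hp (hpb.mul_left a)
    have h3 : (N2 (a * b) k : ℝ) ≤ (N2 a k : ℝ) * (N2 b k : ℝ) := by
      exact_mod_cast N2_mul a b ha0 hb0 hab k
    refine h3.trans ((mul_le_mul h1 h2 (Nat.cast_nonneg _) ?_).trans (le_of_eq ?_))
    · exact mul_nonneg (by positivity) (prod_nonneg fun p _ => by positivity)
    · rw [hab.primeFactors_mul, prod_union hab.disjoint_primeFactors]
      have e1 : ∏ p ∈ a.primeFactors, (1 + 4 * ((a * b).factorization p : ℝ) / p) =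
          ∏ p ∈ a.primeFactors, (1 + 4 * (a.factorization p : ℝ) / p) := by
        refine prod_congr rfl fun p hp => ?_
        rw [Nat.factorization_eq_of_coprime_left hab (Nat.mem_primeFactors_iff_mem_primeFactorsList.mp hp)]
      have e2 : ∏ p ∈ b.primeFactors, (1 + 4 * ((a * b).factorization p : ℝ) / p) =
          ∏ p ∈ b.primeFactors, (1 + 4 * (b.factorization p : ℝ) / p) := by
        refine prod_congr rfl fun p hp => ?_
        rw [Nat.factorization_eq_of_coprime_right hab (Nat.mem_primeFactors_iff_mem_primeFactorsList.mp hp)]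
      rw [e1, e2]
      push_cast
      ring

end FSQ
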