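import Pool.Agent.FSQ.Hens
import Pool.Agent.FSQ.Rough

/-!
# FSQ-Pairs: number of pairs of residue classes

The modulus is split into the part with primes dividing `Q` and the part coprime to `Q`; the pairs of classes
are bounded by the product of the two counts (`smooth_card`, `N2_le`).
-/

namespace FSQ

open Finset

theorem exists_split (Q ι : ℕ) (hQ : 0 < Q) (hι : 0 < ι) : ∃ t m : ℕ, ι = t * m ∧ 0 < t ∧ 0 < m ∧
    (∀ p : ℕ, p.Prime → p ∣ t → p ∣ Q) ∧ Nat.Coprime m Q := by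
  induction ι using Nat.strong_induction_on with
  | _ ι ih =>
    by_cases h : Nat.Coprime ι Q
    · refine ⟨1, ι, (one_mul _).symm, one_pos, hι, ?_, h⟩
      intro p hp hp1
      exact absurd (Nat.dvd_one.1 hp1) hp.one_lt.ne'
    · obtain ⟨p, hp, hp1, hp2⟩ := Nat.Prime.not_coprime_iff_dvd.1 h
      obtain ⟨ι', rfl⟩ := hp1
      have h1 : 0 < ι' := Nat.pos_of_mul_pos_left hι
      obtain ⟨t, m, h2, h3, h4, h5, h6⟩ := ih ι' (by
        calc ι' = 1 * ι' := (one_mul _).symm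
          _ < p * ι' := Nat.mul_lt_mul_of_pos_right hp.one_lt h1) h1
      refine ⟨p * t, m, ?_, Nat.mul_pos hp.pos h3, h4, ?_, h6⟩
      · rw [h2, mul_assoc]
      · intro r hr hrt
        rcases (Nat.Prime.dvd_mul hr).1 hrt with h7 | h7
        · rw [(Nat.prime_dvd_prime_iff_eq hr hp).1 h7]
          exact hp2
        · exact h5 r hr h7

private theorem P_congr {n : ℤ} {x a b x' a' b' : ℤ} (hx : x ≡ x' [ZMOD n]) (ha : a ≡ a' [ZMOD n])
    (hb : b ≡ b' [ZMOD n]) : P x a b ≡ P x' a' b' [ZMOD n] := by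
  unfold P
  exact (((hx.pow 2).add (((ha.pow 2).sub (hx.mul_left 2)).pow 2))).add
    (((hb.pow 2).sub (hx.mul_left 2)).pow 2)

private def red (n : ℕ) (u : Tr) : Tr := (u.1 % n, u.2.1 % n, u.2.2 % n)

private def rz (m : ℕ) (u : Tr) : ZMod m × ZMod m × ZMod m := (u.1, u.2.1, u.2.2)

private theorem red_congr (n : ℕ) (u : Tr) : PP (red n u) ≡ PP u [ZMOD n] :=
  P_congr (Int.mod_modEq _ _) (Int.mod_modEq _ _) (Int.mod_modEq _ _)

private theorem red_mem {Q n q : ℕ} (hn : 0 < n) (hQ : Q ∣ n) {xs as bs : ℤ} {u : Tr}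
    (h : u ∈ box Q xs as bs 0 q q) : red n u ∈ box Q xs as bs 0 n n := by
  rw [mem_box] at h ⊢
  have hn' : (0 : ℤ) < n := by exact_mod_cast hn
  have key : ∀ x r : ℤ, x ≡ r [ZMOD Q] → x % n ≡ r [ZMOD Q] := by
    intro x r hx
    exact ((Int.mod_modEq x n).of_dvd (Int.natCast_dvd_natCast.2 hQ)).trans hx
  unfold red
  refine ⟨⟨⟨Int.emod_nonneg _ hn'.ne', ?_⟩, key _ _ h.1.2⟩,
    ⟨⟨Int.emod_nonneg _ hn'.ne', Int.emod_lt_of_pos _ hn'⟩, key _ _ h.2.1.2⟩,
    ⟨⟨Int.emod_nonneg _ hn'.ne', Int.emod_lt_of_pos _ hn'⟩, key _ _ h.2.2.2⟩⟩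
  rw [zero_add]
  exact Int.emod_lt_of_pos _ hn'

private theorem eq_of {q1 m q : ℕ} (hq : q = q1 * m) (hc : Nat.Coprime q1 m) {x y : ℤ}
    (hx : 0 ≤ x ∧ x < q) (hy : 0 ≤ y ∧ y < q) (h1 : x % q1 = y % q1)
    (h2 : (x : ZMod m) = (y : ZMod m)) : x = y := by
  have h3 : x ≡ y [ZMOD m] := (ZMod.intCast_eq_intCast_iff _ _ m).1 h2
  have h4 : x ≡ y [ZMOD q1] := h1
  have h5 : x ≡ y [ZMOD (q1 : ℤ) * m] :=
    (Int.modEq_and_modEq_iff_modEq_mul (by simpa using hc)).1 ⟨h4, h3⟩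
  have h6 : x ≡ y [ZMOD q] := by
    rw [hq]
    exact_mod_cast h5
  have h7 : x % q = y % q := h6
  rwa [Int.emod_eq_of_lt hx.1 hx.2, Int.emod_eq_of_lt hy.1 hy.2] at h7

private theorem tr_eq {q1 m q Q : ℕ} (hq : q = q1 * m) (hc : Nat.Coprime q1 m) {xs as bs : ℤ}
    {u v : Tr} (hu : u ∈ box Q xs as bs 0 q q) (hv : v ∈ box Q xs as bs 0 q q)
    (h1 : red q1 u = red q1 v) (h2 : rz m u = rz m v) : u = v := by
  rw [mem_box] at hu hv
  rw [zero_add] at hu hv
  have a1 := congrArg (fun z => z.1) h1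
  have a2 := congrArg (fun z => z.2.1) h1
  have a3 := congrArg (fun z => z.2.2) h1
  have b1 := congrArg (fun z => z.1) h2
  have b2 := congrArg (fun z => z.2.1) h2
  have b3 := congrArg (fun z => z.2.2) h2
  exact Prod.ext (eq_of hq hc hu.1.1 hv.1.1 a1 b1)
    (Prod.ext (eq_of hq hc hu.2.1.1 hv.2.1.1 a2 b2) (eq_of hq hc hu.2.2.1 hv.2.2.1 a3 b3))

private theorem pairs_le {q1 m q Q : ℕ} (hq1 : 0 < q1) (hm : 0 < m) (hq : q = q1 * m)
    (hc : Nat.Coprime q1 m) (hQ : Q ∣ q1) (xs as bs k : ℤ) :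
    (pairs q Q xs as bs k).card ≤ (pairs q1 Q xs as bs k).card * N2 m k := by
  haveI : NeZero m := ⟨hm.ne'⟩
  have mem1 : ∀ v ∈ pairs q Q xs as bs k, (red q1 v.1, red q1 v.2) ∈ pairs q1 Q xs as bs k := by
    intro v hv
    unfold pairs at hv ⊢
    rw [mem_filter, mem_product] at hv ⊢
    refine ⟨⟨red_mem hq1 hQ hv.1.1, red_mem hq1 hQ hv.1.2⟩, ?_⟩
    refine ((red_congr q1 v.2).sub (red_congr q1 v.1)).trans (hv.2.of_dvd ?_)
    rw [hq, Nat.cast_mul]
    exact dvd_mul_right _ _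
  have mem2 : ∀ v ∈ pairs q Q xs as bs k,
      P (rz m v.2).1 (rz m v.2).2.1 (rz m v.2).2.2 - P (rz m v.1).1 (rz m v.1).2.1 (rz m v.1).2.2 =
        (k : ZMod m) := by
    intro v hv
    unfold pairs at hv
    rw [mem_filter, mem_product] at hv
    have h1 : PP v.2 - PP v.1 ≡ k [ZMOD m] := by
      refine hv.2.of_dvd ?_
      rw [hq, Nat.cast_mul]
      exact dvd_mul_left _ _
    have h2 := (ZMod.intCast_eq_intCast_iff _ _ m).2 h1
    rw [← h2]
    unfold rz PP P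
    push_cast
    rfl
  let f : (pairs q Q xs as bs k) → (pairs q1 Q xs as bs k) ×
      {v : (ZMod m × ZMod m × ZMod m) × (ZMod m × ZMod m × ZMod m) //
        P v.2.1 v.2.2.1 v.2.2.2 - P v.1.1 v.1.2.1 v.1.2.2 = (k : ZMod m)} :=
    fun v => (⟨(red q1 v.1.1, red q1 v.1.2), mem1 v.1 v.2⟩, ⟨(rz m v.1.1, rz m v.1.2), mem2 v.1 v.2⟩)
  have hf : Function.Injective f := by
    intro v w hvw
    have e1 := congrArg (fun z => z.1.1) hvw
    have e2 := congrArg (fun z => z.2.1) hvw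
    have c1 : red q1 v.1.1 = red q1 w.1.1 := congrArg (fun z => z.1) e1
    have c2 : red q1 v.1.2 = red q1 w.1.2 := congrArg (fun z => z.2) e1
    have d1 : rz m v.1.1 = rz m w.1.1 := congrArg (fun z => z.1) e2
    have d2 : rz m v.1.2 = rz m w.1.2 := congrArg (fun z => z.2) e2
    have hv := v.2
    have hw := w.2
    unfold pairs at hv hw
    rw [mem_filter, mem_product] at hv hw
    exact Subtype.ext (Prod.ext (tr_eq hq hc hv.1.1 hw.1.1 c1 d1) (tr_eq hq hc hv.1.2 hw.1.2 c2 d2))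
  have h1 := Nat.card_le_card_of_injective f hf
  rw [Nat.card_prod, Nat.card_eq_fintype_card, Nat.card_eq_fintype_card, Fintype.card_coe,
    Fintype.card_coe] at h1
  exact h1

theorem pairs_card {Q g : ℕ} {ws xs as bs : ℤ} (c : Cls Q g ws xs as bs) {ι : ℕ} (hι : 0 < ι)
    (k : ℤ) :
    ((pairs (2 * Q * (Q * ι)) Q xs as bs k).card : ℝ) ≤
      2 * g * ((2 * Q * ι : ℕ) : ℝ) ^ 5 * fr Q ι := by
  obtain ⟨t, m, h1, ht, hm, htQ, hmQ⟩ := exists_split Q ι c.Q0 hι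
  have hQ := c.Q0
  have h2 : 2 ∣ Q := (by norm_num : 2 ∣ 120).trans c.Q120
  have h2m : Nat.Coprime 2 m := (Nat.Coprime.coprime_dvd_right h2 hmQ).symm
  have htm : Nat.Coprime t m := by
    by_contra hcon
    obtain ⟨p, hp, hp1, hp2⟩ := Nat.Prime.not_coprime_iff_dvd.1 hcon
    exact Nat.Prime.not_coprime_iff_dvd.2 ⟨p, hp, hp2, htQ p hp hp1⟩ hmQ
  have hcop : Nat.Coprime (2 * Q * (Q * t)) m :=
    Nat.Coprime.mul_left (Nat.Coprime.mul_left h2m hmQ.symm) (Nat.Coprime.mul_left hmQ.symm htm)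
  have hle := pairs_le (q1 := 2 * Q * (Q * t)) (m := m) (q := 2 * Q * (Q * ι)) (Q := Q)
    (by positivity) hm (by rw [h1]; ring) hcop ⟨2 * (Q * t), by ring⟩ xs as bs k
  have hs := smooth_card c ht htQ k
  have hp5 : ∀ p : ℕ, p.Prime → p ∣ m → 5 < p := by
    intro p hp hpm
    have hpQ : ¬ p ∣ Q := fun h => Nat.Prime.not_coprime_iff_dvd.2 ⟨p, hp, hpm, h⟩ hmQ
    by_contra h5
    have h6 : p ∣ 120 := by
      have h7 : p ≤ 5 := by omega
      have h8 := hp.two_le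
      interval_cases p
      · norm_num
      · norm_num
      · norm_num
      · norm_num
    exact hpQ (h6.trans c.Q120)
  have hN := N2_le m hm hp5 k
  have hfr : fr Q ι = ∏ p ∈ m.primeFactors, (1 + 4 * (m.factorization p : ℝ) / p) := by
    unfold fr
    have e1 : ι.primeFactors.filter (fun p => ¬ p ∣ Q) = m.primeFactors := by
      ext p
      rw [mem_filter, Nat.mem_primeFactors, Nat.mem_primeFactors]
      constructor
      · rintro ⟨⟨hp, hp1, _⟩, hp2⟩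
        refine ⟨hp, ?_, hm.ne'⟩
        rw [h1] at hp1
        rcases (Nat.Prime.dvd_mul hp).1 hp1 with h | h
        · exact absurd (htQ p hp h) hp2
        · exact h
      · rintro ⟨hp, hp1, _⟩
        refine ⟨⟨hp, ?_, hι.ne'⟩, ?_⟩
        · rw [h1]
          exact Dvd.dvd.mul_left hp1 t
        · intro h
          exact Nat.Prime.not_coprime_iff_dvd.2 ⟨p, hp, hp1, h⟩ hmQ
    rw [e1]
    refine prod_congr rfl fun p hp => ?_
    rw [Nat.mem_primeFactors] at hp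
    have e2 : ι.factorization p = m.factorization p := by
      rw [h1, Nat.factorization_mul ht.ne' hm.ne', Finsupp.add_apply]
      rw [Nat.factorization_eq_zero_of_not_dvd, zero_add]
      intro h
      exact Nat.Prime.not_coprime_iff_dvd.2 ⟨p, hp.1, h, hp.2.1⟩ htm
    rw [e2]
  have hprod : 0 ≤ ∏ p ∈ m.primeFactors, (1 + 4 * (m.factorization p : ℝ) / p) := by
    apply prod_nonneg
    intro p _
    positivity
  calc ((pairs (2 * Q * (Q * ι)) Q xs as bs k).card : ℝ)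
      ≤ (((pairs (2 * Q * (Q * t)) Q xs as bs k).card * N2 m k : ℕ) : ℝ) := by exact_mod_cast hle
    _ = ((pairs (2 * Q * (Q * t)) Q xs as bs k).card : ℝ) * (N2 m k : ℝ) := by push_cast; ring
    _ ≤ ((2 * g * (2 * Q * t) ^ 5 : ℕ) : ℝ) *
        ((m : ℝ) ^ 5 * ∏ p ∈ m.primeFactors, (1 + 4 * (m.factorization p : ℝ) / p)) := by
        apply mul_le_mul
        · exact_mod_cast hs
        · exact hN
        · positivity
        · positivity
    _ = 2 * g * ((2 * Q * ι : ℕ) : ℝ) ^ 5 * fr Q ι := by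
        rw [hfr, h1]
        push_cast
        ring

end FSQ
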