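import Pool.Agent.FSQ.Asm

/-!
# FSQ-Win: most elements of a residue class in a window are represented
-/

namespace FSQ

open Finset

/-- the proportion of elements without representation -/
noncomputable def gap (k L : ℕ) : ℝ := (1 + 1 / (k : ℝ)) - (1 - 1 / (k : ℝ)) ^ 2 / Gam k L

open Classical in
/-- the integers of the window which are congruent to `r` modulo `m` and not admissible -/
noncomputable def bad (m : ℕ) (r : ℤ) (W H : ℕ) : Finset ℕ :=
  (Ico (W ^ 2) ((W + H) ^ 2)).filter (fun n => (n : ℤ) ≡ r [ZMOD m] ∧ ¬ Adm n)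

theorem Gam_pos {k : ℕ} (hk : 2 ≤ k) (L : ℕ) : 0 < Gam k L := by
  have hk' : (2 : ℝ) ≤ k := by exact_mod_cast hk
  have hκ0 : 0 < 1 / (k : ℝ) := by positivity
  have hκ1 : 1 / (k : ℝ) ≤ 1 / 2 := one_div_le_one_div_of_le (by norm_num) hk'
  have hκ2 : 0 < 1 - 1 / (k : ℝ) := by linarith
  unfold Gam
  positivity

theorem cs_card {α β : Type} [DecidableEq β] (T : Finset α) (f : α → β) :
    T.card ^ 2 ≤ (T.image f).card * ((T ×ˢ T).filter (fun p => f p.1 = f p.2)).card := by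
  classical
  have h1 : T.card = ∑ b ∈ T.image f, (T.filter fun a => f a = b).card :=
    card_eq_sum_card_fiberwise fun a ha => mem_image_of_mem f ha
  have h2 : ((T ×ˢ T).filter (fun p => f p.1 = f p.2)).card =
      ∑ b ∈ T.image f, (T.filter fun a => f a = b).card ^ 2 := by
    rw [card_eq_sum_card_fiberwise (t := T.image f) (f := fun p => f p.1) (s := (T ×ˢ T).filter
      (fun p => f p.1 = f p.2))]
    · refine sum_congr rfl fun b _ => ?_
      rw [sq, ← card_product]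
      congr 1
      ext p
      simp only [mem_filter, mem_product]
      constructor
      · rintro ⟨⟨⟨h3, h4⟩, h5⟩, h6⟩
        exact ⟨⟨h3, h6⟩, h4, h5 ▸ h6⟩
      · rintro ⟨⟨h3, h4⟩, h5, h6⟩
        exact ⟨⟨⟨h3, h5⟩, h4.trans h6.symm⟩, h4⟩
    · intro p hp
      have h3 := mem_filter.1 (mem_coe.1 hp)
      exact mem_image_of_mem f (mem_product.1 h3.1).1
  rw [h2]
  calc T.card ^ 2 = (∑ b ∈ T.image f, (T.filter fun a => f a = b).card) ^ 2 := by rw [← h1]
    _ ≤ _ := sq_sum_le_card_mul_sum_sq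

theorem box_card {Q : ℕ} (hQ : 0 < Q) {xs as bs X D A : ℤ} (hD : 0 ≤ D) (hA : 0 ≤ A)
    (hQD : (Q : ℤ) ∣ D) (hQA : (Q : ℤ) ∣ A) :
    ((box Q xs as bs X D A).card : ℝ) = (D : ℝ) / Q * ((A : ℝ) / Q) ^ 2 := by
  obtain ⟨d, hd⟩ := hQD
  obtain ⟨a, ha⟩ := hQA
  have hQz : (0 : ℤ) < Q := by exact_mod_cast hQ
  have hd0 : 0 ≤ d := by
    by_contra h
    have : (Q : ℤ) * d < 0 := mul_neg_of_pos_of_neg hQz (by omega)
    omega
  have ha0 : 0 ≤ a := by
    by_contra h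
    have : (Q : ℤ) * a < 0 := mul_neg_of_pos_of_neg hQz (by omega)
    omega
  lift d to ℕ using hd0
  lift a to ℕ using ha0
  have h1 : (res Q xs X (X + D)).card = d := by
    rw [hd]
    exact res_card_dvd hQ xs X d
  have h2 : ∀ r, (res Q r 0 A).card = a := by
    intro r
    have := res_card_dvd hQ r 0 a
    rw [zero_add] at this
    rw [ha]
    exact this
  have hQR : (Q : ℝ) ≠ 0 := by exact_mod_cast hQ.ne'
  rw [box, card_product, card_product, h1, h2, h2, hd, ha]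
  push_cast
  field_simp

/-- number of elements of a class in a window -/
theorem class_card {m : ℕ} (hm : 0 < m) (r : ℤ) (W H : ℕ) :
    (((Ico (W ^ 2) ((W + H) ^ 2)).filter (fun n : ℕ => (n : ℤ) ≡ r [ZMOD m])).card : ℝ) ≤
      (2 * W * H + (H : ℝ) ^ 2) / m + 1 := by
  have h1 := card_le_of_ap (((Ico (W ^ 2) ((W + H) ^ 2)).filter
    (fun n : ℕ => (n : ℤ) ≡ r [ZMOD m])).image (fun n : ℕ => (n : ℤ))) m hm r ?_
    (2 * W * H + (H : ℝ) ^ 2) (by positivity) ?_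
  · rwa [card_image_of_injective _ Nat.cast_injective] at h1
  · intro x hx
    obtain ⟨n, hn, rfl⟩ := mem_image.1 hx
    exact (mem_filter.1 hn).2
  · intro x hx y hy
    obtain ⟨n, hn, rfl⟩ := mem_image.1 hx
    obtain ⟨n', hn', rfl⟩ := mem_image.1 hy
    have h2 := mem_Ico.1 (mem_filter.1 hn).1
    have h3 := mem_Ico.1 (mem_filter.1 hn').1
    have h4 : ((n : ℕ) : ℝ) ≤ ((W : ℝ) + H) ^ 2 := by exact_mod_cast h2.2.le
    have h5 : (W : ℝ) ^ 2 ≤ (n' : ℝ) := by exact_mod_cast h3.1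
    push_cast
    nlinarith

theorem val_adm {Q : ℕ} {ws xs as bs X D A : ℤ} {W H : ℤ} {t : ℤ × Tr}
    (ht : t ∈ TT Q ws xs as bs X D A W H) : 0 ≤ val t ∧ Adm (val t).toNat := by
  have h1 := mem_filter.1 ht
  have h2 := (mem_product.1 h1.1).1
  rw [mem_res] at h2
  have h3 : 0 ≤ val t := by
    have := PP_nonneg t.2
    rw [val]
    positivity
  refine ⟨h3, adm_of (w := t.1) (x := t.2.1) (a := t.2.2.1) (b := t.2.2.2) (by linarith [h2.1.1]) ?_⟩
  rw [Int.toNat_of_nonneg h3, val, PP]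

theorem window_par {Q g : ℕ} {ws xs as bs : ℤ} (c : Cls Q g ws xs as bs) {L k : ℕ}
    {X D A E0 : ℤ} {W H : ℕ} (h : Par Q k X D A W H E0) (hQD : (Q : ℤ) ∣ D) (hQA : (Q : ℤ) ∣ A)
    (hcoll : ((coll Q ws xs as bs X D A W H).card : ℝ) ≤
      Gam k L * (g * H * (D : ℝ) ^ 2 * (A : ℝ) ^ 4 / ((Q : ℝ) ^ 7 * W))) :
    ((bad (2 * g * Q) (ws ^ 2 + P xs as bs) W H).card : ℝ) ≤
      gap k L * (W * H / (g * Q)) := by
  classical
  have hk : (2 : ℝ) ≤ k := by exact_mod_cast h.hk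
  have hk0 : (0 : ℝ) < k := by linarith
  have hκ0 : 0 < 1 / (k : ℝ) := by positivity
  have hκ1 : 1 / (k : ℝ) ≤ 1 / 2 := one_div_le_one_div_of_le (by norm_num) hk
  have hκ2 : 0 < 1 - 1 / (k : ℝ) := by linarith
  have hQ0 := c.Q0
  have hQ : (0 : ℝ) < Q := by exact_mod_cast hQ0
  have hA : (0 : ℝ) < A := by exact_mod_cast h.hA
  have hD : (0 : ℝ) < D := by exact_mod_cast h.D_pos
  have hW : (0 : ℝ) < W := by exact_mod_cast h.hW
  have hH : (0 : ℝ) < H := by exact_mod_cast h.hH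
  have hE : (0 : ℝ) ≤ E0 := by exact_mod_cast h.hE
  have hg1 : (1 : ℝ) ≤ g := by
    rcases c.hg with h | h <;> rw [h] <;> norm_num
  have hg2 : (g : ℝ) ≤ 2 := by
    rcases c.hg with h | h <;> rw [h] <;> norm_num
  have hg0 : 0 < g := by
    rcases c.hg with h | h <;> rw [h] <;> norm_num
  have hqR : 2 * (E0 : ℝ) * k ≤ H := by exact_mod_cast h.qR
  have hqQ : 2 * (Q : ℝ) * k ≤ H := by exact_mod_cast h.qQ
  have hkH : (k : ℝ) * H ≤ W := by exact_mod_cast h.kH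
  have h2H : 2 * (H : ℝ) ≤ W := by exact_mod_cast h.two
  have hG := Gam_pos h.hk L
  set T := TT Q ws xs as bs X D A W H with hT
  -- lower bound for the number of pairs
  have hMb : ∀ u ∈ box Q xs as bs X D A, PP u ≤ E0 * W := fun u hu =>
    (PP_le_box h.X_pos.le hu).trans h.hM
  have h4E := h.four
  have h2' := h.two
  have hT1 := TT_ge (ws := ws) (H := (H : ℤ)) hQ0 h.hE (by linarith [h.hH, h.hE]) h.hW
    (by linarith [h.hE]) hMb
  rw [box_card hQ0 h.D_pos.le h.hA.le hQD hQA] at hT1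
  have hT2 : (1 - 1 / (k : ℝ)) * (H / Q) ≤ (((H : ℤ) - E0 : ℤ) : ℝ) / Q - 1 := by
    have h5 : (E0 : ℝ) + Q ≤ H * (1 / k) := by
      rw [mul_one_div, le_div_iff₀ hk0]
      nlinarith
    push_cast
    rw [div_sub_one hQ.ne', ← mul_div_assoc, div_le_div_iff_of_pos_right hQ]
    nlinarith
  have hT3 : (1 - 1 / (k : ℝ)) * (H / Q) * ((D : ℝ) / Q * ((A : ℝ) / Q) ^ 2) ≤ T.card :=
    (mul_le_mul_of_nonneg_right hT2 (by positivity)).trans hT1
  -- Cauchy–Schwarz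
  have hcs : ((T.card : ℝ)) ^ 2 ≤ ((T.image val).card : ℝ) *
      ((coll Q ws xs as bs X D A W H).card : ℝ) := by
    exact_mod_cast cs_card T val
  have hv : (1 - 1 / (k : ℝ)) ^ 2 / Gam k L * (W * H / (g * Q)) ≤ ((T.image val).card : ℝ) := by
    have h5 : ((1 - 1 / (k : ℝ)) * (H / Q) * ((D : ℝ) / Q * ((A : ℝ) / Q) ^ 2)) ^ 2 ≤
        ((T.image val).card : ℝ) * (Gam k L * (g * H * (D : ℝ) ^ 2 * (A : ℝ) ^ 4 /
          ((Q : ℝ) ^ 7 * W))) := by
      refine (pow_le_pow_left₀ (by positivity) hT3 2).trans (hcs.trans ?_)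
      exact mul_le_mul_of_nonneg_left hcoll (Nat.cast_nonneg _)
    have h6 : 0 < Gam k L * (g * H * (D : ℝ) ^ 2 * (A : ℝ) ^ 4 / ((Q : ℝ) ^ 7 * W)) := by
      positivity
    rw [← div_le_iff₀ h6] at h5
    refine le_trans (le_of_eq ?_) h5
    field_simp
  -- the class window
  obtain ⟨r, hr⟩ : ∃ r, r = ws ^ 2 + P xs as bs := ⟨_, rfl⟩
  rw [← hr]
  have hm : 0 < 2 * g * Q := by positivity
  set C := (Ico (W ^ 2) ((W + H) ^ 2)).filter (fun n : ℕ => (n : ℤ) ≡ r [ZMOD (2 * g * Q : ℕ)])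
    with hC
  have hC1 := class_card hm r W H
  have hC2 : (C.card : ℝ) ≤ (1 + 1 / (k : ℝ)) * (W * H / (g * Q)) := by
    refine hC1.trans ?_
    push_cast
    have h5 : (H : ℝ) ^ 2 ≤ W * H * (1 / k) := by
      rw [mul_one_div, le_div_iff₀ hk0]
      nlinarith
    have h6 : (2 * (g : ℝ) * Q) ≤ W * H * (1 / k) := by
      rw [mul_one_div, le_div_iff₀ hk0]
      have h7 : (g : ℝ) * (2 * Q * k) ≤ 2 * H := by
        have := mul_le_mul hg2 hqQ (by positivity) (by norm_num)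
        linarith
      have h8 : 1 ≤ (H : ℝ) := by exact_mod_cast h.hH
      nlinarith
    rw [div_add_one (by positivity), ← mul_div_assoc, div_le_div_iff₀ (by positivity)
      (by positivity)]
    have h9 : (2 * W * H + (H : ℝ) ^ 2 + 2 * g * Q) ≤ 2 * ((1 + 1 / (k : ℝ)) * (W * H)) := by
      nlinarith
    calc (2 * W * H + (H : ℝ) ^ 2 + 2 * g * Q) * (g * Q) ≤
        2 * ((1 + 1 / (k : ℝ)) * (W * H)) * (g * Q) := by gcongr
      _ = (1 + 1 / (k : ℝ)) * (W * H) * (2 * g * Q) := by ring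
  have hC3 : (bad (2 * g * Q) r W H).card + (C.filter Adm).card = C.card := by
    have h5 : bad (2 * g * Q) r W H = C.filter (fun n => ¬ Adm n) := by
      rw [bad, hC, filter_filter]
    rw [h5, add_comm]
    exact card_filter_add_card_filter_not _
  have hC4 : (T.image val).card ≤ (C.filter Adm).card := by
    refine card_le_card_of_injOn Int.toNat ?_ ?_
    · intro v hv
      obtain ⟨t, ht, rfl⟩ := mem_image.1 (mem_coe.1 hv)
      obtain ⟨h5, h6⟩ := val_adm ht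
      have h7 := mem_filter.1 ht
      have h8 := mem_product.1 h7.1
      have h9 := mem_res.1 h8.1
      have h10 := mem_box.1 h8.2
      rw [mem_coe, mem_filter, hC, mem_filter, mem_Ico]
      have h11 : ((val t).toNat : ℤ) = val t := Int.toNat_of_nonneg h5
      refine ⟨⟨⟨?_, ?_⟩, ?_⟩, h6⟩
      · have : ((W ^ 2 : ℕ) : ℤ) ≤ ((val t).toNat : ℤ) := by
          rw [h11]
          push_cast
          exact h7.2.1
        exact_mod_cast this
      · have : ((val t).toNat : ℤ) < (((W + H) ^ 2 : ℕ) : ℤ) := by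
          rw [h11]
          push_cast
          exact h7.2.2
        exact_mod_cast this
      · rw [h11, hr]
        exact val_modEq c h9.2 h10.1.2 h10.2.1.2 h10.2.2.2
    · intro v hv v' hv' hvv
      obtain ⟨t, ht, rfl⟩ := mem_image.1 (mem_coe.1 hv)
      obtain ⟨t', ht', rfl⟩ := mem_image.1 (mem_coe.1 hv')
      have h5 := (val_adm ht).1
      have h6 := (val_adm ht').1
      rw [← Int.toNat_of_nonneg h5, ← Int.toNat_of_nonneg h6, hvv]
  have hC5 : ((bad (2 * g * Q) r W H).card : ℝ) + ((C.filter Adm).card : ℝ) = C.card := by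
    exact_mod_cast hC3
  have hC6 : ((T.image val).card : ℝ) ≤ ((C.filter Adm).card : ℝ) := by exact_mod_cast hC4
  rw [gap, sub_mul]
  linarith

/-- scales -/
theorem exists_scale (M : ℕ) (hM : 0 < M) (Z0 W : ℕ) (hW : (M * (Z0 + 64)) ^ 32 ≤ W) :
    ∃ Z : ℕ, Z0 ≤ Z ∧ M ∣ Z ∧ Z ^ 32 ≤ W ∧ W ≤ 2 * Z ^ 32 := by
  obtain ⟨j, hj⟩ : ∃ j, j = Nat.findGreatest (fun j => (M * j) ^ 32 ≤ W) W := ⟨_, rfl⟩
  have h1 : Z0 + 64 ≤ W := by
    calc Z0 + 64 ≤ M * (Z0 + 64) := Nat.le_mul_of_pos_left _ hM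
      _ ≤ (M * (Z0 + 64)) ^ 32 := Nat.le_self_pow (by norm_num) _
      _ ≤ W := hW
  have h2 : Z0 + 64 ≤ j := by
    rw [hj]
    exact Nat.le_findGreatest h1 hW
  have h3 : (M * j) ^ 32 ≤ W := by
    rw [hj]
    exact Nat.findGreatest_spec (P := fun j => (M * j) ^ 32 ≤ W) h1 hW
  have h4 : W ≤ (M * (j + 1)) ^ 32 := by
    by_contra h5
    push Not at h5
    have h6 : j + 1 ≤ W := by
      calc j + 1 ≤ M * (j + 1) := Nat.le_mul_of_pos_left _ hM
        _ ≤ (M * (j + 1)) ^ 32 := Nat.le_self_pow (by norm_num) _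
        _ ≤ W := h5.le
    have h7 : j + 1 ≤ j := by
      conv_rhs => rw [hj]
      exact Nat.le_findGreatest h6 h5.le
    omega
  refine ⟨M * j, ?_, dvd_mul_right _ _, h3, h4.trans ?_⟩
  · calc Z0 ≤ j := by omega
      _ ≤ M * j := Nat.le_mul_of_pos_left _ hM
  · have h8 : 64 * (j + 1) ≤ 65 * j := by omega
    have h9 : 64 ^ 32 * (M * (j + 1)) ^ 32 ≤ 64 ^ 32 * (2 * (M * j) ^ 32) := by
      calc 64 ^ 32 * (M * (j + 1)) ^ 32 = M ^ 32 * (64 * (j + 1)) ^ 32 := by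
            rw [mul_pow, mul_pow]
            ring
        _ ≤ M ^ 32 * (65 * j) ^ 32 := Nat.mul_le_mul_left _ (Nat.pow_le_pow_left h8 32)
        _ = 65 ^ 32 * (M ^ 32 * j ^ 32) := by
            rw [mul_pow]
            ring
        _ ≤ (64 ^ 32 * 2) * (M ^ 32 * j ^ 32) := Nat.mul_le_mul_right _ (by norm_num)
        _ = 64 ^ 32 * (2 * (M * j) ^ 32) := by
            rw [mul_pow]
            ring
    exact Nat.le_of_mul_le_mul_left h9 (by norm_num)

/-- **Windows.** -/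
theorem window : ∃ C : ℕ, ∀ {Q g : ℕ} {ws xs as bs : ℤ} (_ : Cls Q g ws xs as bs) {L : ℕ}
    (_ : 0 < L) (_ : ∀ p : ℕ, p.Prime → p ≤ L → p ∣ Q) {k : ℕ} (_ : 2 ≤ k) (W : ℕ),
    (k * Q * (zz C k Q + 64)) ^ 32 ≤ W →
      ((bad (2 * g * Q) (ws ^ 2 + P xs as bs) W (W / k)).card : ℝ) ≤
        gap k L * (W * (W / k : ℕ) / (g * Q)) := by
  obtain ⟨C, hC⟩ := coll_asym
  refine ⟨C, fun {Q g ws xs as bs} c {L} hL hQL {k} hk W hW => ?_⟩
  obtain ⟨Z, h1, h2, h3, h4⟩ := exists_scale (k * Q) (Nat.mul_pos (by omega) c.Q0) _ W hW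
  obtain ⟨X, D, A, E0, hpar, hQD, hQA, hcoll⟩ := hC c hL hQL hk Z W h1 h2 h3 h4
  exact window_par c hpar hQD hQA (by exact_mod_cast hcoll)

end FSQ
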